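import Pool.Agent.Y113.GG.Defs
import Pool.Agent.Y141.GF.Wr

/-!
# Project GG: linear algebra over a domain, stable subspaces
-/

set_option autoImplicit false

namespace Pool.Agent.Y113.GG

section Alg

variable {R : Type} [CommRing R] [IsDomain R]

/-- `u` is in the saturated span of `w` -/
def InN {ι : Type} {s : ℕ} (w : Fin s → ι → R) (u : ι → R) : Prop :=
  ∃ (d : R) (x : Fin s → R), d ≠ 0 ∧ ∀ i, d * u i = ∑ a, x a * w a i

/-- a nonzero minor -/
lemma exists_minor {ι : Type} {s : ℕ} (w : Fin s → ι → R) (U : Set ι)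
    (h : ∀ x : Fin s → R, (∀ i ∈ U, ∑ a, x a * w a i = 0) → x = 0) :
    ∃ J : Fin s → ι, (∀ b, J b ∈ U) ∧ (Matrix.of fun a b => w a (J b)).det ≠ 0 := by
  classical
  let L := FractionRing R
  let c : ι → (Fin s → L) := fun i a => algebraMap R L (w a i)
  have hspan : Submodule.span L (c '' U) = ⊤ := by
    by_contra hne
    obtain ⟨f, hf0, hf⟩ := Submodule.exists_le_ker_of_lt_top _ (lt_top_iff_ne_top.2 hne)
    obtain ⟨b, hb⟩ := IsLocalization.exist_integer_multiples (nonZeroDivisors R) (S := L) Finset.univ
      (fun a : Fin s => f (Pi.single a 1))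
    choose x hx using fun a => hb a (Finset.mem_univ a)
    have hfx : ∀ v : Fin s → L, algebraMap R L (b : R) * f v = ∑ a, algebraMap R L (x a) * v a := by
      intro v
      have e1 : v = ∑ a, v a • (Pi.single a 1 : Fin s → L) := by
        funext j
        simp [Finset.sum_apply, Pi.single_apply]
      conv_lhs => rw [e1, map_sum, Finset.mul_sum]
      refine Finset.sum_congr rfl fun a _ => ?_
      rw [map_smul, smul_eq_mul, hx a, Algebra.smul_def]
      ring
    have hx0 : x = 0 := by
      refine h x fun i hi => ?_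
      have h1 : c i ∈ LinearMap.ker f := hf (Submodule.subset_span ⟨i, hi, rfl⟩)
      have h2 := hfx (c i)
      rw [LinearMap.mem_ker.1 h1, mul_zero] at h2
      apply IsFractionRing.injective R L
      rw [map_sum, map_zero, h2]
      exact Finset.sum_congr rfl fun a _ => by rw [map_mul]
    apply hf0
    ext1 a
    have hb0 : algebraMap R L (b : R) ≠ 0 := by
      intro h1
      have := IsFractionRing.injective R L (h1.trans (map_zero _).symm)
      exact nonZeroDivisors.ne_zero b.2 this
    have h3 := hfx (Pi.single a 1)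
    have h4 : algebraMap R L (b : R) * f (Pi.single a 1) = 0 := by
      rw [h3, hx0]
      simp
    have h5 := (mul_eq_zero.1 h4).resolve_left hb0
    ext
    simpa using h5
  obtain ⟨f, hf1, hf2, hf3⟩ := Submodule.exists_fun_fin_finrank_span_eq L (c '' U)
  have hr : Module.finrank L (Submodule.span L (c '' U)) = s := by
    rw [hspan, finrank_top, Module.finrank_fin_fun]
  choose J hJ hJc using hf1
  let J' : Fin s → ι := fun b => J (Fin.cast hr.symm b)
  refine ⟨J', fun b => hJ _, fun hdet => ?_⟩
  have hli : LinearIndependent L (fun b : Fin s => f (Fin.cast hr.symm b)) :=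
    hf3.comp _ (Fin.cast_injective _)
  have hm : (Matrix.of fun a b : Fin s => algebraMap R L (w a (J' b))).col = fun b : Fin s => f (Fin.cast hr.symm b) := by
    funext b a
    have := congrFun (hJc (Fin.cast hr.symm b)) a
    simpa [Matrix.col, J', c] using this
  rw [← hm, Matrix.linearIndependent_cols_iff_isUnit, Matrix.isUnit_iff_isUnit_det] at hli
  have h1 : (Matrix.of fun a b : Fin s => algebraMap R L (w a (J' b))) =
      (algebraMap R L).mapMatrix (Matrix.of fun a b : Fin s => w a (J' b)) := by
    ext a b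
    rfl
  rw [h1, ← RingHom.map_det, hdet, map_zero] at hli
  exact not_isUnit_zero hli

/-- Cramer's rule -/
lemma cramer_row {ι : Type} {s : ℕ} (w : Fin s → ι → R) (J : Fin s → ι) (b₀ : Fin s) (v : ι → R) (c : R)
    (hv : InN w v) (hJ : ∀ b, v (J b) = if b = b₀ then c else 0) (i : ι) :
    (Matrix.of fun a b => w a (J b)).det * v i =
      c * ∑ a, (Matrix.of fun a b => w a (J b)).adjugate b₀ a * w a i := by
  obtain ⟨d, x, hd, hx⟩ := hv
  set M : Matrix (Fin s) (Fin s) R := Matrix.of fun a b => w a (J b) with hM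
  have h1 : Matrix.vecMul x M = fun b => if b = b₀ then d * c else 0 := by
    funext b
    have h2 := hx (J b)
    rw [hJ b] at h2
    show ∑ a, x a * w a (J b) = _
    rw [← h2]
    split_ifs <;> simp
  have h2 : ∀ a, x a * M.det = d * c * M.adjugate b₀ a := by
    intro a
    have h3 : Matrix.vecMul (Matrix.vecMul x M) M.adjugate a = x a * M.det := by
      rw [Matrix.vecMul_vecMul, Matrix.mul_adjugate, Matrix.vecMul_smul, Matrix.vecMul_one]
      simp [mul_comm]
    rw [← h3, h1]
    show ∑ b, (if b = b₀ then d * c else 0) * M.adjugate b a = _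
    simp
  refine mul_left_cancel₀ hd ?_
  calc d * (M.det * v i) = M.det * (d * v i) := by ring
    _ = ∑ a, (x a * M.det) * w a i := by
      rw [hx i, Finset.mul_sum]
      exact Finset.sum_congr rfl fun a _ => by ring
    _ = _ := by
      rw [Finset.mul_sum, Finset.mul_sum]
      exact Finset.sum_congr rfl fun a _ => by rw [h2 a]; ring

end Alg

section Const

open PowerSeries

/-- a family which is stable under derivation spans a space with a constant basis -/
lemma const_basis {ι : Type} {s : ℕ} (V : Fin s → ι → ℚ⟦X⟧) (d : ℚ⟦X⟧) (Λ : Fin s → Fin s → ℚ⟦X⟧) (hd : d ≠ 0)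
    (hV : ∀ a i, d * d⁄dX ℚ (V a i) = ∑ b, Λ a b * V b i) (J : Fin s → ι)
    (hJ : (Matrix.of fun a b => V a (J b)).det ≠ 0) :
    ∃ E : Fin s → ι → ℚ, ∀ a i, V a i = ∑ b, V a (J b) * PowerSeries.C (E b i) := by
  set M : Matrix (Fin s) (Fin s) ℚ⟦X⟧ := Matrix.of fun a b => V a (J b) with hM
  set N : Fin s → ι → ℚ⟦X⟧ := fun b i => ∑ a, M.adjugate b a * V a i with hN
  have h1 : ∀ a i, ∑ b, M a b * N b i = M.det * V a i := by
    intro a i
    simp only [hN, Finset.mul_sum]
    rw [Finset.sum_comm]
    have h2 : ∀ a', ∑ b, M a b * (M.adjugate b a' * V a' i) = (if a = a' then M.det else 0) * V a' i := by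
      intro a'
      have h3 := congrFun (congrFun (Matrix.mul_adjugate M) a) a'
      rw [Matrix.mul_apply, Matrix.smul_apply, Matrix.one_apply] at h3
      have h4 : (if a = a' then M.det else 0) = M.det • (if a = a' then (1 : ℚ⟦X⟧) else 0) := by
        split_ifs <;> simp
      rw [h4, ← h3, Finset.sum_mul]
      exact Finset.sum_congr rfl fun b _ => by ring
    simp only [h2]
    simp
  have h5 : ∀ a i, ∑ b, M a b * d⁄dX ℚ (N b i) = d⁄dX ℚ M.det * V a i := by
    intro a i
    have h6 := congrArg (fun f => d * d⁄dX ℚ f) (h1 a i)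
    simp only [map_sum, Derivation.leibniz, smul_eq_mul, mul_add, Finset.sum_add_distrib, Finset.mul_sum] at h6
    have h7 : ∑ b, d * (N b i * d⁄dX ℚ (M a b)) = M.det * (d * d⁄dX ℚ (V a i)) := by
      have h8 : ∀ b, d * (N b i * d⁄dX ℚ (M a b)) = ∑ c, Λ a c * (M c b * N b i) := by
        intro b
        have h9 := hV a (J b)
        calc d * (N b i * d⁄dX ℚ (M a b)) = (d * d⁄dX ℚ (V a (J b))) * N b i := by rw [hM]; simp only [Matrix.of_apply]; ring
          _ = _ := by
            rw [h9, Finset.sum_mul]
            exact Finset.sum_congr rfl fun c _ => by rw [hM]; simp only [Matrix.of_apply]; ring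
      simp only [h8]
      rw [Finset.sum_comm, hV a i, Finset.mul_sum]
      refine Finset.sum_congr rfl fun c _ => ?_
      rw [← Finset.mul_sum, h1 c i]
      ring
    rw [h7] at h6
    have h10 : d * ∑ b, M a b * d⁄dX ℚ (N b i) = d * (d⁄dX ℚ M.det * V a i) := by
      rw [Finset.mul_sum]
      linear_combination h6
    exact mul_left_cancel₀ hd h10
  have h11 : ∀ e i, d⁄dX ℚ (N e i) * M.det = N e i * d⁄dX ℚ M.det := by
    intro e i
    have h12 : ∑ a, M.adjugate e a * (∑ b, M a b * d⁄dX ℚ (N b i)) = M.det * d⁄dX ℚ (N e i) := by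
      simp only [Finset.mul_sum]
      rw [Finset.sum_comm]
      have h2 : ∀ b, ∑ a, M.adjugate e a * (M a b * d⁄dX ℚ (N b i)) = (if e = b then M.det else 0) * d⁄dX ℚ (N b i) := by
        intro b
        have h3 := congrFun (congrFun (Matrix.adjugate_mul M) e) b
        rw [Matrix.mul_apply, Matrix.smul_apply, Matrix.one_apply] at h3
        have h4 : (if e = b then M.det else 0) = M.det • (if e = b then (1 : ℚ⟦X⟧) else 0) := by
          split_ifs <;> simp
        rw [h4, ← h3, Finset.sum_mul]
        exact Finset.sum_congr rfl fun b _ => by ring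
      simp only [h2]
      simp
    have h13 : ∑ a, M.adjugate e a * (∑ b, M a b * d⁄dX ℚ (N b i)) = N e i * d⁄dX ℚ M.det := by
      simp only [h5]
      show _ = (∑ a, M.adjugate e a * V a i) * _
      rw [Finset.sum_mul]
      exact Finset.sum_congr rfl fun a _ => by ring
    rw [mul_comm, ← h12, h13]
  choose E hE using fun b i => Pool.Agent.Y141.GF.const_of_wr (N b i) M.det hJ (h11 b i)
  refine ⟨E, fun a i => ?_⟩
  refine mul_left_cancel₀ hJ ?_
  rw [← h1 a i, Finset.mul_sum]
  refine Finset.sum_congr rfl fun b _ => ?_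
  rw [hE b i]
  show M a b * _ = M.det * (V a (J b) * _)
  rw [hM]
  simp only [Matrix.of_apply]
  ring

end Const

end Pool.Agent.Y113.GG
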