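import Pool.Agent.Y113.GG.Sh

/-!
# Project GG: frames of families of power series, products, shifts
-/

set_option autoImplicit false

open PowerSeries

namespace Pool.Agent.Y113.GG

open Pool.Agent.Y37.GF (ph ph_eq ph_X ph_der sh_mul sh_der)

/-- a frame `Y` of the family `G` -/
structure Fr {ι : Type} [Fintype ι] [DecidableEq ι] (T : Polynomial ℚ) (A : ι → ι → Polynomial ℚ) (G : ι → ℚ⟦X⟧)
    (γ : ι → ℚ) (Y W : Matrix ι ι ℚ⟦X⟧) : Prop where
  inv : W * Y = 1
  lin : ∀ i, G i = ∑ j, PowerSeries.C (γ j) * Y j i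
  sys : ∀ i j, (T : ℚ⟦X⟧) * d⁄dX ℚ (Y i j) = ∑ k, Y i k * (A k j : ℚ⟦X⟧)

lemma der_prod {α : Type} [DecidableEq α] (s : Finset α) (y : α → ℚ⟦X⟧) :
    d⁄dX ℚ (∏ a ∈ s, y a) = ∑ a ∈ s, ∏ b ∈ s, if b = a then d⁄dX ℚ (y b) else y b := by
  induction s using Finset.induction_on with
  | empty => simp
  | insert a s ha ih =>
    rw [Finset.prod_insert ha, Derivation.leibniz, ih, Finset.sum_insert ha, Finset.prod_insert ha, if_pos rfl]
    simp only [smul_eq_mul]
    have h1 : ∏ b ∈ s, (if b = a then d⁄dX ℚ (y b) else y b) = ∏ b ∈ s, y b :=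
      Finset.prod_congr rfl fun b hb => if_neg fun h : b = a => ha (h ▸ hb)
    rw [h1]
    have h2 : ∑ c ∈ s, ∏ b ∈ insert a s, (if b = c then d⁄dX ℚ (y b) else y b) =
        y a * ∑ c ∈ s, ∏ b ∈ s, (if b = c then d⁄dX ℚ (y b) else y b) := by
      rw [Finset.mul_sum]
      refine Finset.sum_congr rfl fun c hc => ?_
      rw [Finset.prod_insert ha, if_neg]
      intro h
      exact ha (by rw [h]; exact hc)
    rw [h2]
    ring

lemma prod_sum_fn {R : Type} [CommRing R] {δ : ℕ} {L : Type} [Fintype L] (F : Fin δ → L → R) :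
    ∏ a, ∑ l, F a l = ∑ k : Fin δ → L, ∏ a, F a (k a) := by
  classical
  rw [Finset.prod_univ_sum, Fintype.piFinset_univ]

variable {L : Type} [Fintype L] [DecidableEq L] {T : Polynomial ℚ} {A : L → L → Polynomial ℚ} {G : L → ℚ⟦X⟧}
  {γ : L → ℚ} {Y W : Matrix L L ℚ⟦X⟧}

/-- the system of the words -/
noncomputable def Aw (δ : ℕ) (A : L → L → Polynomial ℚ) (k h : Fin δ → L) : Polynomial ℚ :=
  ∑ a, ∏ b, if b = a then A (k b) (h b) else if k b = h b then 1 else 0

/-- the frame of the words -/
lemma Fr.word (H : Fr T A G γ Y W) (δ : ℕ) :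
    Fr T (Aw δ A) (fun h : Fin δ → L => ∏ a, G (h a)) (fun f => ∏ a, γ (f a))
      (Matrix.of fun f h => ∏ a, Y (f a) (h a)) (Matrix.of fun f h => ∏ a, W (f a) (h a)) := by
  refine ⟨?_, ?_, ?_⟩
  · ext1 f h
    rw [Matrix.mul_apply]
    simp only [Matrix.of_apply]
    have h1 : ∀ k : Fin δ → L, (∏ a, W (f a) (k a)) * ∏ a, Y (k a) (h a) = ∏ a, (W (f a) (k a) * Y (k a) (h a)) :=
      fun k => Finset.prod_mul_distrib.symm
    rw [Finset.sum_congr rfl fun k _ => h1 k, ← prod_sum_fn (fun a l => W (f a) l * Y l (h a))]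
    have h2 : ∀ a, ∑ l, W (f a) l * Y l (h a) = (1 : Matrix L L ℚ⟦X⟧) (f a) (h a) := by
      intro a
      rw [← H.inv, Matrix.mul_apply]
    rw [Finset.prod_congr rfl fun a _ => h2 a]
    by_cases hfh : f = h
    · subst hfh
      simp
    · rw [Matrix.one_apply_ne hfh]
      obtain ⟨a, ha⟩ := Function.ne_iff.1 hfh
      exact Finset.prod_eq_zero (Finset.mem_univ a) (Matrix.one_apply_ne ha)
  · intro h
    simp only [Matrix.of_apply]
    rw [Finset.prod_congr rfl fun a _ => H.lin (h a), prod_sum_fn (fun a l => PowerSeries.C (γ l) * Y l (h a))]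
    refine Finset.sum_congr rfl fun k _ => ?_
    rw [Finset.prod_mul_distrib, map_prod]
  · intro f h
    simp only [Matrix.of_apply]
    rw [der_prod, Finset.mul_sum]
    have h1 : ∀ k : Fin δ → L, (∏ a, Y (f a) (k a)) * (Aw δ A k h : ℚ⟦X⟧) =
        ∑ a, ∏ b, (Y (f b) (k b) * if b = a then (A (k b) (h b) : ℚ⟦X⟧) else if k b = h b then 1 else 0) := by
      intro k
      rw [Aw, coe_ringHom, map_sum, Finset.mul_sum]
      refine Finset.sum_congr rfl fun a _ => ?_
      rw [map_prod, ← Finset.prod_mul_distrib]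
      refine Finset.prod_congr rfl fun b _ => ?_
      congr 1
      split_ifs
      · rfl
      · simp
      · simp
    rw [Finset.sum_congr rfl fun k _ => h1 k, Finset.sum_comm]
    refine Finset.sum_congr rfl fun a _ => ?_
    rw [← prod_sum_fn (fun b l => Y (f b) l * if b = a then (A l (h b) : ℚ⟦X⟧) else if l = h b then 1 else 0)]
    have h2 : ∀ b, ∑ l, (Y (f b) l * if b = a then (A l (h b) : ℚ⟦X⟧) else if l = h b then 1 else 0) =
        if b = a then (T : ℚ⟦X⟧) * d⁄dX ℚ (Y (f b) (h b)) else Y (f b) (h b) := by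
      intro b
      by_cases hb : b = a
      · simp only [if_pos hb]
        rw [H.sys]
      · simp only [if_neg hb]
        simp
    rw [Finset.prod_congr rfl fun b _ => h2 b]
    rw [← Finset.mul_prod_erase _ _ (Finset.mem_univ a), ← Finset.mul_prod_erase _ _ (Finset.mem_univ a), if_pos rfl,
      if_pos rfl, mul_assoc]
    congr 1
    congr 1
    refine Finset.prod_congr rfl fun b hb => ?_
    rw [if_neg (Finset.ne_of_mem_erase hb), if_neg (Finset.ne_of_mem_erase hb)]

/-- the frame after a shift -/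
lemma Fr.ph (H : Fr T A G γ Y W) {d : ℕ} (hT : T.natDegree ≤ d) (hA : ∀ k j, (A k j).natDegree ≤ d) (g : ℕ) :
    Fr ((1 - Polynomial.C (g : ℚ) * Polynomial.X) ^ 2 * hq d T g) (fun k j => hq d (A k j) g)
      (fun i => Y37.GF.ph g (G i)) γ (Matrix.of fun i j => Y37.GF.ph g (Y i j)) (Matrix.of fun i j => Y37.GF.ph g (W i j)) := by
  refine ⟨?_, ?_, ?_⟩
  · ext1 i j
    rw [Matrix.mul_apply]
    simp only [Matrix.of_apply]
    have h1 : ∑ k, W i k * Y k j = (1 : Matrix L L ℚ⟦X⟧) i j := by rw [← H.inv, Matrix.mul_apply]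
    have h2 := congrArg (Y37.GF.ph g) h1
    rw [map_sum] at h2
    simp only [map_mul] at h2
    rw [h2]
    by_cases hij : i = j
    · subst hij; simp
    · rw [Matrix.one_apply_ne hij, map_zero]
  · intro i
    simp only [Matrix.of_apply]
    rw [H.lin i, map_sum]
    refine Finset.sum_congr rfl fun j _ => ?_
    rw [map_mul, ph_C]
  · intro i j
    simp only [Matrix.of_apply]
    exact ph_sys hT hA (fun j => H.sys i j) g j

/-! ### The letters -/

section letters

variable {n : ℕ}

/-- the frame of the letters -/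
noncomputable def Y0 (Z : Fin n → Fin n → ℚ⟦X⟧) : Matrix (Option (Fin n × Fin n)) (Option (Fin n × Fin n)) ℚ⟦X⟧ :=
  Matrix.of fun o o' => match o, o' with
    | none, none => 1
    | some p, some p' => if p.1 = p'.1 then Z p.2 p'.2 else 0
    | _, _ => 0

/-- its inverse -/
noncomputable def W0 (W : Fin n → Fin n → ℚ⟦X⟧) : Matrix (Option (Fin n × Fin n)) (Option (Fin n × Fin n)) ℚ⟦X⟧ :=
  Matrix.of fun o o' => match o, o' with
    | none, none => 1
    | some p, some p' => if p.1 = p'.1 then W p.2 p'.2 else 0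
    | _, _ => 0

/-- the coefficients of the letters -/
def γ0 (n : ℕ) : Option (Fin n × Fin n) → ℚ
  | none => 1
  | some p => if p.1 = p.2 then 1 else 0

/-- the system of the letters -/
noncomputable def A0 (A : Fin n → Fin n → Polynomial ℚ) : Option (Fin n × Fin n) → Option (Fin n × Fin n) → Polynomial ℚ
  | none, none => 0
  | some p, some p' => if p.1 = p'.1 then A p.2 p'.2 else 0
  | none, some _ => 0
  | some _, none => 0

/-- the letters -/
noncomputable def lt (Z : Fin n → Fin n → ℚ⟦X⟧) (o : Option (Fin n × Fin n)) : ℚ⟦X⟧ := o.elim 1 fun p => Z p.1 p.2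

lemma sum_opt {R : Type} [CommRing R] (F : Option (Fin n × Fin n) → R) :
    ∑ o, F o = F none + ∑ i, ∑ j, F (some (i, j)) := by
  rw [Fintype.sum_option, Fintype.sum_prod_type]

lemma fr_base {T : Polynomial ℚ} {A : Fin n → Fin n → Polynomial ℚ} {Z W : Fin n → Fin n → ℚ⟦X⟧}
    (hZ : ∀ i j, (T : ℚ⟦X⟧) * d⁄dX ℚ (Z i j) = ∑ k, Z i k * (A k j : ℚ⟦X⟧))
    (hW : ∀ i j, ∑ k, W i k * Z k j = if i = j then 1 else 0) :
    Fr T (A0 A) (lt Z) (γ0 n) (Y0 Z) (W0 W) := by
  refine ⟨?_, ?_, ?_⟩
  · ext1 o o'
    rw [Matrix.mul_apply, sum_opt]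
    rcases o with _ | ⟨i, j⟩ <;> rcases o' with _ | ⟨i', j'⟩
    · simp [W0, Y0]
    · simp [W0, Y0]
    · simp [W0, Y0]
    · simp only [W0, Y0, Matrix.of_apply, zero_mul, zero_add, ite_mul, mul_ite, mul_zero]
      by_cases hi : i = i'
      · subst hi
        have h1 : ∀ k, (∑ l, if k = i then if i = k then W j l * Z l j' else 0 else 0) =
            if i = k then (if j = j' then 1 else 0) else 0 := by
          intro k
          by_cases hk : i = k
          · subst hk
            simp only [if_true]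
            exact hW j j'
          · simp [hk]
        have h2 : ∑ k, (if i = k then (if j = j' then (1 : ℚ⟦X⟧) else 0) else 0) = if j = j' then 1 else 0 := by
          simp
        refine ((Finset.sum_congr rfl fun k _ => h1 k).trans h2).trans ?_
        by_cases hj : j = j'
        · subst hj; simp
        · rw [if_neg hj, Matrix.one_apply_ne]
          simp [hj]
      · rw [Matrix.one_apply_ne (by simp [hi])]
        refine Finset.sum_eq_zero fun k _ => Finset.sum_eq_zero fun l _ => ?_
        by_cases hk : i = k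
        · subst hk; simp [hi]
        · simp [hk]
  · intro o
    rw [sum_opt]
    rcases o with _ | ⟨i, j⟩
    · simp [γ0, Y0, lt]
    · simp only [γ0, Y0, Matrix.of_apply, mul_zero, zero_add, lt, Option.elim]
      have h1 : ∀ a, (∑ b, PowerSeries.C (if a = b then (1 : ℚ) else 0) * (if a = i then Z b j else 0)) =
          if a = i then Z i j else 0 := by
        intro a
        rw [Finset.sum_eq_single a]
        · by_cases ha : a = i
          · subst ha; simp
          · simp [ha]
        · intro b _ hb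
          simp [Ne.symm hb]
        · simp
      rw [Finset.sum_congr rfl fun a _ => h1 a]
      simp
  · intro o o'
    rw [sum_opt]
    rcases o with _ | ⟨a, b⟩ <;> rcases o' with _ | ⟨i, j⟩
    · simp [Y0, A0]
    · simp [Y0, A0]
    · simp [Y0, A0]
    · simp only [Y0, A0, Matrix.of_apply, zero_mul, zero_add]
      by_cases ha : a = i
      · subst ha
        rw [if_pos rfl, hZ b j]
        symm
        rw [Finset.sum_eq_single a]
        · simp
        · intro k _ hk
          simp [Ne.symm hk]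
        · simp
      · simp only [if_neg ha, map_zero, mul_zero]
        refine (Finset.sum_eq_zero fun k _ => Finset.sum_eq_zero fun l _ => ?_).symm
        by_cases hk : a = k
        · subst hk; simp [ha]
        · simp [hk]

end letters

end Pool.Agent.Y113.GG
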