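import Pool.Agent.Y46.HG.HGOne
import Pool.Agent.Y113.GG.Word

/-!
# Project GG: bases of words over the rational functions
-/

set_option autoImplicit false

open PowerSeries

namespace Pool.Agent.Y113.GG

open Pool.Agent.Y113

/-- a maximal linearly independent subfamily containing a given member -/
lemma exists_basis {R V ι : Type} [CommRing R] [IsDomain R] [AddCommGroup V] [Module R V] [Fintype ι] [DecidableEq ι]
    (y : ι → V) (i₀ : ι) (h0 : ∀ a : R, a • y i₀ = 0 → a = 0) :
    ∃ s : Finset ι, i₀ ∈ s ∧ LinearIndependent R (fun k : s => y k) ∧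
      ∃ (D : R) (N : ι → s → R), D ≠ 0 ∧ ∀ i, D • y i = ∑ k : s, N i k • y k := by
  classical
  set F : Finset (Finset ι) := Finset.univ.filter fun s => i₀ ∈ s ∧ LinearIndependent R (fun k : s => y k) with hF
  have hne : F.Nonempty := by
    refine ⟨{i₀}, ?_⟩
    rw [hF, Finset.mem_filter]
    refine ⟨Finset.mem_univ _, Finset.mem_singleton_self _, ?_⟩
    rw [Fintype.linearIndependent_iff]
    intro c hc k
    have hk : (k : ι) = i₀ := Finset.mem_singleton.1 k.2
    have h1 : ∑ j : ({i₀} : Finset ι), c j • y j = c k • y i₀ := by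
      rw [Finset.sum_eq_single k]
      · rw [hk]
      · intro j _ hj
        exact absurd (Subtype.ext ((Finset.mem_singleton.1 j.2).trans hk.symm)) hj
      · intro h; exact absurd (Finset.mem_univ _) h
    exact h0 _ (h1.symm.trans hc)
  obtain ⟨s, hs, hmax⟩ := Finset.exists_max_image F Finset.card hne
  obtain ⟨hi₀, hli⟩ := (Finset.mem_filter.1 hs).2
  -- every member is dependent
  have key : ∀ i, ∃ (D : R) (N : s → R), D ≠ 0 ∧ D • y i = ∑ k : s, N k • y k := by
    intro i
    by_cases hi : i ∈ s
    · refine ⟨1, fun k => if (k : ι) = i then 1 else 0, one_ne_zero, ?_⟩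
      rw [Finset.sum_eq_single (⟨i, hi⟩ : s)]
      · simp
      · intro j _ hj
        have hj' : (j : ι) ≠ i := fun h => hj (Subtype.ext h)
        simp [hj']
      · intro h; exact absurd (Finset.mem_univ _) h
    · have hnot : ¬ LinearIndependent R (fun k : (insert i s : Finset ι) => y k) := by
        intro h
        have h1 : insert i s ∈ F := by
          rw [hF, Finset.mem_filter]
          exact ⟨Finset.mem_univ _, Finset.mem_insert_of_mem hi₀, h⟩
        have h2 := hmax _ h1
        rw [Finset.card_insert_of_notMem hi] at h2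
        omega
      rw [Fintype.linearIndependent_iff] at hnot
      push Not at hnot
      obtain ⟨c, hc, j, hj⟩ := hnot
      have hsplit : ∑ k : (insert i s : Finset ι), c k • y k =
          c ⟨i, Finset.mem_insert_self i s⟩ • y i + ∑ k : s, c ⟨k, Finset.mem_insert_of_mem k.2⟩ • y k := by
        have h1 : ∑ k : (insert i s : Finset ι), c k • y k =
            ∑ k ∈ insert i s, (if h : k ∈ insert i s then c ⟨k, h⟩ • y k else 0) := by
          rw [← Finset.sum_coe_sort (insert i s) (fun k => if h : k ∈ insert i s then c ⟨k, h⟩ • y k else 0)]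
          refine Finset.sum_congr rfl fun k _ => ?_
          rw [dif_pos k.2]
        rw [h1, Finset.sum_insert hi, dif_pos (Finset.mem_insert_self i s)]
        congr 1
        rw [← Finset.sum_coe_sort s (fun k => if h : k ∈ insert i s then c ⟨k, h⟩ • y k else 0)]
        refine Finset.sum_congr rfl fun k _ => ?_
        rw [dif_pos (Finset.mem_insert_of_mem k.2)]
      refine ⟨c ⟨i, Finset.mem_insert_self i s⟩, fun k => - c ⟨k, Finset.mem_insert_of_mem k.2⟩, ?_, ?_⟩
      · intro h
        rw [hsplit, h, zero_smul, zero_add] at hc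
        have h2 := Fintype.linearIndependent_iff.1 hli _ hc
        rcases Finset.mem_insert.1 j.2 with h3 | h3
        · apply hj
          have : j = ⟨i, Finset.mem_insert_self i s⟩ := Subtype.ext h3
          rw [this]
          exact h
        · exact hj (h2 ⟨j, h3⟩)
      · rw [hsplit] at hc
        rw [Finset.sum_congr rfl fun k _ => neg_smul _ _, Finset.sum_neg_distrib]
        exact eq_neg_of_add_eq_zero_left hc
  choose D N hD hN using key
  refine ⟨s, hi₀, hli, ∏ i, D i, fun i k => (∏ j ∈ Finset.univ.erase i, D j) * N i k,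
    Finset.prod_ne_zero_iff.2 fun i _ => hD i, fun i => ?_⟩
  rw [← Finset.prod_erase_mul _ _ (Finset.mem_univ i), mul_smul, hN i, Finset.smul_sum]
  exact Finset.sum_congr rfl fun k _ => (mul_smul _ _ _).symm

/-- integral multiples of finitely many rational polynomials -/
lemma common_IP {α : Type} [Fintype α] (P : α → Polynomial ℚ) :
    ∃ (N0 : ℕ) (Q : α → Polynomial ℤ), 0 < N0 ∧ ∀ a, (Q a).map (Int.castRingHom ℚ) = Polynomial.C (N0 : ℚ) * P a := by
  classical
  choose d hd0 hd using fun a => Pool.Agent.Y46.HG.exists_IP (P a)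
  have h1 : ∀ a, IP (∏ b, d b) (P a) := by
    intro a
    rw [← Finset.prod_erase_mul _ _ (Finset.mem_univ a)]
    exact (hd a).mul_left _
  choose Q hQ using h1
  exact ⟨∏ b, d b, Q, Finset.prod_pos fun a _ => hd0 a, hQ⟩

variable {n : ℕ}

/-- the words -/
noncomputable def wd (Z : Fin n → Fin n → ℚ⟦X⟧) {δ : ℕ} (h : Fin δ → Option (Fin n × Fin n)) : ℚ⟦X⟧ := ∏ a, lt Z (h a)

/-- the basis of the words -/
theorem exists_words (Z : Fin n → Fin n → ℚ⟦X⟧) (δ : ℕ) :
    ∃ s : Finset (Fin δ → Option (Fin n × Fin n)), (fun _ => none) ∈ s ∧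
      LinearIndependent (Polynomial ℚ) (fun k : s => wd Z (k : Fin δ → Option (Fin n × Fin n))) ∧
      ∃ (D : Polynomial ℤ) (N : (Fin δ → Option (Fin n × Fin n)) → s → Polynomial ℤ), D ≠ 0 ∧
        ∀ h, ps D * wd Z h = ∑ k : s, ps (N h k) * wd Z (k : Fin δ → Option (Fin n × Fin n)) := by
  classical
  obtain ⟨s, h1, h2, D, N, hD, hN⟩ := exists_basis (R := Polynomial ℚ) (wd Z) (fun _ : Fin δ => (none : Option (Fin n × Fin n)))
    (by
      intro a ha
      have h3 : wd Z (fun _ : Fin δ => (none : Option (Fin n × Fin n))) = 1 := by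
        unfold wd lt
        simp
      rw [h3] at ha
      have h4 : (a : ℚ⟦X⟧) = 0 := by
        have h5 : a • (1 : ℚ⟦X⟧) = (a : ℚ⟦X⟧) * 1 := rfl
        rw [h5, mul_one] at ha
        exact ha
      exact Polynomial.coe_eq_zero_iff.1 h4)
  refine ⟨s, h1, h2, ?_⟩
  obtain ⟨N0, Q, hN0, hQ⟩ := common_IP (fun x : Option ((Fin δ → Option (Fin n × Fin n)) × s) =>
    x.elim D fun p => N p.1 p.2)
  have hps : ∀ x, ps (Q x) = PowerSeries.C (N0 : ℚ) * ((x.elim D fun p => N p.1 p.2 : Polynomial ℚ) : ℚ⟦X⟧) := by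
    intro x
    unfold ps
    rw [hQ, Polynomial.coe_mul, Polynomial.coe_C]
  refine ⟨Q none, fun h k => Q (some (h, k)), ?_, fun h => ?_⟩
  · intro h3
    have h4 := hQ none
    rw [h3, Polynomial.map_zero] at h4
    rcases mul_eq_zero.1 h4.symm with h5 | h5
    · rw [Polynomial.C_eq_zero] at h5
      have : N0 ≠ 0 := by omega
      exact this (by exact_mod_cast h5)
    · exact hD h5
  · rw [hps none]
    have h6 : (D : ℚ⟦X⟧) * wd Z h = ∑ k : s, (N h k : ℚ⟦X⟧) * wd Z (k : Fin δ → Option (Fin n × Fin n)) := hN h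
    rw [mul_assoc]
    simp only [Option.elim]
    rw [h6, Finset.mul_sum]
    refine Finset.sum_congr rfl fun k _ => ?_
    rw [hps (some (h, k))]
    simp only [Option.elim]
    ring

end Pool.Agent.Y113.GG
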