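import Pool.Agent.Y113.W.Count

/-!
# Project GG: counting tuples, abstract form
-/

set_option autoImplicit false

namespace Pool.Agent.Y113.GG

open Pool.Agent.Y113

open Classical in
/-- few bad tuples, abstract form -/
theorem count_abs (B1 : Submodule ℚ ℂ → ℕ → Prop) (Bk : (k : ℕ) → Submodule ℚ ℂ → (Fin k → ℕ) → Prop)
    (Ext : (k : ℕ) → Submodule ℚ ℂ → (Fin k → ℕ) → Submodule ℚ ℂ) (L : ℕ → ℕ)
    (h0 : ∀ V t, ¬ Bk 0 V t)
    (hsplit : ∀ (k : ℕ) (V : Submodule ℚ ℂ) (t : Fin (k + 1) → ℕ), Bk (k + 1) V t → Bk k V (fun i => t i.succ) ∨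
      B1 (Ext k V (fun i => t i.succ)) (t 0))
    (hExt : ∀ (k : ℕ) (V : Submodule ℚ ℂ) (t : Fin k → ℕ), Module.Finite ℚ V → Module.Finite ℚ (Ext k V t) ∧
      Module.finrank ℚ (Ext k V t) ≤ Module.finrank ℚ V * L k)
    (hwin : ∀ D : ℕ, ∃ M E : ℕ, ∀ (V : Submodule ℚ ℂ), Module.Finite ℚ V → Module.finrank ℚ V ≤ D →
      ∀ (H t : ℕ), (H + 2) ^ E ≤ t → ∀ S : Finset ℕ, (∀ g ∈ S, g ≤ H ∧ B1 V (t - g)) → S.card ≤ M)
    (k : ℕ) : ∀ D : ℕ, ∃ c : ℝ, 0 < c ∧ ∃ C : ℝ, 0 ≤ C ∧ ∀ V : Submodule ℚ ℂ, Module.Finite ℚ V →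
      Module.finrank ℚ V ≤ D → ∀ T : ℕ, 1 ≤ T →
      (((Fintype.piFinset fun _ : Fin k => Finset.Icc 2 T).filter fun t => Bk k V t).card : ℝ) ≤
        C * (T : ℝ) ^ ((k : ℝ) - c) := by
  induction k with
  | zero =>
    intro D
    refine ⟨1, one_pos, 0, le_rfl, fun V _ _ T _ => ?_⟩
    rw [Finset.filter_false_of_mem, Finset.card_empty]
    · simp
    · exact fun t _ => h0 V t
  | succ k ih =>
    intro D
    obtain ⟨c₁, hc₁, C₁, hC₁, h₁⟩ := ih D
    obtain ⟨M, E, hME⟩ := hwin (D * L k)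
    obtain ⟨c₂, hc₂, hc₂1, C₂, hC₂, h₂⟩ := count_windows M E
    refine ⟨min c₁ c₂, lt_min hc₁ hc₂, C₁ + C₂, by positivity, fun V hV hVD T hT => ?_⟩
    have hT1 : (1 : ℝ) ≤ T := by exact_mod_cast hT
    have hT0 : (0 : ℝ) < T := by linarith
    set bad₁ := (Fintype.piFinset fun _ : Fin k => Finset.Icc 2 T).filter fun t => Bk k V t with hbad₁
    set bad₂ : (Fin k → ℕ) → Finset ℕ := fun t => (Finset.Icc 2 T).filter fun n => B1 (Ext k V t) n with hbad₂
    have hsub : ((Fintype.piFinset fun _ : Fin (k + 1) => Finset.Icc 2 T).filter fun t => Bk (k + 1) V t) ⊆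
        ((Finset.Icc 2 T ×ˢ bad₁).image fun p => (Fin.cons p.1 p.2 : Fin (k + 1) → ℕ)) ∪
        (((Fintype.piFinset fun _ : Fin k => Finset.Icc 2 T).sigma bad₂).image
          fun p => (Fin.cons p.2 p.1 : Fin (k + 1) → ℕ)) := by
      intro t ht
      obtain ⟨ht1, ht2⟩ := Finset.mem_filter.1 ht
      rw [Fintype.mem_piFinset] at ht1
      have htail : (fun i => t i.succ) ∈ Fintype.piFinset fun _ : Fin k => Finset.Icc 2 T := by
        rw [Fintype.mem_piFinset]
        exact fun i => ht1 i.succ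
      rcases hsplit k V t ht2 with h5 | h5
      · refine Finset.mem_union_left _ (Finset.mem_image.2 ⟨(t 0, fun i => t i.succ), ?_, ?_⟩)
        · exact Finset.mem_product.2 ⟨ht1 0, Finset.mem_filter.2 ⟨htail, h5⟩⟩
        · funext i
          refine Fin.cases ?_ (fun i => ?_) i <;> simp
      · refine Finset.mem_union_right _ (Finset.mem_image.2 ⟨⟨fun i => t i.succ, t 0⟩, ?_, ?_⟩)
        · exact Finset.mem_sigma.2 ⟨htail, Finset.mem_filter.2 ⟨ht1 0, h5⟩⟩
        · funext i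
          refine Fin.cases ?_ (fun i => ?_) i <;> simp
    have hcard : (((Fintype.piFinset fun _ : Fin (k + 1) => Finset.Icc 2 T).filter fun t => Bk (k + 1) V t).card : ℝ) ≤
        T * (C₁ * (T : ℝ) ^ ((k : ℝ) - c₁)) + (T : ℝ) ^ k * (C₂ * (T : ℝ) ^ (1 - c₂)) := by
      have hIcc : ((Finset.Icc 2 T).card : ℝ) ≤ T := by
        rw [Nat.card_Icc]
        exact_mod_cast (by omega : T + 1 - 2 ≤ T)
      have h3 : (((Fintype.piFinset fun _ : Fin (k + 1) => Finset.Icc 2 T).filter fun t => Bk (k + 1) V t).card : ℝ) ≤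
          ((Finset.Icc 2 T ×ˢ bad₁).card : ℝ) + (((Fintype.piFinset fun _ : Fin k => Finset.Icc 2 T).sigma bad₂).card : ℝ) := by
        exact_mod_cast (Finset.card_le_card hsub).trans ((Finset.card_union_le _ _).trans
          (add_le_add Finset.card_image_le Finset.card_image_le))
      refine h3.trans (add_le_add ?_ ?_)
      · rw [Finset.card_product]
        push_cast
        exact mul_le_mul hIcc (h₁ V hV hVD T hT) (by positivity) (by positivity)
      · rw [Finset.card_sigma]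
        push_cast
        have h4 : ∀ t ∈ Fintype.piFinset (fun _ : Fin k => Finset.Icc 2 T), ((bad₂ t).card : ℝ) ≤ C₂ * (T : ℝ) ^ (1 - c₂) := by
          intro t _
          obtain ⟨hs1, hs2⟩ := hExt k V t hV
          exact h₂ (fun n => B1 (Ext k V t) n) (hME _ hs1 (hs2.trans (Nat.mul_le_mul_right _ hVD))) T hT
        refine (Finset.sum_le_card_nsmul _ _ _ h4).trans ?_
        rw [nsmul_eq_mul, Fintype.card_piFinset]
        simp only [Finset.prod_const, Finset.card_univ, Fintype.card_fin]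
        push_cast
        refine mul_le_mul_of_nonneg_right ?_ (by positivity)
        exact pow_le_pow_left₀ (by positivity) hIcc _
    refine hcard.trans ?_
    have e1 : (T : ℝ) * (C₁ * (T : ℝ) ^ ((k : ℝ) - c₁)) = C₁ * (T : ℝ) ^ (((k + 1 : ℕ) : ℝ) - c₁) := by
      have : (((k + 1 : ℕ) : ℝ) - c₁) = 1 + ((k : ℝ) - c₁) := by push_cast; ring
      rw [this, Real.rpow_add hT0, Real.rpow_one]
      ring
    have e2 : (T : ℝ) ^ k * (C₂ * (T : ℝ) ^ (1 - c₂)) = C₂ * (T : ℝ) ^ (((k + 1 : ℕ) : ℝ) - c₂) := by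
      have : (((k + 1 : ℕ) : ℝ) - c₂) = (k : ℝ) + (1 - c₂) := by push_cast; ring
      rw [this, Real.rpow_add hT0, Real.rpow_natCast]
      ring
    rw [e1, e2, add_mul]
    refine add_le_add (mul_le_mul_of_nonneg_left ?_ hC₁) (mul_le_mul_of_nonneg_left ?_ hC₂)
    · exact Real.rpow_le_rpow_of_exponent_le hT1 (by linarith [min_le_left c₁ c₂])
    · exact Real.rpow_le_rpow_of_exponent_le hT1 (by linarith [min_le_right c₁ c₂])

end Pool.Agent.Y113.GG
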