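import Pool.Agent.Y113.GG.Main

/-!
# Project GG: windows `[N, N + N^c]`
-/

set_option autoImplicit false

namespace Pool.Agent.Y113.GG

open Pool.Agent.Y118.HG

/-- from windows of length `H` with `(H + 2)^E ≤ t` to windows `[N, N + N^c]` -/
lemma conv (k G₀ E₀ M : ℕ) : ∃ c : ℝ, 0 < c ∧ ∀ Q : (Fin k → ℕ) → Prop,
    (∀ H t : ℕ, (H + 2) ^ E₀ ≤ t → ∃ S : Finset ℕ, S.card ≤ M ∧ ∀ g : Fin k → ℕ, SepN G₀ g →
      (∀ l, g l ≤ H ∧ g l ∉ S) → Q (fun l => t - g l)) →
    ∀ N : ℕ, 1 ≤ N → ∃ S : Finset ℕ, S.card ≤ M + 3 ∧ ∀ m : Fin k → ℕ, SepN G₀ m →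
      (∀ i, N ≤ m i ∧ (m i : ℝ) ≤ N + (N : ℝ) ^ c ∧ m i ∉ S) → Q m := by
  set F := E₀ + 1 with hF
  have hF1 : (1 : ℝ) ≤ F := by rw [hF]; push_cast; linarith [show (0 : ℝ) ≤ E₀ by positivity]
  set c : ℝ := 1 / (2 * F) with hc
  have hc0 : 0 < c := by positivity
  refine ⟨c, hc0, fun Q h n hn => ?_⟩
  have hn1 : (1 : ℝ) ≤ n := by exact_mod_cast hn
  have hn0 : (0 : ℝ) < n := by linarith
  have hnc1 : 1 ≤ (n : ℝ) ^ c := Real.one_le_rpow hn1 hc0.le
  set H := ⌊(n : ℝ) ^ c⌋₊ with hH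
  have hHle : (H : ℝ) ≤ (n : ℝ) ^ c := Nat.floor_le (by positivity)
  have hHlt : (n : ℝ) ^ c < H + 1 := Nat.lt_floor_add_one _
  have hcF : ((n : ℝ) ^ c) ^ F = (n : ℝ) ^ (1 / 2 : ℝ) := by
    rw [← Real.rpow_natCast, ← Real.rpow_mul hn0.le, hc]
    congr 1
    field_simp
  have hle : ∀ m : ℕ, (m : ℝ) ≤ n + (n : ℝ) ^ c → m ≤ n + H := by
    intro m hm
    have h1 : (m : ℝ) < (n + H : ℕ) + 1 := by push_cast; linarith
    have h2 : m < n + H + 1 := by exact_mod_cast h1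
    omega
  by_cases hbig : 9 ^ F ≤ n
  · -- large windows
    have h1 : (H + 2) ^ E₀ ≤ n + H := by
      have h2 : ((H : ℝ) + 2) ^ F ≤ n := by
        have h3 : (H : ℝ) + 2 ≤ 3 * (n : ℝ) ^ c := by linarith
        calc ((H : ℝ) + 2) ^ F ≤ (3 * (n : ℝ) ^ c) ^ F := pow_le_pow_left₀ (by positivity) h3 _
          _ = 3 ^ F * (n : ℝ) ^ (1 / 2 : ℝ) := by rw [mul_pow, hcF]
          _ ≤ (n : ℝ) ^ (1 / 2 : ℝ) * (n : ℝ) ^ (1 / 2 : ℝ) := by
              refine mul_le_mul_of_nonneg_right ?_ (by positivity)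
              have h4 : ((9 : ℝ) ^ F) ≤ n := by exact_mod_cast hbig
              have h5 : (3 : ℝ) ^ F = ((9 : ℝ) ^ F) ^ (1 / 2 : ℝ) := by
                rw [show (9 : ℝ) = 3 ^ (2 : ℕ) by norm_num, ← pow_mul, mul_comm, pow_mul, ← Real.sqrt_eq_rpow,
                  Real.sqrt_sq (by positivity)]
              rw [h5]
              exact Real.rpow_le_rpow (by positivity) h4 (by norm_num)
          _ = n := by
              rw [← Real.rpow_add hn0]
              norm_num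
      have h3 : (H + 2) ^ F ≤ n := by exact_mod_cast h2
      calc (H + 2) ^ E₀ ≤ (H + 2) ^ F := Nat.pow_le_pow_right (by omega) (by omega)
        _ ≤ n := h3
        _ ≤ n + H := Nat.le_add_right _ _
    obtain ⟨S, hS, hS'⟩ := h H (n + H) h1
    refine ⟨S.image fun g => n + H - g, (Finset.card_image_le.trans hS).trans (by omega), fun t ht hti => ?_⟩
    have hti' : ∀ i, n + H - (n + H - t i) = t i := fun i => by
      have := hle (t i) (hti i).2.1
      omega
    have hQ := hS' (fun i => n + H - t i) ?_ ?_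
    · have e : (fun i => n + H - (n + H - t i)) = t := funext hti'
      rw [e] at hQ
      exact hQ
    · intro i j hij
      have h2 := ht i j hij
      have h3 := hle (t i) (hti i).2.1
      have h4 := hle (t j) (hti j).2.1
      simp only
      have h5 : ((n + H - t i : ℕ) : ℤ) - ((n + H - t j : ℕ) : ℤ) = (t j : ℤ) - t i := by omega
      rw [h5, abs_sub_comm]
      exact h2
    · intro i
      refine ⟨by have := (hti i).1; omega, fun hi => (hti i).2.2 ?_⟩
      exact Finset.mem_image.2 ⟨_, hi, hti' i⟩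
  · -- small windows
    push Not at hbig
    have hsmall : (n : ℝ) ^ c < 3 := by
      have h1 : (n : ℝ) < 9 ^ F := by exact_mod_cast hbig
      calc (n : ℝ) ^ c < ((9 : ℝ) ^ F) ^ c := Real.rpow_lt_rpow hn0.le h1 hc0
        _ = 3 := by
            rw [← Real.rpow_natCast, ← Real.rpow_mul (by norm_num), hc]
            have : (F : ℝ) * (1 / (2 * F)) = 1 / 2 := by field_simp
            rw [this, ← Real.sqrt_eq_rpow, show (9 : ℝ) = 3 ^ (2 : ℕ) by norm_num, Real.sqrt_sq (by norm_num)]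
    have hH3 : H ≤ 2 := by
      have : (H : ℝ) < 3 := by linarith
      have : H < 3 := by exact_mod_cast this
      omega
    refine ⟨Finset.Icc n (n + H), by rw [Nat.card_Icc]; omega, fun t _ hti => ?_⟩
    rcases Nat.eq_zero_or_pos k with rfl | hk
    · obtain ⟨S, -, hS⟩ := h 0 (2 ^ E₀) (by simp)
      have h3 := hS (fun _ => 0) (fun l => l.elim0) (fun l => l.elim0)
      have h4 : (fun _ : Fin 0 => 2 ^ E₀ - 0) = t := funext fun l => l.elim0
      rw [h4] at h3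
      exact h3
    · exact absurd (Finset.mem_Icc.2 ⟨(hti ⟨0, hk⟩).1, hle _ (hti ⟨0, hk⟩).2.1⟩) (hti ⟨0, hk⟩).2.2

end Pool.Agent.Y113.GG
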