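import Pool.Agent.Y113.Defs2

/-!
# Project GG: general matrices of G-functions. Definitions and statements of the tasks
-/

set_option autoImplicit false

open PowerSeries

namespace Pool.Agent.Y113.GG

/-- `f(1/t)` is analytic at all complex numbers `t` at distance `> R` from all points of `Γ`, and at infinity -/
def Out (Γ : Finset ℕ) (R : ℝ) (f : ℚ⟦X⟧) : Prop :=
  ∃ φ : ℂ → ℂ, (∀ t : ℂ, (∀ g ∈ Γ, R < ‖t - (g : ℂ)‖) → AnalyticAt ℂ φ t) ∧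
    ∃ L : ℝ, ∀ t : ℂ, L < ‖t‖ → HasSum (fun m : ℕ => ((coeff m f : ℚ) : ℂ) * (1 / t) ^ m) (φ t)

/-- meromorphic functions outside two disjoint families of discs which agree near infinity are rational -/
def T_rat : Prop := ∀ (Γ₁ Γ₂ : Finset ℕ) (R : ℝ) (a₁ b₁ a₂ b₂ : ℚ⟦X⟧), 0 < R →
  (∀ g ∈ Γ₁, ∀ h ∈ Γ₂, 2 * R < |(g : ℝ) - h|) →
  Out Γ₁ R a₁ → Out Γ₁ R b₁ → Out Γ₂ R a₂ → Out Γ₂ R b₂ → b₁ ≠ 0 → b₂ ≠ 0 → a₁ * b₂ = a₂ * b₁ →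
  ∃ p q : Polynomial ℚ, q ≠ 0 ∧ (q : ℚ⟦X⟧) * a₂ = (p : ℚ⟦X⟧) * b₂

/-- linear disjointness -/
def T_ind : Prop := ∀ (ι κ μ : Type) [Fintype ι] [Fintype κ] [Fintype μ] [DecidableEq ι] (O₁ O₂ : Subalgebra ℚ ℚ⟦X⟧)
  (G : ι → ℚ⟦X⟧) (γ : ι → ℚ) (Y W : Matrix ι ι ℚ⟦X⟧) (T : Polynomial ℚ) (A : ι → ι → Polynomial ℚ) (e : κ → ι)
  (F : μ → ℚ⟦X⟧) (T' : Polynomial ℚ) (B : μ → μ → Polynomial ℚ) (v : ℚ⟦X⟧),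
  (∀ a₁ ∈ O₁, ∀ b₁ ∈ O₁, ∀ a₂ ∈ O₂, ∀ b₂ ∈ O₂, b₁ ≠ 0 → b₂ ≠ 0 → a₁ * b₂ = a₂ * b₁ →
    ∃ p q : Polynomial ℚ, q ≠ 0 ∧ (q : ℚ⟦X⟧) * a₂ = (p : ℚ⟦X⟧) * b₂) →
  W * Y = 1 → (∀ i j, W i j ∈ O₁) → (∀ i, G i = ∑ j, PowerSeries.C (γ j) * Y j i) →
  T ≠ 0 → (∀ i j, (T : ℚ⟦X⟧) * d⁄dX ℚ (Y i j) = ∑ k, Y i k * (A k j : ℚ⟦X⟧)) →
  (∀ a, F a ∈ O₂) → T' ≠ 0 → (∀ a, (T' : ℚ⟦X⟧) * d⁄dX ℚ (F a) = ∑ b, (B a b : ℚ⟦X⟧) * F b) →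
  v ≠ 0 → v ∈ O₂ → v * X ∈ O₂ →
  LinearIndependent (Polynomial ℚ) (fun k => G (e k)) → LinearIndependent (Polynomial ℚ) F →
  LinearIndependent (Polynomial ℚ) (fun p : κ × μ => G (e p.1) * F p.2)

end Pool.Agent.Y113.GG
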