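import Pool.Agent.Y37.GF.Ode
import Pool.Agent.Y37.GF.Ev
import Pool.Agent.Y113.GG.Defs
import Pool.Agent.Y113.P.SD

/-!
# Project GG: complex values of power series, series which are analytic outside discs
-/

set_option autoImplicit false

open PowerSeries

namespace Pool.Agent.Y113.GG

open Pool.Agent.Y37.GF (SR E ph ph_eq)

/-- the value at a complex number -/
noncomputable def Ec (f : ℚ⟦X⟧) (z : ℂ) : ℂ := ∑' m : ℕ, ((coeff m f : ℚ) : ℂ) * z ^ m

variable {r : ℝ} {f g : ℚ⟦X⟧} {z : ℂ}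

lemma norm_rat (a : ℚ) : ‖(a : ℂ)‖ = |(a : ℝ)| := by
  have : (a : ℂ) = ((a : ℝ) : ℂ) := by push_cast; rfl
  rw [this, Complex.norm_real, Real.norm_eq_abs]

lemma nsumm (h : SR r f) (hz : ‖z‖ ≤ r) : Summable fun m : ℕ => ‖((coeff m f : ℚ) : ℂ) * z ^ m‖ := by
  refine Summable.of_nonneg_of_le (fun _ => norm_nonneg _) (fun m => ?_) h
  rw [norm_mul, norm_pow, norm_rat]
  gcongr

lemma hasSum_Ec (h : SR r f) (hz : ‖z‖ ≤ r) : HasSum (fun m : ℕ => ((coeff m f : ℚ) : ℂ) * z ^ m) (Ec f z) :=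
  (nsumm h hz).of_norm.hasSum

lemma Ec_mul (hf : SR r f) (hg : SR r g) (hz : ‖z‖ ≤ r) : Ec (f * g) z = Ec f z * Ec g z := by
  have h3 := tsum_mul_tsum_eq_tsum_sum_antidiagonal_of_summable_norm (nsumm hf hz) (nsumm hg hz)
  unfold Ec
  rw [h3]
  congr 1
  ext m
  rw [coeff_mul]; push_cast
  rw [Finset.sum_mul]
  refine Finset.sum_congr rfl fun p hp => ?_
  rw [← Finset.HasAntidiagonal.mem_antidiagonal.1 hp, pow_add]
  ring

lemma Ec_one (z : ℂ) : Ec (1 : ℚ⟦X⟧) z = 1 := by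
  unfold Ec
  rw [tsum_eq_single 0]
  · simp
  · intro m hm
    rw [coeff_one, if_neg hm]; simp

lemma Ec_pow (hr : 0 ≤ r) (h : SR r f) (hz : ‖z‖ ≤ r) (n : ℕ) : Ec (f ^ n) z = Ec f z ^ n := by
  induction n with
  | zero => simp [Ec_one]
  | succ n ih => rw [pow_succ, Ec_mul (h.pow hr n) h hz, ih, pow_succ]

lemma Ec_subst {σ : ℚ⟦X⟧} (hσ : HasSubst σ) (hσ0 : ∀ m, 0 ≤ coeff m σ) {ρ : ℝ} (hr : 0 ≤ r)
    (h1 : SR r σ) (h2 : E σ r ≤ ρ) (hf : SR ρ f) (hz : ‖z‖ ≤ r) : Ec (f.subst σ) z = Ec f (Ec σ z) := by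
  have hE0 : 0 ≤ E σ r := tsum_nonneg fun m => by
    have := hσ0 m
    have : (0 : ℝ) ≤ ((coeff m σ : ℚ) : ℝ) := by exact_mod_cast this
    positivity
  have hpow : ∀ d m, 0 ≤ coeff m (σ ^ d) := by
    intro d
    induction d with
    | zero => intro m; rw [pow_zero, coeff_one]; split_ifs <;> norm_num
    | succ d ih =>
      intro m
      rw [pow_succ, coeff_mul]
      exact Finset.sum_nonneg fun p _ => mul_nonneg (ih _) (hσ0 _)
  have hrr : |r| ≤ r := by rw [abs_of_nonneg hr]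
  have hEd : ∀ d, HasSum (fun m => ((coeff m (σ ^ d) : ℚ) : ℝ) * r ^ m) (E σ r ^ d) := by
    intro d
    rw [← Pool.Agent.Y37.GF.E_pow hr h1 hrr d]
    exact (h1.pow hr d).hasSum hrr
  have hEc : ∀ d, HasSum (fun m => ((coeff m (σ ^ d) : ℚ) : ℂ) * z ^ m) (Ec σ z ^ d) := by
    intro d
    rw [← Ec_pow hr h1 hz d]
    exact hasSum_Ec (h1.pow hr d) hz
  have hf' := hf.mono hE0 h2
  have hA : ∀ d m, (0 : ℝ) ≤ ((coeff m (σ ^ d) : ℚ) : ℝ) := fun d m => by exact_mod_cast hpow d m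
  -- summability
  have hS := Pool.Agent.Y37.GF.dbl (b := fun d => ((coeff d f : ℚ) : ℝ))
    (A := fun d m => ((coeff m (σ ^ d) : ℚ) : ℝ)) hA hr hE0 hEd hf' (z := ‖z‖) (by rwa [abs_norm])
  have hS' : Summable fun p : ℕ × ℕ => ((coeff p.1 f : ℚ) : ℂ) * (((coeff p.2 (σ ^ p.1) : ℚ) : ℂ) * z ^ p.2) := by
    refine Summable.of_norm (hS.congr fun p => ?_)
    rw [norm_mul, norm_mul, norm_mul, norm_mul, norm_rat, norm_rat, norm_pow, norm_pow, norm_norm,
      Real.norm_eq_abs, Real.norm_eq_abs]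
  have h5 : (∑' m, ∑' d, ((coeff d f : ℚ) : ℂ) * (((coeff m (σ ^ d) : ℚ) : ℂ) * z ^ m)) =
      ∑' d, ∑' m, ((coeff d f : ℚ) : ℂ) * (((coeff m (σ ^ d) : ℚ) : ℂ) * z ^ m) :=
    Summable.tsum_comm (f := fun d m => ((coeff d f : ℚ) : ℂ) * (((coeff m (σ ^ d) : ℚ) : ℂ) * z ^ m)) hS'
  have hc : ∀ m, ((coeff m (f.subst σ) : ℚ) : ℂ)
      = ∑' d, ((coeff d f : ℚ) : ℂ) * ((coeff m (σ ^ d) : ℚ) : ℂ) := by
    intro m
    have hfs := coeff_subst_finite' hσ f m
    rw [coeff_subst' hσ, finsum_eq_sum _ hfs]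
    push_cast
    rw [tsum_eq_sum (s := hfs.toFinset)]
    · refine Finset.sum_congr rfl fun d _ => ?_
      rw [smul_eq_mul]; push_cast; ring
    · intro d hd
      have hd' : ¬ (d ∈ Function.support fun d => coeff d f • coeff m (σ ^ d)) := fun h =>
        hd ((Set.Finite.mem_toFinset _).2 h)
      rw [Function.mem_support, not_not, smul_eq_mul] at hd'
      exact_mod_cast hd'
  have h6 : Ec f (Ec σ z) = ∑' d, ∑' m, ((coeff d f : ℚ) : ℂ) * (((coeff m (σ ^ d) : ℚ) : ℂ) * z ^ m) := by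
    unfold Ec
    congr 1
    ext d
    rw [tsum_mul_left]
    have := (hEc d).tsum_eq
    unfold Ec at this
    rw [this]
  rw [h6, ← h5]
  unfold Ec
  congr 1
  ext m
  rw [hc m, ← tsum_mul_right]
  congr 1
  ext d
  ring

/-! ### The class `Out` -/

variable {Γ : Finset ℕ} {R : ℝ}

lemma Out.add (hf : Out Γ R f) (hg : Out Γ R g) : Out Γ R (f + g) := by
  obtain ⟨φ, h1, L, h2⟩ := hf
  obtain ⟨ψ, h3, M, h4⟩ := hg
  refine ⟨fun t => φ t + ψ t, fun t ht => (h1 t ht).add (h3 t ht), max L M, fun t ht => ?_⟩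
  have := (h2 t ((le_max_left _ _).trans_lt ht)).add (h4 t ((le_max_right _ _).trans_lt ht))
  have e : (fun m : ℕ => ((coeff m (f + g) : ℚ) : ℂ) * (1 / t) ^ m) =
      fun m => ((coeff m f : ℚ) : ℂ) * (1 / t) ^ m + ((coeff m g : ℚ) : ℂ) * (1 / t) ^ m := by
    ext m; rw [map_add]; push_cast; ring
  rw [e]
  exact this

lemma Out.mul (hf : Out Γ R f) (hg : Out Γ R g) : Out Γ R (f * g) := by
  obtain ⟨φ, h1, L, h2⟩ := hf
  obtain ⟨ψ, h3, M, h4⟩ := hg
  refine ⟨fun t => φ t * ψ t, fun t ht => (h1 t ht).mul (h3 t ht), max L M, fun t ht => ?_⟩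
  have s1 := h2 t ((le_max_left _ _).trans_lt ht)
  have s2 := h4 t ((le_max_right _ _).trans_lt ht)
  have n1 := s1.summable.norm
  have n2 := s2.summable.norm
  have h5 := tsum_mul_tsum_eq_tsum_sum_antidiagonal_of_summable_norm n1 n2
  have h6 := (summable_norm_sum_mul_antidiagonal_of_summable_norm n1 n2).of_norm.hasSum
  rw [← h5, s1.tsum_eq, s2.tsum_eq] at h6
  have e : (fun m : ℕ => ((coeff m (f * g) : ℚ) : ℂ) * (1 / t) ^ m) =
      fun m => ∑ kl ∈ Finset.HasAntidiagonal.antidiagonal m,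
        ((coeff kl.1 f : ℚ) : ℂ) * (1 / t) ^ kl.1 * (((coeff kl.2 g : ℚ) : ℂ) * (1 / t) ^ kl.2) := by
    ext m
    rw [coeff_mul]; push_cast
    rw [Finset.sum_mul]
    refine Finset.sum_congr rfl fun p hp => ?_
    rw [← Finset.HasAntidiagonal.mem_antidiagonal.1 hp, pow_add]
    ring
  rw [e]
  exact h6

lemma Out.const (a : ℚ) : Out Γ R (PowerSeries.C a) := by
  refine ⟨fun _ => (a : ℂ), fun t _ => analyticAt_const, 0, fun t _ => ?_⟩
  have := hasSum_single (f := fun m : ℕ => ((coeff m (PowerSeries.C a : ℚ⟦X⟧) : ℚ) : ℂ) * (1 / t) ^ m) 0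
    (fun m hm => by rw [coeff_C, if_neg hm]; simp)
  simpa using this

/-- the series which are analytic outside the discs around the points of `Γ` -/
def OA (Γ : Finset ℕ) (R : ℝ) : Subalgebra ℚ ℚ⟦X⟧ where
  carrier := {f | Out Γ R f}
  mul_mem' := fun h h' => Out.mul h h'
  add_mem' := fun h h' => Out.add h h'
  algebraMap_mem' := fun a => Out.const a

lemma mem_OA : f ∈ OA Γ R ↔ Out Γ R f := Iff.rfl

lemma Out.mono {Γ' : Finset ℕ} (h : Γ ⊆ Γ') (hf : Out Γ R f) : Out Γ' R f := by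
  obtain ⟨φ, h1, L, h2⟩ := hf
  exact ⟨φ, fun t ht => h1 t fun g hg => ht g (h hg), L, h2⟩

/-- `1 / (1 - g X)` -/
noncomputable def vg (g : ℕ) : ℚ⟦X⟧ := PowerSeries.mk fun m => (g : ℚ) ^ m

lemma vg_mul_X (g : ℕ) : vg g * X = sh g := by
  ext m
  rcases m with _ | m
  · simp [sh]
  · rw [coeff_succ_mul_X, vg, sh, coeff_mk, coeff_mk]; simp

lemma vg_ne (g : ℕ) : vg g ≠ 0 := by
  intro h
  have := congrArg (coeff 0) h
  simp [vg] at this

lemma ne_of_large {g : ℕ} {t : ℂ} (ht : (g : ℝ) < ‖t‖) : t ≠ 0 ∧ t - g ≠ 0 := by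
  constructor
  · intro h
    rw [h, norm_zero] at ht
    have : (0 : ℝ) ≤ g := Nat.cast_nonneg g
    linarith
  · intro h
    rw [sub_eq_zero.1 h, Complex.norm_natCast] at ht
    exact lt_irrefl _ ht

lemma hasSum_vg (g : ℕ) {t : ℂ} (ht : (g : ℝ) < ‖t‖) :
    HasSum (fun m : ℕ => ((coeff m (vg g) : ℚ) : ℂ) * (1 / t) ^ m) (t / (t - g)) := by
  obtain ⟨ht0, htg⟩ := ne_of_large ht
  have h1 : ‖(g : ℂ) * (1 / t)‖ < 1 := by
    rw [norm_mul, norm_div, norm_one, Complex.norm_natCast, mul_one_div, div_lt_one (norm_pos_iff.2 ht0)]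
    exact ht
  have h2 := hasSum_geometric_of_norm_lt_one h1
  have e : (1 - (g : ℂ) * (1 / t))⁻¹ = t / (t - g) := by
    field_simp
  rw [e] at h2
  have e2 : (fun m : ℕ => ((coeff m (vg g) : ℚ) : ℂ) * (1 / t) ^ m) = fun m => ((g : ℂ) * (1 / t)) ^ m := by
    ext m
    simp [vg, mul_pow]
  rw [e2]
  exact h2

lemma out_vg (g : ℕ) (hR : 0 < R) : Out {g} R (vg g) := by
  refine ⟨fun t => t / (t - g), fun t ht => ?_, g, fun t ht => hasSum_vg g ht⟩
  have h1 := ht g (Finset.mem_singleton_self g)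
  refine AnalyticAt.div (f := fun t : ℂ => t) (g := fun t : ℂ => t - (g : ℂ)) analyticAt_id
    (analyticAt_id.sub analyticAt_const) ?_
  intro h
  have h' : t - (g : ℂ) = 0 := h
  rw [h', norm_zero] at h1
  linarith

lemma hasSum_sh (g : ℕ) {t : ℂ} (ht : (g : ℝ) < ‖t‖) :
    HasSum (fun m : ℕ => ((coeff m (sh g) : ℚ) : ℂ) * (1 / t) ^ m) (1 / (t - g)) := by
  obtain ⟨ht0, htg⟩ := ne_of_large ht
  have h1 := (hasSum_vg g ht).mul_right (1 / t)
  have e : t / (t - g) * (1 / t) = 1 / (t - g) := by field_simp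
  rw [e] at h1
  rw [← hasSum_nat_add_iff' 1]
  simp only [Finset.range_one, Finset.sum_singleton]
  have e0 : ((coeff 0 (sh g) : ℚ) : ℂ) * (1 / t) ^ 0 = 0 := by simp [sh]
  rw [e0, sub_zero]
  have e2 : (fun m : ℕ => ((coeff (m + 1) (sh g) : ℚ) : ℂ) * (1 / t) ^ (m + 1)) =
      fun m => ((coeff m (vg g) : ℚ) : ℂ) * (1 / t) ^ m * (1 / t) := by
    ext m
    rw [← vg_mul_X, coeff_succ_mul_X, pow_succ]
    ring
  rw [e2]
  exact h1

lemma out_sh (g : ℕ) (hR : 0 < R) : Out {g} R (sh g) := by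
  refine ⟨fun t => 1 / (t - g), fun t ht => ?_, g, fun t ht => hasSum_sh g ht⟩
  have h1 := ht g (Finset.mem_singleton_self g)
  refine AnalyticAt.div (f := fun _ : ℂ => (1 : ℂ)) (g := fun t : ℂ => t - (g : ℂ)) analyticAt_const
    (analyticAt_id.sub analyticAt_const) ?_
  intro h
  have h' : t - (g : ℂ) = 0 := h
  rw [h', norm_zero] at h1
  linarith

/-- analyticity of the sum of a power series -/
lemma analyticAt_Ec {C : ℝ} (hC : 0 < C) (hf : ∀ m, |((coeff m f : ℚ) : ℝ)| ≤ C ^ (m + 1)) {w : ℂ} (hw : ‖w‖ < 1 / C) :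
    AnalyticAt ℂ (Ec f) w := by
  obtain ⟨ρ, hρ1, hρ2⟩ := exists_between hw
  have hρ0 : 0 ≤ ρ := (norm_nonneg w).trans hρ1.le
  have hCρ : C * ρ < 1 := by
    rw [lt_div_iff₀ hC] at hρ2
    linarith
  have hs : SR ρ f := Pool.Agent.Y37.GF.SR.of_bound (A := C) hρ0 hC.le hCρ fun m => by
    rw [← pow_succ']; exact hf m
  have hd : DifferentiableOn ℂ (Ec f) (Metric.ball 0 ρ) := by
    refine Complex.differentiableOn_tsum_of_summable_norm (u := fun m => |((coeff m f : ℚ) : ℝ)| * ρ ^ m) hs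
      (fun m => by fun_prop) Metric.isOpen_ball fun m z hz => ?_
    rw [norm_mul, norm_pow, norm_rat]
    have : ‖z‖ ≤ ρ := by
      rw [mem_ball_zero_iff] at hz
      exact hz.le
    gcongr
  exact hd.analyticAt (Metric.isOpen_ball.mem_nhds (by rwa [mem_ball_zero_iff]))

/-- the shift of a series is analytic outside a disc -/
lemma out_ph {C : ℝ} (hC : 1 ≤ C) (hf : ∀ m, |((coeff m f : ℚ) : ℝ)| ≤ C ^ (m + 1)) (hR : C ≤ R) (g : ℕ) :
    Out {g} R (ph g f) := by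
  have hC0 : 0 < C := by linarith
  refine ⟨fun t => Ec f (1 / (t - g)), fun t ht => ?_, g + C + 1, fun t ht => ?_⟩
  · have h1 := ht g (Finset.mem_singleton_self g)
    have h2 : 0 < ‖t - (g : ℂ)‖ := by linarith
    have h3 : AnalyticAt ℂ (fun t : ℂ => 1 / (t - (g : ℂ))) t := by
      refine AnalyticAt.div (f := fun _ : ℂ => (1 : ℂ)) (g := fun t : ℂ => t - (g : ℂ)) analyticAt_const
        (analyticAt_id.sub analyticAt_const) ?_
      exact norm_pos_iff.1 h2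
    refine AnalyticAt.fun_comp (analyticAt_Ec hC0 hf ?_) h3
    rw [norm_div, norm_one]
    exact one_div_lt_one_div_of_lt hC0 (by linarith)
  · have hgt : (g : ℝ) < ‖t‖ := by linarith
    have ht0 : 0 < ‖t‖ := lt_of_le_of_lt (Nat.cast_nonneg g) hgt
    set r : ℝ := 1 / ‖t‖ with hr
    have hr0 : 0 ≤ r := by positivity
    have hz : ‖1 / t‖ ≤ r := by rw [norm_div, norm_one]
    have hsh : SR r (sh g) := by
      have h1 := (hasSum_sh g hgt).summable.norm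
      refine h1.congr fun m => ?_
      rw [norm_mul, norm_pow, norm_rat, norm_div, norm_one]
    have hEsh : E (sh g) r = 1 / (‖t‖ - g) := by
      have h1 : (g : ℝ) < ‖((‖t‖ : ℝ) : ℂ)‖ := by rw [Complex.norm_real, norm_norm]; exact hgt
      have h2 := hasSum_sh g h1
      have h3 : HasSum (fun m : ℕ => (((((coeff m (sh g) : ℚ) : ℝ) * r ^ m : ℝ)) : ℂ)) ((1 / (‖t‖ - g) : ℝ) : ℂ) := by
        have e : ((1 / (‖t‖ - g) : ℝ) : ℂ) = 1 / (((‖t‖ : ℝ) : ℂ) - g) := by push_cast; rfl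
        rw [e]
        have e2 : (fun m : ℕ => (((((coeff m (sh g) : ℚ) : ℝ) * r ^ m : ℝ)) : ℂ)) =
            fun m : ℕ => ((coeff m (sh g) : ℚ) : ℂ) * (1 / ((‖t‖ : ℝ) : ℂ)) ^ m := by
          ext m
          rw [hr]
          push_cast
          rfl
        rw [e2]
        exact h2
      exact (Complex.hasSum_ofReal.1 h3).tsum_eq
    have hle : 1 / (‖t‖ - g) ≤ 1 / (C + 1) := one_div_le_one_div_of_le (by linarith) (by linarith)
    have hfC : SR (1 / (C + 1)) f := Pool.Agent.Y37.GF.SR.of_bound (A := C) (by positivity) hC0.le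
      (by rw [mul_one_div, div_lt_one (by linarith)]; linarith) fun m => by
        rw [← pow_succ']; exact hf m
    have hsub := Pool.Agent.Y37.GF.subst_main (f := f) (Pool.Agent.Y37.GF.hasSubst_sh g)
      (Pool.Agent.Y37.GF.coeff_sh_nonneg g) hr0 hsh (hEsh.le.trans hle) hfC
    have h7 := Ec_subst (f := f) (z := 1 / t) (Pool.Agent.Y37.GF.hasSubst_sh g)
      (Pool.Agent.Y37.GF.coeff_sh_nonneg g) hr0 hsh (hEsh.le.trans hle) hfC hz
    have h8 : Ec (sh g) (1 / t) = 1 / (t - g) := (hasSum_sh g hgt).tsum_eq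
    rw [h8] at h7
    show HasSum _ (Ec f (1 / (t - g)))
    rw [← h7, ph_eq]
    exact hasSum_Ec hsub.1 hz

end Pool.Agent.Y113.GG
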