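import Pool.Agent.Y113.GG.Val
import Pool.Agent.Y113.W.Count

/-!
# Project GG: relations which are specialisations of functional relations
-/

set_option autoImplicit false

open PowerSeries

namespace Pool.Agent.Y113.GG

open Pool.Agent.Y113 Pool.Agent.Y37.GF Pool.Agent.Y118.HG

variable {n : ℕ}

/-- the values of the basis words are linearly independent over `V` -/
def Nd {Z : Fin n → Fin n → ℚ⟦X⟧} {δ : ℕ} (b : Bas Z δ) {k : ℕ} (V : Submodule ℚ ℂ) (m : Fin k → ℕ) : Prop :=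
  ∀ c : (Fin k → b.s) → ℂ, (∀ e, c e ∈ V) →
    ∑ e, c e * ∏ l, wv (zv Z (m l)) (e l : Fin δ → Option (Fin n × Fin n)) = 0 → c = 0

section expand

variable {σ : Type} [Fintype σ] {k δ : ℕ}

/-- the words of the monomials of a polynomial -/
lemma exists_H (P : MvPolynomial (Fin k × σ) ℂ) (hP : P.totalDegree ≤ δ) :
    ∃ H : ((Fin k × σ) →₀ ℕ) → Fin k → Fin δ → Option σ, ∀ μ ∈ P.support, ∀ l, ∀ (M : Type) [CommMonoid M] (z : σ → M),
      wv z (H μ l) = ∏ i, z i ^ μ (l, i) := by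
  classical
  have h : ∀ (μ : (Fin k × σ) →₀ ℕ) (l : Fin k), ∃ h : Fin δ → Option σ,
      μ ∈ P.support → ∀ (M : Type) [CommMonoid M] (z : σ → M), wv z h = ∏ i, z i ^ μ (l, i) := by
    intro μ l
    by_cases hμ : μ ∈ P.support
    · have h1 := (MvPolynomial.le_totalDegree hμ).trans hP
      rw [Finsupp.sum_fintype _ _ (fun _ => rfl), Fintype.sum_prod_type] at h1
      have h2 : ∑ i, μ (l, i) ≤ ∑ l, ∑ i, μ (l, i) :=
        Finset.single_le_sum (f := fun l => ∑ i, μ (l, i)) (fun _ _ => Nat.zero_le _) (Finset.mem_univ l)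
      obtain ⟨h, hh⟩ := exists_wv δ (fun i => μ (l, i)) (h2.trans h1)
      exact ⟨h, fun _ => hh⟩
    · exact ⟨fun _ => none, fun h => absurd h hμ⟩
  choose H hH using h
  exact ⟨H, fun μ hμ l => hH μ l hμ⟩

lemma aeval_words {P : MvPolynomial (Fin k × σ) ℂ} {H : ((Fin k × σ) →₀ ℕ) → Fin k → Fin δ → Option σ}
    (hH : ∀ μ ∈ P.support, ∀ l, ∀ (M : Type) [CommMonoid M] (z : σ → M), wv z (H μ l) = ∏ i, z i ^ μ (l, i))
    {R : Type} [CommRing R] [Algebra ℂ R] (y : Fin k × σ → R) :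
    MvPolynomial.aeval y P = ∑ μ ∈ P.support, algebraMap ℂ R (P.coeff μ) * ∏ l, wv (fun i => y (l, i)) (H μ l) := by
  rw [MvPolynomial.aeval_def, MvPolynomial.eval₂_eq']
  refine Finset.sum_congr rfl fun μ hμ => ?_
  rw [Fintype.prod_prod_type]
  congr 1
  refine Finset.prod_congr rfl fun l _ => ?_
  rw [hH μ hμ l]

end expand

section main

variable {Z : Fin n → Fin n → ℚ⟦X⟧} {δ k : ℕ} (b : Bas Z δ) (P : MvPolynomial (Fin k × (Fin n × Fin n)) ℂ)
  (H : ((Fin k × (Fin n × Fin n)) →₀ ℕ) → Fin k → Fin δ → Option (Fin n × Fin n))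

/-- the functional relation -/
noncomputable def F0 : MvPolynomial (Fin k ⊕ (Fin k × (Fin n × Fin n))) ℂ :=
  ∑ μ ∈ P.support, MvPolynomial.C (P.coeff μ) *
    ((∏ l, (Polynomial.aeval (MvPolynomial.X (Sum.inl l)) b.D * wv (fun i => MvPolynomial.X (Sum.inr (l, i))) (H μ l))) -
      ∏ l, ∑ j : b.s, Polynomial.aeval (MvPolynomial.X (Sum.inl l)) (b.N (H μ l) j) *
        wv (fun i => MvPolynomial.X (Sum.inr (l, i))) (j : Fin δ → Option (Fin n × Fin n)))

lemma aeval_F0 {R : Type} [CommRing R] [Algebra ℂ R] (u : Fin k → R) (y : Fin k × (Fin n × Fin n) → R) :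
    MvPolynomial.aeval (Sum.elim u y) (F0 b P H) = ∑ μ ∈ P.support, algebraMap ℂ R (P.coeff μ) *
      ((∏ l, (Polynomial.aeval (u l) b.D * wv (fun i => y (l, i)) (H μ l))) -
        ∏ l, ∑ j : b.s, Polynomial.aeval (u l) (b.N (H μ l) j) *
          wv (fun i => y (l, i)) (j : Fin δ → Option (Fin n × Fin n))) := by
  have hp : ∀ (Q : Polynomial ℤ) (l : Fin k), MvPolynomial.aeval (Sum.elim u y)
      (Polynomial.aeval (MvPolynomial.X (Sum.inl l) : MvPolynomial (Fin k ⊕ (Fin k × (Fin n × Fin n))) ℂ) Q) =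
      Polynomial.aeval (u l) Q := by
    intro Q l
    have h1 := Polynomial.aeval_algHom_apply
      ((MvPolynomial.aeval (Sum.elim u y) : MvPolynomial (Fin k ⊕ (Fin k × (Fin n × Fin n))) ℂ →ₐ[ℂ] R).toRingHom.toIntAlgHom)
      (MvPolynomial.X (Sum.inl l)) Q
    have h2 : ((MvPolynomial.aeval (Sum.elim u y) : MvPolynomial (Fin k ⊕ (Fin k × (Fin n × Fin n))) ℂ →ₐ[ℂ] R).toRingHom.toIntAlgHom)
        (MvPolynomial.X (Sum.inl l)) = u l := by simp
    rw [h2] at h1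
    exact h1.symm
  have hw : ∀ (h : Fin δ → Option (Fin n × Fin n)) (l : Fin k), MvPolynomial.aeval (Sum.elim u y)
      (wv (fun i => (MvPolynomial.X (Sum.inr (l, i)) : MvPolynomial (Fin k ⊕ (Fin k × (Fin n × Fin n))) ℂ)) h) =
      wv (fun i => y (l, i)) h := by
    intro h l
    rw [map_wv]
    simp
  unfold F0
  rw [map_sum]
  refine Finset.sum_congr rfl fun μ _ => ?_
  rw [map_mul, MvPolynomial.aeval_C, map_sub, map_prod, map_prod]
  congr 1
  congr 1
  · refine Finset.prod_congr rfl fun l _ => ?_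
    rw [map_mul, hp, hw]
  · refine Finset.prod_congr rfl fun l _ => ?_
    rw [map_sum]
    refine Finset.sum_congr rfl fun j _ => ?_
    rw [map_mul, hp, hw]

lemma aeval_int {R : Type} [CommRing R] [Algebra ℂ R] (Q : Polynomial ℤ) (z : ℂ) :
    Polynomial.aeval (algebraMap ℂ R z) Q = algebraMap ℂ R (Polynomial.aeval z Q) :=
  Polynomial.aeval_algebraMap_apply R z Q

/-- the coefficients after the reduction -/
noncomputable def cf (z : Fin k → ℂ) (e : Fin k → b.s) : ℂ := ∑ μ ∈ P.support, P.coeff μ *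
    ∏ l, Polynomial.aeval (z l) (b.N (H μ l) (e l))

lemma spec_gen (hH : ∀ μ ∈ P.support, ∀ l, ∀ (M : Type) [CommMonoid M] (z : Fin n × Fin n → M),
      wv z (H μ l) = ∏ i, z i ^ μ (l, i)) {R : Type} [CommRing R] [Algebra ℂ R] (z : Fin k → ℂ)
    (y : Fin k × (Fin n × Fin n) → R) :
    MvPolynomial.aeval (Sum.elim (fun l => algebraMap ℂ R (z l)) y) (F0 b P H) =
      algebraMap ℂ R (∏ l, Polynomial.aeval (z l) b.D) * MvPolynomial.aeval y P -
        ∑ e, algebraMap ℂ R (cf b P H z e) * ∏ l, wv (fun i => y (l, i)) (e l : Fin δ → Option (Fin n × Fin n)) := by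
  classical
  rw [aeval_F0, Finset.sum_congr rfl fun μ _ => mul_sub _ _ _, Finset.sum_sub_distrib]
  congr 1
  · rw [aeval_words hH y, Finset.mul_sum]
    refine Finset.sum_congr rfl fun μ _ => ?_
    rw [Finset.prod_mul_distrib, map_prod, Finset.prod_congr rfl fun l _ => aeval_int b.D (z l)]
    ring
  · have h1 : ∀ μ ∈ P.support, algebraMap ℂ R (P.coeff μ) *
        ∏ l, ∑ j : b.s, Polynomial.aeval (algebraMap ℂ R (z l)) (b.N (H μ l) j) *
          wv (fun i => y (l, i)) (j : Fin δ → Option (Fin n × Fin n)) =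
        ∑ e : Fin k → b.s, algebraMap ℂ R (P.coeff μ * ∏ l, Polynomial.aeval (z l)
          (b.N (H μ l) (e l))) * ∏ l, wv (fun i => y (l, i)) (e l : Fin δ → Option (Fin n × Fin n)) := by
      intro μ _
      rw [prod_sum_fn (fun (l : Fin k) (j : b.s) => Polynomial.aeval (algebraMap ℂ R (z l))
        (b.N (H μ l) j) * wv (fun i => y (l, i)) (j : Fin δ → Option (Fin n × Fin n))), Finset.mul_sum]
      refine Finset.sum_congr rfl fun e _ => ?_
      rw [Finset.prod_mul_distrib, map_mul, map_prod,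
        Finset.prod_congr rfl fun l _ => aeval_int (b.N (H μ l) (e l)) (z l)]
      ring
    rw [Finset.sum_congr rfl h1, Finset.sum_comm]
    refine Finset.sum_congr rfl fun e _ => ?_
    unfold cf
    rw [map_sum, Finset.sum_mul]

/-- **Specialisation**, for the functions `Z` -/
theorem spec {C : ℝ} (hC : 1 ≤ C) (hZ : ∀ i j m, |((coeff m (Z i j) : ℚ) : ℝ)| ≤ C ^ (m + 1)) {V : Submodule ℚ ℂ}
    {m : Fin k → ℕ} (hm : ∀ l, C < m l) (hD : ∀ l, Polynomial.aeval (1 / (m l : ℝ)) b.D ≠ 0) (hN : Nd b V m)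
    (hPd : P.totalDegree ≤ δ) (hPc : ∀ s, P.coeff s ∈ V)
    (hP : MvPolynomial.aeval (fun p : Fin k × (Fin n × Fin n) => zv Z (m p.1) p.2) P = 0) :
    ∃ F : MvPolynomial (Fin k ⊕ (Fin k × (Fin n × Fin n))) ℂ,
      (∀ x : Fin k → ℝ, (∀ l, C < x l) → MvPolynomial.aeval
        (Sum.elim (fun l => ((1 / x l : ℝ) : ℂ)) (fun p : Fin k × (Fin n × Fin n) => zv Z (x p.1) p.2)) F = 0) ∧
      MvPolynomial.aeval (Sum.elim (fun l => MvPolynomial.C ((1 / (m l : ℝ) : ℝ) : ℂ)) MvPolynomial.X) F = P := by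
  classical
  obtain ⟨H, hH⟩ := exists_H P hPd
  have hcast : ∀ (Q : Polynomial ℤ) (x : ℝ), Polynomial.aeval ((x : ℝ) : ℂ) Q = ((Polynomial.aeval x Q : ℝ) : ℂ) := by
    intro Q x
    exact Polynomial.aeval_algebraMap_apply ℂ x Q
  -- the functional relation
  have hfun : ∀ x : Fin k → ℝ, (∀ l, C < x l) → MvPolynomial.aeval
      (Sum.elim (fun l => ((1 / x l : ℝ) : ℂ)) (fun p : Fin k × (Fin n × Fin n) => zv Z (x p.1) p.2)) (F0 b P H) = 0 := by
    intro x hx
    rw [aeval_F0]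
    refine Finset.sum_eq_zero fun μ _ => ?_
    have h1 : ∀ l, Polynomial.aeval (((1 / x l : ℝ) : ℂ)) b.D * wv (fun i => zv Z (x l) i) (H μ l) =
        ∑ j : b.s, Polynomial.aeval (((1 / x l : ℝ) : ℂ)) (b.N (H μ l) j) *
          wv (fun i => zv Z (x l) i) (j : Fin δ → Option (Fin n × Fin n)) := by
      intro l
      rw [hcast]
      have := red_val hC hZ b (H μ l) (hx l)
      refine this.trans (Finset.sum_congr rfl fun j _ => ?_)
      rw [hcast]
    rw [Finset.prod_congr rfl fun l _ => h1 l, sub_self, mul_zero]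
  -- the rational factor and the coefficients
  set z : Fin k → ℂ := fun l => ((1 / (m l : ℝ) : ℝ) : ℂ) with hz
  set ρ : ℂ := ∏ l, Polynomial.aeval (z l) b.D with hρ
  have hρ0 : ρ ≠ 0 := by
    rw [hρ]
    refine Finset.prod_ne_zero_iff.2 fun l _ => ?_
    rw [hz]
    simp only
    rw [hcast]
    exact_mod_cast hD l
  have hcV : ∀ e, cf b P H z e ∈ V := by
    intro e
    refine Submodule.sum_mem _ fun μ _ => ?_
    have h1 : ∏ l, Polynomial.aeval (z l) (b.N (H μ l) (e l)) =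
        (((∏ l, Polynomial.aeval (1 / (m l : ℚ)) (b.N (H μ l) (e l)) : ℚ)) : ℂ) := by
      push_cast
      refine Finset.prod_congr rfl fun l _ => ?_
      have h2 : z l = algebraMap ℚ ℂ (1 / (m l : ℚ)) := by
        simp [hz]
      rw [h2]
      exact Polynomial.aeval_algebraMap_apply ℂ (1 / (m l : ℚ)) _
    rw [h1, mul_comm, ← Rat.smul_def]
    exact Submodule.smul_mem _ _ (hPc μ)
  -- the coefficients vanish
  have hc0 : cf b P H z = 0 := by
    refine hN _ hcV ?_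
    have h1 := spec_gen b P H hH (R := ℂ) z (fun p : Fin k × (Fin n × Fin n) => zv Z (m p.1) p.2)
    have h2 : (fun l => algebraMap ℂ ℂ (z l)) = fun l => ((1 / (m l : ℝ) : ℝ) : ℂ) := rfl
    rw [h2, hfun _ hm, hP, mul_zero, zero_sub] at h1
    exact neg_eq_zero.1 h1.symm
  have hfin := spec_gen b P H hH (R := MvPolynomial (Fin k × (Fin n × Fin n)) ℂ) z MvPolynomial.X
  rw [hc0, MvPolynomial.aeval_X_left_apply] at hfin
  simp only [Pi.zero_apply, map_zero, zero_mul, Finset.sum_const_zero, sub_zero] at hfin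
  refine ⟨MvPolynomial.C ρ⁻¹ * F0 b P H, fun x hx => by rw [map_mul, hfun x hx, mul_zero], ?_⟩
  rw [map_mul, MvPolynomial.aeval_C]
  refine (congrArg (fun y => algebraMap ℂ (MvPolynomial (Fin k × (Fin n × Fin n)) ℂ) ρ⁻¹ * y) hfin).trans ?_
  rw [← mul_assoc, ← map_mul, inv_mul_cancel₀ hρ0, map_one, one_mul]

end main

/-- the period matrix -/
noncomputable def pv (Ω : Matrix (Fin n) (Fin n) ℂ) (Z : Fin n → Fin n → ℚ⟦X⟧) (x : ℝ) (p : Fin n × Fin n) : ℂ :=
  ∑ a, Ω p.1 a * zv Z x (a, p.2)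

/-- the relation `P` of degree `≤ δ` over `V` at the points `m l` is the specialisation of a functional relation -/
def Spec (Ω : Matrix (Fin n) (Fin n) ℂ) (Z : Fin n → Fin n → ℚ⟦X⟧) (C : ℝ) (δ : ℕ) {k : ℕ} (V : Submodule ℚ ℂ)
    (m : Fin k → ℕ) : Prop :=
  ∀ P : MvPolynomial (Fin k × (Fin n × Fin n)) ℂ, P.totalDegree ≤ δ → (∀ s, P.coeff s ∈ V) →
    MvPolynomial.aeval (fun p : Fin k × (Fin n × Fin n) => pv Ω Z (m p.1) p.2) P = 0 →
    ∃ F : MvPolynomial (Fin k ⊕ (Fin k × (Fin n × Fin n))) ℂ,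
      (∀ x : Fin k → ℝ, (∀ l, C < x l) → MvPolynomial.aeval
        (Sum.elim (fun l => ((1 / x l : ℝ) : ℂ)) (fun p : Fin k × (Fin n × Fin n) => pv Ω Z (x p.1) p.2)) F = 0) ∧
      MvPolynomial.aeval (Sum.elim (fun l => MvPolynomial.C ((1 / (m l : ℝ) : ℝ) : ℂ)) MvPolynomial.X) F = P

/-- a linear form -/
noncomputable def lf {k : ℕ} {τ : Type} (Ω : Matrix (Fin n) (Fin n) ℂ) (e : Fin k × (Fin n × Fin n) → τ)
    (p : Fin k × (Fin n × Fin n)) : MvPolynomial τ ℂ :=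
  ∑ a, MvPolynomial.C (Ω p.2.1 a) * MvPolynomial.X (e (p.1, (a, p.2.2)))

lemma lf_inv {k : ℕ} {R : Type} [CommRing R] [Algebra ℂ R] {Ω Θ : Matrix (Fin n) (Fin n) ℂ} (h : Ω * Θ = 1)
    (y : Fin k × (Fin n × Fin n) → R) (p : Fin k × (Fin n × Fin n)) :
    ∑ a, algebraMap ℂ R (Ω p.2.1 a) * ∑ c, algebraMap ℂ R (Θ a c) * y (p.1, (c, p.2.2)) = y p := by
  have h1 : ∀ c, ∑ a, Ω p.2.1 a * Θ a c = (1 : Matrix (Fin n) (Fin n) ℂ) p.2.1 c := by
    intro c
    rw [← h, Matrix.mul_apply]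
  simp only [Finset.mul_sum]
  rw [Finset.sum_comm]
  have h2 : ∀ c, ∑ a, algebraMap ℂ R (Ω p.2.1 a) * (algebraMap ℂ R (Θ a c) * y (p.1, (c, p.2.2))) =
      algebraMap ℂ R ((1 : Matrix (Fin n) (Fin n) ℂ) p.2.1 c) * y (p.1, (c, p.2.2)) := by
    intro c
    rw [← h1 c, map_sum, Finset.sum_mul]
    refine Finset.sum_congr rfl fun a _ => ?_
    rw [map_mul, mul_assoc]
  rw [Finset.sum_congr rfl fun c _ => h2 c, Finset.sum_eq_single p.2.1]
  · rw [Matrix.one_apply_eq, map_one, one_mul]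
  · intro c _ hc
    rw [Matrix.one_apply_ne (Ne.symm hc), map_zero, zero_mul]
  · intro hh
    exact absurd (Finset.mem_univ _) hh

lemma dc_lf {k : ℕ} (Ω : Matrix (Fin n) (Fin n) ℂ) (p : Fin k × (Fin n × Fin n)) :
    DC 1 (sp (fun q : Fin n × Fin n => Ω q.1 q.2)) (lf Ω id p) := by
  classical
  unfold lf
  refine DC.sum _ fun a _ => ?_
  have h1 : DC 0 (sp (fun q : Fin n × Fin n => Ω q.1 q.2))
      (MvPolynomial.C (Ω p.2.1 a) : MvPolynomial (Fin k × (Fin n × Fin n)) ℂ) := by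
    refine ⟨by simp, fun s => ?_⟩
    rw [MvPolynomial.coeff_C]
    split_ifs
    · exact sp_mem (fun q : Fin n × Fin n => Ω q.1 q.2) (p.2.1, a)
    · exact Submodule.zero_mem _
  refine ⟨?_, fun s => ?_⟩
  · refine (MvPolynomial.totalDegree_mul _ _).trans ?_
    rw [MvPolynomial.totalDegree_C, zero_add, MvPolynomial.totalDegree_X]
  · rw [MvPolynomial.coeff_C_mul, MvPolynomial.coeff_X]
    split_ifs
    · rw [mul_one]
      exact sp_mem (fun q : Fin n × Fin n => Ω q.1 q.2) (p.2.1, a)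
    · rw [mul_zero]
      exact Submodule.zero_mem _

/-- **Specialisation**, for the period matrix -/
theorem spec_pv {Z : Fin n → Fin n → ℚ⟦X⟧} {δ k : ℕ} (b : Bas Z δ) {Ω Θ : Matrix (Fin n) (Fin n) ℂ} (h1 : Ω * Θ = 1)
    (h2 : Θ * Ω = 1) {C : ℝ} (hC : 1 ≤ C) (hZ : ∀ i j m, |((coeff m (Z i j) : ℚ) : ℝ)| ≤ C ^ (m + 1))
    {V : Submodule ℚ ℂ} {m : Fin k → ℕ} (hm : ∀ l, C < m l) (hD : ∀ l, Polynomial.aeval (1 / (m l : ℝ)) b.D ≠ 0)
    (hN : Nd b (V * (sp (fun q : Fin n × Fin n => Ω q.1 q.2)) ^ δ) m) : Spec Ω Z C δ V m := by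
  classical
  intro P hPd hPc hP
  set Q : MvPolynomial (Fin k × (Fin n × Fin n)) ℂ := MvPolynomial.aeval (lf Ω id) P with hQ
  have hQD := DC.subst' (sp_one (fun q : Fin n × Fin n => Ω q.1 q.2)) (lf Ω id) (dc_lf Ω) (P := P) (m := δ) (V := V) ⟨hPd, hPc⟩
  have hQ0 : MvPolynomial.aeval (fun p : Fin k × (Fin n × Fin n) => zv Z (m p.1) p.2) Q = 0 := by
    rw [hQ, MvPolynomial.comp_aeval_apply, ← hP]
    congr 1
    congr 1
    funext p
    unfold lf pv
    simp
  obtain ⟨F, hF1, hF2⟩ := spec b Q hC hZ hm hD hN hQD.1 hQD.2 hQ0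
  refine ⟨MvPolynomial.aeval (Sum.elim (fun l => MvPolynomial.X (Sum.inl l)) (lf Θ Sum.inr)) F, fun x hx => ?_, ?_⟩
  · rw [MvPolynomial.comp_aeval_apply, ← hF1 x hx]
    congr 1
    congr 1
    funext i
    rcases i with l | p
    · simp
    · have h3 := lf_inv (R := ℂ) h2 (fun p : Fin k × (Fin n × Fin n) => zv Z (x p.1) p.2) p
      simp only [Sum.elim_inr]
      rw [← h3]
      unfold lf pv
      simp
  · rw [MvPolynomial.comp_aeval_apply]
    have h3 : (fun i => MvPolynomial.aeval (Sum.elim (fun l => MvPolynomial.C ((1 / (m l : ℝ) : ℝ) : ℂ)) MvPolynomial.X)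
        ((Sum.elim (fun l => MvPolynomial.X (Sum.inl l)) (lf Θ Sum.inr) : _ →
          MvPolynomial (Fin k ⊕ (Fin k × (Fin n × Fin n))) ℂ) i)) =
        fun i => MvPolynomial.aeval (lf Θ id) ((Sum.elim (fun l => MvPolynomial.C ((1 / (m l : ℝ) : ℝ) : ℂ))
          MvPolynomial.X : _ → MvPolynomial (Fin k × (Fin n × Fin n)) ℂ) i) := by
      funext i
      rcases i with l | p
      · simp
      · simp [lf]
    rw [h3, ← MvPolynomial.comp_aeval_apply, hF2, hQ, MvPolynomial.comp_aeval_apply]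
    conv_rhs => rw [← MvPolynomial.aeval_X_left_apply P]
    congr 1
    congr 1
    funext p
    have h4 := lf_inv (R := MvPolynomial (Fin k × (Fin n × Fin n)) ℂ) h1 MvPolynomial.X p
    rw [← h4]
    unfold lf
    simp

end Pool.Agent.Y113.GG
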