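import Pool.Agent.Y113.GG.Alg

/-!
# Project GG: linear disjointness
-/

set_option autoImplicit false

open PowerSeries

namespace Pool.Agent.Y113.GG

section Max

variable {R : Type} [CommRing R] [IsDomain R]

/-- a maximal independent family -/
lemma exists_maximal {ι : Type} [Fintype ι] {σ : Type} (f : σ → ι → R) :
    ∃ (s : ℕ) (p : Fin s → σ), (∀ x : Fin s → R, (∀ i, ∑ a, x a * f (p a) i = 0) → x = 0) ∧
      ∀ q : σ, InN (fun a => f (p a)) (f q) := by
  classical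
  by_contra hcon
  push Not at hcon
  have key : ∀ s : ℕ, ∃ p : Fin s → σ, ∀ x : Fin s → R, (∀ i, ∑ a, x a * f (p a) i = 0) → x = 0 := by
    intro s
    induction s with
    | zero => exact ⟨Fin.elim0, fun x _ => Subsingleton.elim _ _⟩
    | succ s ih =>
      obtain ⟨p, hp⟩ := ih
      obtain ⟨q, hq⟩ := hcon s p hp
      refine ⟨Fin.cons q p, fun x hx => ?_⟩
      have hx' : ∀ i, x 0 * f q i + ∑ a : Fin s, x a.succ * f (p a) i = 0 := by
        intro i
        have := hx i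
        rw [Fin.sum_univ_succ] at this
        simpa using this
      have h0 : x 0 = 0 := by
        by_contra h0
        apply hq
        refine ⟨x 0, fun a => - x a.succ, h0, fun i => ?_⟩
        have := hx' i
        simp only [neg_mul, Finset.sum_neg_distrib]
        linear_combination this
      have h1 := hp (fun a => x a.succ) (fun i => by
        have := hx' i
        rw [h0, zero_mul, zero_add] at this
        exact this)
      funext a
      refine Fin.cases h0 (fun a => ?_) a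
      exact congrFun h1 a
  obtain ⟨p, hp⟩ := key (Fintype.card ι + 1)
  have hli : LinearIndependent R (fun a => f (p a)) := by
    rw [Fintype.linearIndependent_iff]
    intro x hx a
    have := hp x (fun i => by
      have := congrFun hx i
      simpa [Finset.sum_apply] using this)
    exact congrFun this a
  have h1 := hli.fintype_card_le_finrank
  rw [Module.finrank_fintype_fun_eq_card, Fintype.card_fin] at h1
  omega

end Max

lemma mem_det {s : ℕ} (O : Subalgebra ℚ ℚ⟦X⟧) (M : Matrix (Fin s) (Fin s) ℚ⟦X⟧) (h : ∀ i j, M i j ∈ O) : M.det ∈ O := by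
  have h1 : M = O.val.toRingHom.mapMatrix (Matrix.of fun i j => (⟨M i j, h i j⟩ : O)) := by
    ext i j
    rfl
  rw [h1, ← RingHom.map_det]
  exact (Matrix.det (Matrix.of fun i j => (⟨M i j, h i j⟩ : O))).2

lemma mem_adj {s : ℕ} (O : Subalgebra ℚ ℚ⟦X⟧) (M : Matrix (Fin s) (Fin s) ℚ⟦X⟧) (h : ∀ i j, M i j ∈ O) (i j : Fin s) :
    M.adjugate i j ∈ O := by
  have h1 : M = O.val.toRingHom.mapMatrix (Matrix.of fun i j => (⟨M i j, h i j⟩ : O)) := by
    ext i j
    rfl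
  rw [h1, ← RingHom.map_adjugate]
  exact (Matrix.adjugate (Matrix.of fun i j => (⟨M i j, h i j⟩ : O)) i j).2

/-- scaling a polynomial into the subalgebra -/
lemma scale_mem {O : Subalgebra ℚ ℚ⟦X⟧} {v : ℚ⟦X⟧} (hv : v ∈ O) (hvX : v * X ∈ O) (P : Polynomial ℚ) {N : ℕ}
    (hP : P.natDegree ≤ N) : v ^ N * (P : ℚ⟦X⟧) ∈ O := by
  have h1 : (P : ℚ⟦X⟧) = ∑ k ∈ Finset.range (N + 1), PowerSeries.C (P.coeff k) * X ^ k := by
    ext m
    rw [Polynomial.coeff_coe, map_sum]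
    simp only [coeff_C_mul, coeff_X_pow]
    rcases Nat.lt_or_ge N m with h | h
    · rw [Polynomial.coeff_eq_zero_of_natDegree_lt (lt_of_le_of_lt hP h)]
      refine (Finset.sum_eq_zero fun k hk => ?_).symm
      rw [Finset.mem_range] at hk
      rw [if_neg (by omega), mul_zero]
    · rw [Finset.sum_eq_single m]
      · simp
      · intro k _ hk; rw [if_neg (Ne.symm hk), mul_zero]
      · intro hm; exact absurd (Finset.mem_range.2 (by omega)) hm
  rw [h1, Finset.mul_sum]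
  refine Subalgebra.sum_mem _ fun k hk => ?_
  rw [Finset.mem_range] at hk
  have h2 : v ^ N * (PowerSeries.C (P.coeff k) * X ^ k) = (algebraMap ℚ ℚ⟦X⟧ (P.coeff k)) * (v ^ (N - k) * (v * X) ^ k) := by
    have h3 : v ^ N = v ^ (N - k) * v ^ k := by
      rw [← pow_add]
      congr 1
      omega
    rw [h3, mul_pow]
    show v ^ (N - k) * v ^ k * (PowerSeries.C (P.coeff k) * X ^ k) = PowerSeries.C (P.coeff k) * _
    ring
  rw [h2]
  exact Subalgebra.mul_mem _ (Subalgebra.algebraMap_mem _ _)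
    (Subalgebra.mul_mem _ (Subalgebra.pow_mem _ hv _) (Subalgebra.pow_mem _ hvX _))

theorem t_ind : T_ind := by
  classical
  intro ι κ μ _ _ _ _ O₁ O₂ G γ Y W T A e F T' B v hR hWY hW hG hT hY hF hT' hB hv0 hv hvX hLG hLF
  have hpinj : ∀ P : Polynomial ℚ, (P : ℚ⟦X⟧) = 0 → P = 0 := fun P h => by
    exact_mod_cast h
  have hTne : (T : ℚ⟦X⟧) ≠ 0 := fun h => hT (hpinj _ h)
  have hTne' : (T' : ℚ⟦X⟧) ≠ 0 := fun h => hT' (hpinj _ h)
  have hsmul : ∀ (P : Polynomial ℚ) (f : ℚ⟦X⟧), P • f = (P : ℚ⟦X⟧) * f := fun P f => by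
    rw [Algebra.smul_def]
    rfl
  have he : Function.Injective e := by
    intro k k' hk
    by_contra hne
    have := hLG.injective (by simp [hk] : (fun k => G (e k)) k = (fun k => G (e k)) k')
    exact hne this
  -- relations
  let σ : Type := {P : ι → μ → Polynomial ℚ // ∑ i, G i * ∑ a, (P i a : ℚ⟦X⟧) * F a = 0}
  let f : σ → ι → ℚ⟦X⟧ := fun P i => ∑ a, (P.1 i a : ℚ⟦X⟧) * F a
  -- the derivative of a relation
  let nb : (ι → μ → Polynomial ℚ) → ι → μ → Polynomial ℚ := fun P i a =>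
    T' * (∑ k, A i k * P k a) + T * T' * Polynomial.derivative (P i a) + T * ∑ b, P i b * B b a
  have hnb : ∀ (P : ι → μ → Polynomial ℚ) (j : ι), (T : ℚ⟦X⟧) * T' * d⁄dX ℚ (∑ i, Y j i * ∑ a, (P i a : ℚ⟦X⟧) * F a) =
      ∑ i, Y j i * ∑ a, (nb P i a : ℚ⟦X⟧) * F a := by
    intro P j
    have e1 : d⁄dX ℚ (∑ i, Y j i * ∑ a, (P i a : ℚ⟦X⟧) * F a) = ∑ i, (Y j i * ∑ a, ((P i a : ℚ⟦X⟧) * d⁄dX ℚ (F a) +
        F a * ((Polynomial.derivative (P i a) : Polynomial ℚ) : ℚ⟦X⟧)) + (∑ a, (P i a : ℚ⟦X⟧) * F a) * d⁄dX ℚ (Y j i)) := by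
      rw [map_sum]
      refine Finset.sum_congr rfl fun i _ => ?_
      rw [Derivation.leibniz, map_sum]
      simp only [smul_eq_mul, Derivation.leibniz, PowerSeries.derivative_coe]
    have e2 : ∀ P : ι → μ → Polynomial ℚ, ∀ i a, ((nb P i a : Polynomial ℚ) : ℚ⟦X⟧) =
        (T' : ℚ⟦X⟧) * (∑ k, (A i k : ℚ⟦X⟧) * (P k a : ℚ⟦X⟧)) + (T : ℚ⟦X⟧) * T' * ((Polynomial.derivative (P i a) : Polynomial ℚ) : ℚ⟦X⟧) +
        (T : ℚ⟦X⟧) * ∑ b, (P i b : ℚ⟦X⟧) * (B b a : ℚ⟦X⟧) := by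
      intro P i a
      have h1 : ((∑ k, A i k * P k a : Polynomial ℚ) : ℚ⟦X⟧) = ∑ k, (A i k : ℚ⟦X⟧) * (P k a : ℚ⟦X⟧) := by
        have := map_sum (Polynomial.coeToPowerSeries.ringHom (R := ℚ)) (fun k => A i k * P k a) Finset.univ
        refine this.trans (Finset.sum_congr rfl fun k _ => ?_)
        rw [map_mul]; rfl
      have h2 : ((∑ b, P i b * B b a : Polynomial ℚ) : ℚ⟦X⟧) = ∑ b, (P i b : ℚ⟦X⟧) * (B b a : ℚ⟦X⟧) := by
        have := map_sum (Polynomial.coeToPowerSeries.ringHom (R := ℚ)) (fun b => P i b * B b a) Finset.univ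
        refine this.trans (Finset.sum_congr rfl fun k _ => ?_)
        rw [map_mul]; rfl
      simp only [nb, Polynomial.coe_add, Polynomial.coe_mul, h1, h2]
    rw [e1]
    simp only [e2]
    -- three parts
    have p1 : ∑ i, (T : ℚ⟦X⟧) * T' * ((∑ a, (P i a : ℚ⟦X⟧) * F a) * d⁄dX ℚ (Y j i)) =
        ∑ i, Y j i * ∑ a, ((T' : ℚ⟦X⟧) * (∑ k, (A i k : ℚ⟦X⟧) * (P k a : ℚ⟦X⟧))) * F a := by
      have h1 : ∀ i, (T : ℚ⟦X⟧) * T' * ((∑ a, (P i a : ℚ⟦X⟧) * F a) * d⁄dX ℚ (Y j i)) =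
          ∑ k, Y j k * ((T' : ℚ⟦X⟧) * (A k i : ℚ⟦X⟧) * ∑ a, (P i a : ℚ⟦X⟧) * F a) := by
        intro i
        have h2 := hY j i
        calc (T : ℚ⟦X⟧) * T' * ((∑ a, (P i a : ℚ⟦X⟧) * F a) * d⁄dX ℚ (Y j i))
            = (T' : ℚ⟦X⟧) * (∑ a, (P i a : ℚ⟦X⟧) * F a) * ((T : ℚ⟦X⟧) * d⁄dX ℚ (Y j i)) := by ring
          _ = _ := by
            rw [h2, Finset.mul_sum]
            exact Finset.sum_congr rfl fun k _ => by ring
      simp only [h1]
      rw [Finset.sum_comm]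
      refine Finset.sum_congr rfl fun k _ => ?_
      rw [← Finset.mul_sum]
      congr 1
      simp only [Finset.mul_sum, Finset.sum_mul]
      rw [Finset.sum_comm]
      exact Finset.sum_congr rfl fun a _ => Finset.sum_congr rfl fun i _ => by ring
    have p2 : ∀ i, (T : ℚ⟦X⟧) * T' * ∑ a, (P i a : ℚ⟦X⟧) * d⁄dX ℚ (F a) =
        ∑ a, ((T : ℚ⟦X⟧) * ∑ b, (P i b : ℚ⟦X⟧) * (B b a : ℚ⟦X⟧)) * F a := by
      intro i
      have h1 : ∀ a, (T : ℚ⟦X⟧) * T' * ((P i a : ℚ⟦X⟧) * d⁄dX ℚ (F a)) = ∑ b, (T : ℚ⟦X⟧) * ((P i a : ℚ⟦X⟧) * (B a b : ℚ⟦X⟧)) * F b := by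
        intro a
        calc (T : ℚ⟦X⟧) * T' * ((P i a : ℚ⟦X⟧) * d⁄dX ℚ (F a)) = (T : ℚ⟦X⟧) * (P i a : ℚ⟦X⟧) * ((T' : ℚ⟦X⟧) * d⁄dX ℚ (F a)) := by ring
          _ = _ := by
            rw [hB a, Finset.mul_sum]
            exact Finset.sum_congr rfl fun b _ => by ring
      rw [Finset.mul_sum]
      simp only [h1]
      rw [Finset.sum_comm]
      simp only [Finset.mul_sum, Finset.sum_mul]
    have p3 : ∀ i, (T : ℚ⟦X⟧) * T' * (Y j i * ∑ a, ((P i a : ℚ⟦X⟧) * d⁄dX ℚ (F a) +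
        F a * ((Polynomial.derivative (P i a) : Polynomial ℚ) : ℚ⟦X⟧))) =
        Y j i * (∑ a, ((T : ℚ⟦X⟧) * ∑ b, (P i b : ℚ⟦X⟧) * (B b a : ℚ⟦X⟧)) * F a +
        ∑ a, ((T : ℚ⟦X⟧) * T' * ((Polynomial.derivative (P i a) : Polynomial ℚ) : ℚ⟦X⟧)) * F a) := by
      intro i
      rw [← p2 i, Finset.sum_add_distrib, mul_add, mul_add, mul_add]
      congr 1
      · ring
      · simp only [Finset.mul_sum]
        exact Finset.sum_congr rfl fun a _ => by ring
    rw [Finset.mul_sum]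
    simp only [mul_add, Finset.sum_add_distrib]
    have p3' := p3
    simp only [mul_add, Finset.sum_add_distrib] at p3'
    rw [p1]
    have p4 : ∑ i, (T : ℚ⟦X⟧) * T' * (Y j i * ∑ a, (P i a : ℚ⟦X⟧) * d⁄dX ℚ (F a)) +
        ∑ i, (T : ℚ⟦X⟧) * T' * (Y j i * ∑ a, F a * ((Polynomial.derivative (P i a) : Polynomial ℚ) : ℚ⟦X⟧)) =
        ∑ i, Y j i * ∑ a, ((T : ℚ⟦X⟧) * ∑ b, (P i b : ℚ⟦X⟧) * (B b a : ℚ⟦X⟧)) * F a +
        ∑ i, Y j i * ∑ a, ((T : ℚ⟦X⟧) * T' * ((Polynomial.derivative (P i a) : Polynomial ℚ) : ℚ⟦X⟧)) * F a := by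
      rw [← Finset.sum_add_distrib, ← Finset.sum_add_distrib]
      exact Finset.sum_congr rfl fun i _ => p3' i
    rw [p4]
    have p5 : ∀ i, ∑ a, ((T' : ℚ⟦X⟧) * (∑ k, (A i k : ℚ⟦X⟧) * (P k a : ℚ⟦X⟧)) + (T : ℚ⟦X⟧) * T' * ((Polynomial.derivative (P i a) : Polynomial ℚ) : ℚ⟦X⟧) +
        (T : ℚ⟦X⟧) * ∑ b, (P i b : ℚ⟦X⟧) * (B b a : ℚ⟦X⟧)) * F a =
        ∑ a, ((T' : ℚ⟦X⟧) * (∑ k, (A i k : ℚ⟦X⟧) * (P k a : ℚ⟦X⟧))) * F a +
        ∑ a, ((T : ℚ⟦X⟧) * T' * ((Polynomial.derivative (P i a) : Polynomial ℚ) : ℚ⟦X⟧)) * F a +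
        ∑ a, ((T : ℚ⟦X⟧) * ∑ b, (P i b : ℚ⟦X⟧) * (B b a : ℚ⟦X⟧)) * F a := by
      intro i
      rw [← Finset.sum_add_distrib, ← Finset.sum_add_distrib]
      exact Finset.sum_congr rfl fun a _ => by ring
    simp only [p5, mul_add, Finset.sum_add_distrib]
    ring
  have hGY : ∀ u : ι → ℚ⟦X⟧, ∑ i, G i * u i = ∑ j, PowerSeries.C (γ j) * ∑ i, Y j i * u i := by
    intro u
    simp only [hG, Finset.sum_mul, Finset.mul_sum]
    rw [Finset.sum_comm]
    exact Finset.sum_congr rfl fun j _ => Finset.sum_congr rfl fun i _ => by ring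
  have hnbrel : ∀ P : σ, ∑ i, G i * ∑ a, (nb P.1 i a : ℚ⟦X⟧) * F a = 0 := by
    intro P
    rw [hGY]
    have h1 := P.2
    rw [hGY] at h1
    have h2 := congrArg (fun x => (T : ℚ⟦X⟧) * T' * d⁄dX ℚ x) h1
    simp only [map_sum, map_zero, mul_zero] at h2
    refine Eq.trans ?_ h2
    rw [Finset.mul_sum]
    refine Finset.sum_congr rfl fun j _ => ?_
    rw [← hnb P.1 j, Derivation.leibniz]
    simp only [smul_eq_mul]
    have h3 : d⁄dX ℚ (PowerSeries.C (γ j)) = 0 := by simp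
    rw [h3]
    ring
  -- maximal family
  obtain ⟨s, p, hp, hmax⟩ := exists_maximal f
  set w : Fin s → ι → ℚ⟦X⟧ := fun a => f (p a) with hw
  -- stability
  let V : Fin s → ι → ℚ⟦X⟧ := fun a j => ∑ i, Y j i * w a i
  choose dd xx hdd hxx using fun a => hmax (⟨nb (p a).1, hnbrel (p a)⟩ : σ)
  have hstab : ∀ a j, ((T : ℚ⟦X⟧) * T' * ∏ c, dd c) * d⁄dX ℚ (V a j) =
      ∑ b, ((∏ c ∈ Finset.univ.erase a, dd c) * xx a b) * V b j := by
    intro a j
    have h1 : (T : ℚ⟦X⟧) * T' * d⁄dX ℚ (V a j) = ∑ i, Y j i * f ⟨nb (p a).1, hnbrel (p a)⟩ i := hnb (p a).1 j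
    calc ((T : ℚ⟦X⟧) * T' * ∏ c, dd c) * d⁄dX ℚ (V a j) = (∏ c, dd c) * ((T : ℚ⟦X⟧) * T' * d⁄dX ℚ (V a j)) := by ring
      _ = (∏ c ∈ Finset.univ.erase a, dd c) * ∑ i, Y j i * (dd a * f ⟨nb (p a).1, hnbrel (p a)⟩ i) := by
        rw [h1, ← Finset.prod_erase_mul _ _ (Finset.mem_univ a), mul_assoc, Finset.mul_sum]
        congr 1
        exact Finset.sum_congr rfl fun i _ => by ring
      _ = _ := by
        have h2 : ∑ i, Y j i * (dd a * f ⟨nb (p a).1, hnbrel (p a)⟩ i) = ∑ b, xx a b * V b j := by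
          simp only [hxx a, V, Finset.mul_sum]
          rw [Finset.sum_comm]
          exact Finset.sum_congr rfl fun b _ => Finset.sum_congr rfl fun i _ => by ring
        rw [h2, Finset.mul_sum]
        exact Finset.sum_congr rfl fun b _ => by ring
  have hwV : ∀ a i, w a i = ∑ j, W i j * V a j := by
    intro a i
    simp only [V, Finset.mul_sum]
    rw [Finset.sum_comm]
    have h1 : ∀ i', ∑ j, W i j * (Y j i' * w a i') = (if i = i' then 1 else 0) * w a i' := by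
      intro i'
      have h2 := congrFun (congrFun hWY i) i'
      rw [Matrix.mul_apply, Matrix.one_apply] at h2
      rw [← h2, Finset.sum_mul]
      exact Finset.sum_congr rfl fun j _ => by ring
    simp only [h1]
    simp
  obtain ⟨J', _, hJ'⟩ := exists_minor V Set.univ (fun x hx => hp x fun i => by
    have h1 : ∑ a, x a * w a i = ∑ j, W i j * ∑ a, x a * V a j := by
      simp only [hwV, Finset.mul_sum]
      rw [Finset.sum_comm]
      exact Finset.sum_congr rfl fun j _ => Finset.sum_congr rfl fun a _ => by ring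
    show ∑ a, x a * w a i = 0
    rw [h1]
    exact Finset.sum_eq_zero fun j _ => by rw [hx j (Set.mem_univ _), mul_zero])
  obtain ⟨E, hE⟩ := const_basis V _ _ (mul_ne_zero (mul_ne_zero hTne hTne')
    (Finset.prod_ne_zero_iff.2 fun c _ => hdd c)) hstab J' hJ'
  let w1 : Fin s → ι → ℚ⟦X⟧ := fun b i => ∑ j, W i j * PowerSeries.C (E b j)
  have hw1O : ∀ b i, w1 b i ∈ O₁ := fun b i => Subalgebra.sum_mem _ fun j _ =>
    Subalgebra.mul_mem _ (hW i j) (Subalgebra.algebraMap_mem O₁ (E b j))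
  have hww1 : ∀ a i, w a i = ∑ b, V a (J' b) * w1 b i := by
    intro a i
    have h1 : ∀ j, W i j * V a j = ∑ b, V a (J' b) * (W i j * PowerSeries.C (E b j)) := by
      intro j
      conv_lhs => rw [hE a j]
      rw [Finset.mul_sum]
      exact Finset.sum_congr rfl fun b _ => by ring
    rw [hwV a i]
    simp only [h1]
    rw [Finset.sum_comm]
    exact Finset.sum_congr rfl fun b _ => by rw [Finset.mul_sum]
  -- a dependence relation
  by_contra hcon
  rw [Fintype.linearIndependent_iff] at hcon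
  push Not at hcon
  obtain ⟨pp, hpp, ⟨k₁, a₁⟩, hne⟩ := hcon
  let P₀ : ι → μ → Polynomial ℚ := fun i a => ∑ k, if e k = i then pp (k, a) else 0
  have hP₀e : ∀ k a, P₀ (e k) a = pp (k, a) := by
    intro k a
    simp only [P₀]
    rw [Finset.sum_eq_single k]
    · simp
    · intro k' _ hk'; rw [if_neg fun h => hk' (he h)]
    · simp
  have hP₀n : ∀ i, i ∉ Set.range e → ∀ a, P₀ i a = 0 := by
    intro i hi a
    refine Finset.sum_eq_zero fun k _ => ?_
    rw [if_neg fun h => hi ⟨k, h⟩]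
  have hsum_e : ∀ g : ι → ℚ⟦X⟧, (∀ i, i ∉ Set.range e → g i = 0) → ∑ i, g i = ∑ k, g (e k) := by
    intro g hg
    rw [← Finset.sum_image (s := Finset.univ) (f := g) (g := e) fun x _ y _ h => he h]
    refine (Finset.sum_subset (Finset.subset_univ _) fun i _ hi => hg i fun ⟨k, hk⟩ => hi ?_).symm
    exact Finset.mem_image.2 ⟨k, Finset.mem_univ _, hk⟩
  have hP₀rel : ∑ i, G i * ∑ a, (P₀ i a : ℚ⟦X⟧) * F a = 0 := by
    rw [hsum_e _ fun i hi => by simp [hP₀n i hi]]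
    rw [← hpp, Fintype.sum_prod_type]
    refine Finset.sum_congr rfl fun k _ => ?_
    rw [Finset.mul_sum]
    refine Finset.sum_congr rfl fun a _ => ?_
    rw [hP₀e, hsmul]
    ring
  have hw₀ : f ⟨P₀, hP₀rel⟩ ≠ 0 := by
    intro h0
    apply hne
    have h1 := congrFun h0 (e k₁)
    simp only [f, Pi.zero_apply, hP₀e] at h1
    have h2 := Fintype.linearIndependent_iff.1 hLF (fun a => pp (k₁, a)) (by
      rw [← h1]
      exact Finset.sum_congr rfl fun a _ => hsmul _ _)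
    exact h2 a₁
  -- a vector of minimal support
  have hex : ∃ n : ℕ, ∃ u : ι → ℚ⟦X⟧, InN w u ∧ u ≠ 0 ∧ (∀ i, i ∉ Set.range e → u i = 0) ∧
      (Finset.univ.filter fun i => u i ≠ 0).card = n := by
    refine ⟨_, f ⟨P₀, hP₀rel⟩, hmax _, hw₀, fun i hi => ?_, rfl⟩
    simp [f, hP₀n i hi]
  obtain ⟨u, huN, hu0, hue, hucard⟩ := Nat.find_spec hex
  have hmin : ∀ u' : ι → ℚ⟦X⟧, InN w u' → u' ≠ 0 → (∀ i, u i = 0 → u' i = 0) →
      ∀ i, u' i = 0 → u i = 0 := by
    intro u' h1 h2 h3 i hi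
    by_contra hi'
    have h4 : (Finset.univ.filter fun i => u' i ≠ 0).card < Nat.find hex := by
      rw [← hucard]
      refine Finset.card_lt_card ⟨fun j hj => ?_, fun hsub => ?_⟩
      · rw [Finset.mem_filter] at hj ⊢
        exact ⟨hj.1, fun h => hj.2 (h3 j h)⟩
      · have := hsub (Finset.mem_filter.2 ⟨Finset.mem_univ i, hi'⟩)
        exact (Finset.mem_filter.1 this).2 hi
    exact Nat.find_min hex h4 ⟨u', h1, h2, fun j hj => h3 j (hue j hj), rfl⟩
  obtain ⟨i₀, hi₀⟩ : ∃ i, u i ≠ 0 := by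
    by_contra h
    push Not at h
    exact hu0 (funext h)
  -- coordinates
  obtain ⟨J, hJU, hJ⟩ := exists_minor w {i | u i = 0 ∨ i = i₀} (fun x hx => by
    refine hp x fun i => ?_
    by_contra hne'
    have h1 : InN w (fun i => ∑ a, x a * w a i) := ⟨1, x, one_ne_zero, fun i => one_mul _⟩
    have h2 := hmin _ h1 (fun h0 => hne' (congrFun h0 i)) (fun i hi => hx i (Or.inl hi)) i₀ (hx i₀ (Or.inr rfl))
    exact hi₀ h2)
  obtain ⟨b₀, hb₀⟩ : ∃ b, J b = i₀ := by
    by_contra hno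
    push Not at hno
    obtain ⟨d, x, hd, hx⟩ := huN
    have h1 : ∀ b, ∑ a, x a * w a (J b) = 0 := by
      intro b
      rw [← hx (J b)]
      rcases hJU b with h | h
      · rw [h, mul_zero]
      · exact absurd h (hno b)
    have h2 : x = 0 := by
      by_contra hx0
      apply hJ
      rw [← Matrix.exists_vecMul_eq_zero_iff]
      exact ⟨x, hx0, funext fun b => h1 b⟩
    have h3 := hx i₀
    rw [h2] at h3
    simp only [Pi.zero_apply, zero_mul, Finset.sum_const_zero] at h3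
    exact (mul_ne_zero hd hi₀) h3
  have hJinj : Function.Injective J := by
    intro b b' hbb
    by_contra hne'
    apply hJ
    exact Matrix.det_zero_of_column_eq hne' fun a => by simp [Matrix.of_apply, hbb]
  have hJu : ∀ b, u (J b) = if b = b₀ then u i₀ else 0 := by
    intro b
    split_ifs with h
    · rw [h, hb₀]
    · rcases hJU b with h' | h'
      · exact h'
      · exact absurd (hJinj (h'.trans hb₀.symm)) h
  -- first expression
  have huN1 : InN w1 u := by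
    obtain ⟨d, x, hd, hx⟩ := huN
    refine ⟨d, fun b => ∑ a, x a * V a (J' b), hd, fun i => ?_⟩
    rw [hx i]
    simp only [hww1 _ i, Finset.mul_sum, Finset.sum_mul]
    rw [Finset.sum_comm]
    exact Finset.sum_congr rfl fun b _ => Finset.sum_congr rfl fun a _ => by ring
  have hdet1 : (Matrix.of fun a b => w1 a (J b)).det ≠ 0 := by
    intro h0
    apply hJ
    have h1 : (Matrix.of fun a b => w a (J b)) = (Matrix.of fun a b => V a (J' b)) * (Matrix.of fun a b => w1 a (J b)) := by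
      ext a b
      rw [Matrix.mul_apply]
      simp only [Matrix.of_apply]
      rw [hww1 a (J b)]
    rw [h1, Matrix.det_mul, h0, mul_zero]
  -- second expression
  obtain ⟨N, hN⟩ : ∃ N : ℕ, ∀ a i m, ((p a).1 i m).natDegree ≤ N := by
    refine ⟨∑ a, ∑ i, ∑ m, ((p a).1 i m).natDegree, fun a i m => ?_⟩
    refine le_trans ?_ (Finset.single_le_sum (f := fun a => ∑ i, ∑ m, ((p a).1 i m).natDegree) (fun _ _ => Nat.zero_le _) (Finset.mem_univ a))
    refine le_trans ?_ (Finset.single_le_sum (f := fun i => ∑ m, ((p a).1 i m).natDegree) (fun _ _ => Nat.zero_le _) (Finset.mem_univ i))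
    exact Finset.single_le_sum (f := fun m => ((p a).1 i m).natDegree) (fun _ _ => Nat.zero_le _) (Finset.mem_univ m)
  let w2 : Fin s → ι → ℚ⟦X⟧ := fun a i => v ^ N * w a i
  have hw2O : ∀ a i, w2 a i ∈ O₂ := by
    intro a i
    have h1 : w2 a i = ∑ m, (v ^ N * ((p a).1 i m : ℚ⟦X⟧)) * F m := by
      show v ^ N * ∑ m, ((p a).1 i m : ℚ⟦X⟧) * F m = _
      rw [Finset.mul_sum]
      exact Finset.sum_congr rfl fun m _ => by ring
    rw [h1]
    exact Subalgebra.sum_mem _ fun m _ => Subalgebra.mul_mem _ (scale_mem hv hvX _ (hN a i m)) (hF m)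
  have hvN : v ^ N ≠ 0 := pow_ne_zero _ hv0
  have huN2 : InN w2 u := by
    obtain ⟨d, x, hd, hx⟩ := huN
    refine ⟨v ^ N * d, x, mul_ne_zero hvN hd, fun i => ?_⟩
    rw [mul_assoc, hx i, Finset.mul_sum]
    exact Finset.sum_congr rfl fun a _ => by simp only [w2]; ring
  have hdet2 : (Matrix.of fun a b => w2 a (J b)).det ≠ 0 := by
    have h1 : (Matrix.of fun a b => w2 a (J b)) = (v ^ N) • (Matrix.of fun a b => w a (J b)) := by
      ext a b
      simp [w2]
    rw [h1, Matrix.det_smul]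
    exact mul_ne_zero (pow_ne_zero _ hvN) hJ
  have hc1 := cramer_row w1 J b₀ u (u i₀) huN1 hJu
  have hc2 := cramer_row w2 J b₀ u (u i₀) huN2 hJu
  -- the entries are rational
  have hrat : ∀ i, ∃ p q : Polynomial ℚ, q ≠ 0 ∧ (q : ℚ⟦X⟧) * u i = (p : ℚ⟦X⟧) * u i₀ := by
    intro i
    have hadj1 : ∑ a, (Matrix.of fun a b => w1 a (J b)).adjugate b₀ a * w1 a i ∈ O₁ :=
      Subalgebra.sum_mem _ fun a _ => Subalgebra.mul_mem _ (mem_adj O₁ (Matrix.of fun a b => w1 a (J b)) (fun _ _ => hw1O _ _) _ _) (hw1O _ _)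
    have hadj2 : ∑ a, (Matrix.of fun a b => w2 a (J b)).adjugate b₀ a * w2 a i ∈ O₂ :=
      Subalgebra.sum_mem _ fun a _ => Subalgebra.mul_mem _ (mem_adj O₂ (Matrix.of fun a b => w2 a (J b)) (fun _ _ => hw2O _ _) _ _) (hw2O _ _)
    obtain ⟨p', q', hq', hpq⟩ := hR _ hadj1 _ (mem_det O₁ (Matrix.of fun a b => w1 a (J b)) fun _ _ => hw1O _ _) _ hadj2 _
      (mem_det O₂ (Matrix.of fun a b => w2 a (J b)) fun _ _ => hw2O _ _) hdet1 hdet2 (by
        refine mul_left_cancel₀ hi₀ ?_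
        linear_combination (Matrix.of fun a b => w1 a (J b)).det * hc2 i - (Matrix.of fun a b => w2 a (J b)).det * hc1 i)
    refine ⟨p', q', hq', ?_⟩
    refine mul_left_cancel₀ hdet2 ?_
    linear_combination (q' : ℚ⟦X⟧) * hc2 i + (u i₀) * hpq
  choose pr qr hqr hpqr using hrat
  -- orthogonality
  have horth : ∑ i, G i * u i = 0 := by
    obtain ⟨d, x, hd, hx⟩ := huN
    refine mul_left_cancel₀ hd ?_
    rw [Finset.mul_sum, mul_zero]
    have h1 : ∑ i, d * (G i * u i) = ∑ a, x a * ∑ i, G i * w a i := by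
      simp only [Finset.mul_sum]
      rw [Finset.sum_comm]
      refine Finset.sum_congr rfl fun i _ => ?_
      have := hx i
      calc d * (G i * u i) = G i * (d * u i) := by ring
        _ = _ := by
          rw [this, Finset.mul_sum]
          exact Finset.sum_congr rfl fun a _ => by ring
    rw [h1]
    exact Finset.sum_eq_zero fun a _ => by rw [(p a).2, mul_zero]
  have hfin : ∑ i, (((∏ j ∈ Finset.univ.erase i, qr j) * pr i : Polynomial ℚ) : ℚ⟦X⟧) * G i = 0 := by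
    refine mul_left_cancel₀ hi₀ ?_
    rw [mul_zero, Finset.mul_sum]
    have h1 : ∀ i, u i₀ * ((((∏ j ∈ Finset.univ.erase i, qr j) * pr i : Polynomial ℚ) : ℚ⟦X⟧) * G i) =
        (((∏ j, qr j) : Polynomial ℚ) : ℚ⟦X⟧) * (G i * u i) := by
      intro i
      rw [← Finset.prod_erase_mul _ _ (Finset.mem_univ i), Polynomial.coe_mul, Polynomial.coe_mul]
      linear_combination (-(((∏ j ∈ Finset.univ.erase i, qr j : Polynomial ℚ) : ℚ⟦X⟧) * G i)) * hpqr i
    simp only [h1]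
    rw [← Finset.mul_sum, horth, mul_zero]
  have hpr0 : ∀ i, i ∉ Set.range e → pr i = 0 := by
    intro i hi
    have h1 := hpqr i
    rw [hue i hi, mul_zero] at h1
    exact hpinj _ ((mul_eq_zero.1 h1.symm).resolve_right hi₀)
  rw [hsum_e _ fun i hi => by rw [hpr0 i hi, mul_zero]; simp] at hfin
  have h1 := Fintype.linearIndependent_iff.1 hLG (fun k => (∏ j ∈ Finset.univ.erase (e k), qr j) * pr (e k)) (by
    rw [← hfin]
    exact Finset.sum_congr rfl fun k _ => hsmul _ _)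
  obtain ⟨k₀, hk₀⟩ : i₀ ∈ Set.range e := by
    by_contra h
    exact hi₀ (hue i₀ h)
  have h2 := h1 k₀
  rw [hk₀] at h2
  have h3 : pr i₀ = 0 := (mul_eq_zero.1 h2).resolve_left (Finset.prod_ne_zero_iff.2 fun j _ => hqr j)
  have h4 := hpqr i₀
  rw [h3] at h4
  simp only [Polynomial.coe_zero, zero_mul] at h4
  rcases mul_eq_zero.1 h4 with h | h
  · exact hqr i₀ (hpinj _ h)
  · exact hi₀ h

end Pool.Agent.Y113.GG
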