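import Pool.Agent.Y678.HG.HGMon
import Pool.Agent.Y678.HV.Col
import Pool.Agent.Y113.GG.Basis

/-!
# Project GG: the basis words form G-systems after all shifts
-/

set_option autoImplicit false

open PowerSeries

namespace Pool.Agent.Y113.GG

open Pool.Agent.Y113 Pool.Agent.Y37.GF Pool.Agent.Y46.HG

/-- an integer polynomial does not vanish near `0` except perhaps at `0` -/
lemma poly_ne {D : Polynomial ℤ} (hD : D ≠ 0) : ∃ c : ℕ, ∀ x : ℝ, 0 < x → x ≤ 1 / 2 ^ c → Polynomial.aeval x D ≠ 0 := by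
  have hfin : (D.rootSet ℝ \ {0}).Finite := (Polynomial.rootSet_finite D ℝ).subset Set.sdiff_subset
  have hev : ∀ᶠ x in nhds (0 : ℝ), x ∉ D.rootSet ℝ \ {0} :=
    hfin.isClosed.isOpen_compl.mem_nhds (fun h => h.2 rfl)
  obtain ⟨ε, hε, hball⟩ := Metric.eventually_nhds_iff.1 hev
  obtain ⟨c, hc⟩ := exists_pow_lt_of_lt_one hε (show (1 / 2 : ℝ) < 1 by norm_num)
  refine ⟨c, fun x hx0 hx h0 => ?_⟩
  have h1 : x ∉ D.rootSet ℝ \ {0} := hball (by
    rw [Real.dist_eq, sub_zero, abs_of_pos hx0]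
    refine lt_of_le_of_lt hx ?_
    rwa [one_div_pow] at hc)
  apply h1
  refine ⟨(Polynomial.mem_rootSet).2 ⟨hD, h0⟩, ?_⟩
  rw [Set.mem_singleton_iff]
  exact hx0.ne'

lemma base_le (g a b : ℕ) (h : a ≤ b) : ((g : ℝ) + 2) ^ a ≤ ((g : ℝ) + 2) ^ b := base_mono (one_le_base g) h

variable {n : ℕ}

/-- the G-systems of the shifts of the basis words -/
theorem exists_sys {f : Polynomial ℚ} {A : Fin n → Fin n → Polynomial ℚ} {Z W : Fin n → Fin n → ℚ⟦X⟧}
    (hf : f.coeff 0 ≠ 0)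
    (hZ : ∀ i j, (f : ℚ⟦X⟧) * PowerSeries.derivative ℚ (Z i j) = ∑ k, Z i k * (A k j : ℚ⟦X⟧))
    (hW : ∀ i j, ∑ k, W i k * Z k j = if i = j then 1 else 0) (hSZ : ∀ i j, SDc (Z i j)) (hSW : ∀ i j, SDc (W i j))
    (δ : ℕ) (s : Finset (Fin δ → Option (Fin n × Fin n))) (D : Polynomial ℤ)
    (N : (Fin δ → Option (Fin n × Fin n)) → s → Polynomial ℤ) (hD : D ≠ 0)
    (hDN : ∀ h, ps D * wd Z h = ∑ k : s, ps (N h k) * wd Z (k : Fin δ → Option (Fin n × Fin n))) :
    ∃ (q E : ℕ) (TT : ℕ → Polynomial ℤ),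
      (∀ g : ℕ, GSys q (((g : ℝ) + 2) ^ E) (TT g)
        (fun k : s => ph g (wd Z (k : Fin δ → Option (Fin n × Fin n))))) ∧
      ∀ g t : ℕ, ((g : ℝ) + 2) ^ E ≤ (t : ℝ) → Polynomial.aeval (1 / (t : ℝ)) (TT g) ≠ 0 := by
  classical
  obtain ⟨q₁, E₁, T₁, h1, h1'⟩ := t_one n f A Z W hf hZ hW hSZ hSW
  obtain ⟨E₂, h2⟩ := Pool.Agent.Y678.HG.words h1 δ
  -- degrees
  set p : ℕ := D.natDegree + ∑ h, ∑ k, (N h k).natDegree with hp'
  have hpD : D.natDegree ≤ p := by omega
  have hpN : ∀ h k, (N h k).natDegree ≤ p := by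
    intro h k
    have e1 : ∑ k, (N h k).natDegree ≤ ∑ h, ∑ k, (N h k).natDegree :=
      Finset.single_le_sum (f := fun h => ∑ k, (N h k).natDegree) (fun _ _ => Nat.zero_le _) (Finset.mem_univ h)
    have e2 : (N h k).natDegree ≤ ∑ k, (N h k).natDegree :=
      Finset.single_le_sum (f := fun k => (N h k).natDegree) (fun _ _ => Nat.zero_le _) (Finset.mem_univ k)
    omega
  obtain ⟨a0, b0, hB0⟩ := BE.hp p D
  choose a1 b1 hB1 using fun h k => BE.hp p (N h k)
  set q' : ℕ := a0 + ∑ h, ∑ k, a1 h k with hq'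
  set E' : ℕ := E₂ + b0 + ∑ h, ∑ k, b1 h k with hE'
  have hle : ∀ (u : (Fin δ → Option (Fin n × Fin n)) → s → ℕ) h k, u h k ≤ ∑ h, ∑ k, u h k := by
    intro u h k
    have e1 := Finset.single_le_sum (f := fun h => ∑ k, u h k) (fun _ _ => Nat.zero_le _) (Finset.mem_univ h)
    have e2 := Finset.single_le_sum (f := fun k => u h k) (fun _ _ => Nat.zero_le _) (Finset.mem_univ k)
    exact e2.trans e1
  obtain ⟨E₃, h3⟩ := Pool.Agent.Y678.HV.t_col
    (max (Fintype.card (Fin δ → Option (Fin n × Fin n))) (Fintype.card s)) q₁ q'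
  obtain ⟨c, hc⟩ := poly_ne hD
  refine ⟨q₁ + q', (E' + 1) * E₃ + E₁ + (c + 1), fun g => T₁ g * hp p D g, fun g => ?_, fun g t ht => ?_⟩
  · have hy : (fun f : Fin δ → Option (Fin n × Fin n) => ∏ i, ((f i).elim 1 fun p => (Z p.1 p.2).subst (sh g) : ℚ⟦X⟧)) =
        fun h => ph g (wd Z h) := by
      funext h
      unfold wd
      rw [map_prod]
      refine Finset.prod_congr rfl fun a _ => ?_
      unfold lt
      rcases h a with _ | ⟨i, j⟩
      · simp
      · simp [ph_eq]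
    have h4 := h2 g
    rw [hy] at h4
    have h5 := h3 (Fin δ → Option (Fin n × Fin n)) s (((g : ℝ) + 2) ^ E') (T₁ g) (hp p D g)
      (fun h => ph g (wd Z h)) (fun k : s => ph g (wd Z (k : Fin δ → Option (Fin n × Fin n)))) (fun k => k.1)
      (fun h k => hp p (N h k) g) (le_max_left _ _) (le_max_right _ _)
      (h4.mono le_rfl (base_le g _ _ (by omega))) (fun k => rfl)
      ((hB0 g).1.trans (by omega)) (fun l => ((hB0 g).2 l).trans (base_le g _ _ (by omega)))
      (fun h k => (hB1 h k g).1.trans (by have := hle a1 h k; omega))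
      (fun h k l => ((hB1 h k g).2 l).trans (base_le g _ _ (by have := hle b1 h k; omega)))
      (by
        intro h
        have h6 := congrArg (ph g) (hDN h)
        rw [map_mul, map_sum] at h6
        rw [ps_hp hpD, ← ph_eq, mul_assoc, h6, Finset.mul_sum]
        refine Finset.sum_congr rfl fun k _ => ?_
        rw [ps_hp (hpN h k), ← ph_eq, map_mul]
        ring)
    exact h5.mono le_rfl ((pow_base g _ _).trans (base_le g _ _ (by omega)))
  · have hg := one_le_base g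
    have hg0 : (0 : ℝ) ≤ g := by positivity
    have h5 : ((g : ℝ) + 2) ^ (c + 1) ≤ t := (base_mono hg (by omega)).trans ht
    have h6 : (2 : ℝ) ^ c ≤ t - g := by
      have e1 : (2 : ℝ) ^ c * ((g : ℝ) + 2) ≤ t := by
        refine le_trans ?_ h5
        rw [pow_succ]
        exact mul_le_mul_of_nonneg_right (two_pow_le g c) (by positivity)
      have e2 : (1 : ℝ) ≤ 2 ^ c := one_le_pow₀ (by norm_num)
      nlinarith
    have h7 : (0 : ℝ) < t - g := lt_of_lt_of_le (by positivity) h6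
    have h8 : (0 : ℝ) < t := by linarith
    rw [map_mul, aeval_hp hpD g h8.ne' h7.ne']
    refine mul_ne_zero (h1' g t ((base_mono hg (by omega)).trans ht)) (mul_ne_zero (pow_ne_zero _ ?_) ?_)
    · have : (g : ℝ) * (1 / t) < 1 := by
        rw [mul_one_div, div_lt_one h8]; linarith
      linarith
    · refine hc _ (by positivity) ?_
      exact one_div_le_one_div_of_le (by positivity) h6

end Pool.Agent.Y113.GG
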