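import Pool.Agent.Y31.GG.Rat
import Pool.Agent.Y113.GG.Ind
import Pool.Agent.Y113.GG.Cx
import Pool.Agent.Y113.GG.Sys

/-!
# Project GG: the products of the shifted basis words are linearly independent over the rational functions
-/

set_option autoImplicit false

open PowerSeries

namespace Pool.Agent.Y113.GG

open Pool.Agent.Y113 Pool.Agent.Y37.GF Pool.Agent.Y118.HG

lemma out_one {Γ : Finset ℕ} {R : ℝ} : (1 : ℚ⟦X⟧) ∈ OA Γ R := (OA Γ R).one_mem

lemma out_prod {Γ : Finset ℕ} {R : ℝ} {α : Type} (s : Finset α) (F : α → ℚ⟦X⟧) (h : ∀ a ∈ s, F a ∈ OA Γ R) :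
    ∏ a ∈ s, F a ∈ OA Γ R := (OA Γ R).prod_mem h

/-- a G-system is closed under derivation -/
lemma GSys.deriv {ι : Type} [Fintype ι] {q : ℕ} {C : ℝ} {T : Polynomial ℤ} {y : ι → ℚ⟦X⟧} (h : GSys q C T y) (hT : T ≠ 0) :
    ∃ (T' : Polynomial ℚ) (B : ι → ι → Polynomial ℚ), T' ≠ 0 ∧
      ∀ a, (T' : ℚ⟦X⟧) * d⁄dX ℚ (y a) = ∑ b, (B a b : ℚ⟦X⟧) * y b := by
  obtain ⟨g, hg0, -, hg⟩ := h.der 1
  obtain ⟨G, -, -, hG⟩ := hg 1 le_rfl
  refine ⟨Polynomial.C (g : ℚ) * T.map (Int.castRingHom ℚ), fun a b => (G a b).map (Int.castRingHom ℚ), ?_, fun a => ?_⟩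
  · refine mul_ne_zero ?_ ?_
    · rw [Ne, Polynomial.C_eq_zero]
      have : g ≠ 0 := by omega
      exact_mod_cast this
    · intro h0
      exact hT ((Polynomial.map_eq_zero_iff (Int.cast_injective (α := ℚ))).1 h0)
  · have h1 := hG a
    have h2 : hd 1 (y a) = d⁄dX ℚ (y a) := by
      have := deriv_hd 0 (y a)
      rw [hd_zero] at this
      rw [this]
      simp
    rw [h2, pow_one] at h1
    rw [Polynomial.coe_mul, Polynomial.coe_C]
    have h3 : (g : ℚ⟦X⟧) = PowerSeries.C (g : ℚ) := by simp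
    rw [h3] at h1
    rw [mul_assoc]
    exact h1

variable {n δ : ℕ}

/-- **Linear independence of the products** -/
theorem li_shifts {f : Polynomial ℚ} {A : Fin n → Fin n → Polynomial ℚ} {Z W : Fin n → Fin n → ℚ⟦X⟧}
    (hf : f.coeff 0 ≠ 0)
    (hZ : ∀ i j, (f : ℚ⟦X⟧) * PowerSeries.derivative ℚ (Z i j) = ∑ k, Z i k * (A k j : ℚ⟦X⟧))
    (hW : ∀ i j, ∑ k, W i k * Z k j = if i = j then 1 else 0) {C : ℝ} (hC : 1 ≤ C)
    (hSZ : ∀ i j m, |((coeff m (Z i j) : ℚ) : ℝ)| ≤ C ^ (m + 1))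
    (hSW : ∀ i j m, |((coeff m (W i j) : ℚ) : ℝ)| ≤ C ^ (m + 1))
    (s : Finset (Fin δ → Option (Fin n × Fin n)))
    (hli : LinearIndependent (Polynomial ℚ) (fun k : s => wd Z (k : Fin δ → Option (Fin n × Fin n))))
    (hsys : ∀ (r : ℕ) (g : Fin r → ℕ), ∃ (q : ℕ) (K : ℝ) (T : Polynomial ℤ), T ≠ 0 ∧
      GSys q K T (fun e : Fin r → s => ∏ l, ph (g l) (wd Z (e l : Fin δ → Option (Fin n × Fin n)))))
    {G0 : ℕ} (hG0 : 2 * C < G0) (r : ℕ) : ∀ g : Fin r → ℕ, SepN G0 g →
      LinearIndependent (Polynomial ℚ)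
        (fun e : Fin r → s => ∏ l, ph (g l) (wd Z (e l : Fin δ → Option (Fin n × Fin n)))) := by
  classical
  have hC0 : 0 < C := by linarith
  induction r with
  | zero =>
    intro g _
    rw [Fintype.linearIndependent_iff]
    intro P hP e
    have h1 : ∑ e : Fin 0 → s, P e • (∏ l, ph (g l) (wd Z (e l : Fin δ → Option (Fin n × Fin n))) : ℚ⟦X⟧) =
        (P e : ℚ⟦X⟧) := by
      rw [Fintype.sum_eq_single e (fun x hx => absurd (Subsingleton.elim x e) hx)]
      rw [Finset.univ_eq_empty, Finset.prod_empty]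
      show (P e : ℚ⟦X⟧) * 1 = _
      rw [mul_one]
    rw [h1] at hP
    exact Polynomial.coe_eq_zero_iff.1 hP
  | succ r ih =>
    intro g hg
    have hg' : SepN G0 (fun l : Fin r => g l.succ) := fun l l' hll =>
      hg l.succ l'.succ (fun h => hll (Fin.succ_injective _ h))
    have hF := ih (fun l => g l.succ) hg'
    -- the frame
    set fr := (fr_base hZ hW).word δ with hfr
    obtain ⟨d, hdf, hdA⟩ : ∃ d : ℕ, f.natDegree ≤ d ∧ ∀ k j, (Aw δ (A0 A) k j).natDegree ≤ d := by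
      refine ⟨f.natDegree + ∑ k, ∑ j, (Aw δ (A0 A) k j).natDegree, by omega, fun k j => ?_⟩
      have e1 := Finset.single_le_sum (f := fun k => ∑ j, (Aw δ (A0 A) k j).natDegree)
        (fun _ _ => Nat.zero_le _) (Finset.mem_univ k)
      have e2 := Finset.single_le_sum (f := fun j => (Aw δ (A0 A) k j).natDegree)
        (fun _ _ => Nat.zero_le _) (Finset.mem_univ j)
      have e3 := e2.trans e1
      omega
    have frg := fr.ph hdf hdA (g 0)
    -- the two algebras
    set g' : ℕ := g 0 + G0 with hg'd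
    set Γ₂ : Finset ℕ := insert g' (Finset.univ.image fun l : Fin r => g l.succ) with hΓ₂
    have hsep : ∀ a ∈ ({g 0} : Finset ℕ), ∀ h ∈ Γ₂, 2 * C < |(a : ℝ) - h| := by
      intro a ha h hh
      rw [Finset.mem_singleton] at ha
      subst ha
      rcases Finset.mem_insert.1 hh with rfl | hh
      · rw [hg'd]
        push_cast
        have : |(g 0 : ℝ) - ((g 0 : ℝ) + G0)| = G0 := by
          rw [sub_add_cancel_left, abs_neg, abs_of_nonneg (Nat.cast_nonneg _)]
        rw [this]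
        exact hG0
      · obtain ⟨l, -, rfl⟩ := Finset.mem_image.1 hh
        have h1 := hg 0 l.succ (Fin.succ_ne_zero l).symm
        have h2 : (G0 : ℝ) ≤ |(g 0 : ℝ) - g l.succ| := by exact_mod_cast h1
        linarith
    have hletZ : ∀ (Γ : Finset ℕ) (h : ℕ), h ∈ Γ → ∀ i j, ph h (Z i j) ∈ OA Γ C := fun Γ h hh i j =>
      (out_ph hC (hSZ i j) le_rfl h).mono (Finset.singleton_subset_iff.2 hh)
    have hletW : ∀ (Γ : Finset ℕ) (h : ℕ), h ∈ Γ → ∀ i j, ph h (W i j) ∈ OA Γ C := fun Γ h hh i j =>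
      (out_ph hC (hSW i j) le_rfl h).mono (Finset.singleton_subset_iff.2 hh)
    have hwd : ∀ (Γ : Finset ℕ) (h : ℕ), h ∈ Γ → ∀ w : Fin δ → Option (Fin n × Fin n), ph h (wd Z w) ∈ OA Γ C := by
      intro Γ h hh w
      unfold wd
      rw [map_prod]
      refine out_prod _ _ fun a _ => ?_
      unfold lt
      rcases w a with _ | ⟨i, j⟩
      · simp only [Option.elim, map_one]; exact out_one
      · exact hletZ Γ h hh i j
    obtain ⟨q, K, T₂, hT₂, hgs⟩ := hsys r (fun l => g l.succ)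
    obtain ⟨T', B, hT', hB⟩ := GSys.deriv hgs hT₂
    have hrat : ∀ a₁ ∈ OA {g 0} C, ∀ b₁ ∈ OA {g 0} C, ∀ a₂ ∈ OA Γ₂ C, ∀ b₂ ∈ OA Γ₂ C, b₁ ≠ 0 → b₂ ≠ 0 →
        a₁ * b₂ = a₂ * b₁ → ∃ p q : Polynomial ℚ, q ≠ 0 ∧ (q : ℚ⟦X⟧) * a₂ = (p : ℚ⟦X⟧) * b₂ :=
      fun a₁ ha₁ b₁ hb₁ a₂ ha₂ b₂ hb₂ hb₁0 hb₂0 hab =>
        Pool.Agent.Y31.GG.t_rat {g 0} Γ₂ C a₁ b₁ a₂ b₂ hC0 hsep ha₁ hb₁ ha₂ hb₂ hb₁0 hb₂0 hab
    have hFO : ∀ e : Fin r → s, (∏ l, ph (g l.succ) (wd Z (e l : Fin δ → Option (Fin n × Fin n)))) ∈ OA Γ₂ C := by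
      intro e
      refine out_prod _ _ fun l _ => hwd _ _ ?_ _
      rw [hΓ₂]
      exact Finset.mem_insert_of_mem (Finset.mem_image_of_mem _ (Finset.mem_univ l))
    have hvO : vg g' ∈ OA Γ₂ C := (out_vg g' hC0).mono (Finset.singleton_subset_iff.2 (Finset.mem_insert_self _ _))
    have hvX : vg g' * X ∈ OA Γ₂ C := by
      rw [vg_mul_X]
      exact (out_sh g' hC0).mono (Finset.singleton_subset_iff.2 (Finset.mem_insert_self _ _))
    have key : ∀ (Tg : Polynomial ℚ) (Ag : (Fin δ → Option (Fin n × Fin n)) → (Fin δ → Option (Fin n × Fin n)) → Polynomial ℚ)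
        (γ : (Fin δ → Option (Fin n × Fin n)) → ℚ)
        (Y V : Matrix (Fin δ → Option (Fin n × Fin n)) (Fin δ → Option (Fin n × Fin n)) ℚ⟦X⟧),
        Fr Tg Ag (fun i => ph (g 0) (wd Z i)) γ Y V → (∀ i j, V i j ∈ OA {g 0} C) → Tg ≠ 0 →
        LinearIndependent (Polynomial ℚ) (fun p : s × (Fin r → s) =>
          ph (g 0) (wd Z (p.1 : Fin δ → Option (Fin n × Fin n))) *
            ∏ l, ph (g l.succ) (wd Z (p.2 l : Fin δ → Option (Fin n × Fin n)))) := by
      intro Tg Ag γ Y V hfr hV hTg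
      have h0 := t_ind (Fin δ → Option (Fin n × Fin n)) s (Fin r → s) (OA {g 0} C) (OA Γ₂ C)
        (fun i => ph (g 0) (wd Z i)) γ Y V Tg Ag (fun k : s => (k : Fin δ → Option (Fin n × Fin n)))
        (fun e : Fin r → s => ∏ l, ph (g l.succ) (wd Z (e l : Fin δ → Option (Fin n × Fin n)))) T' B (vg g')
      have h1 := h0 hrat
      have h2 := h1 hfr.inv
      have h3 := h2 hV 
      have h4 := h3 hfr.lin
      have h5 := h4 hTg
      have h6 := h5 hfr.sys
      have h7 := h6 hFO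
      have h8 := h7 hT'
      have h9 := h8 hB
      have h10 := h9 (vg_ne g')
      have h11 := h10 hvO
      have h12 := h11 hvX
      have h13 := h12 (li_ph hli (g 0))
      exact h13 hF
    have hmain := key _ _ _ _ _ frg
      (by
        intro i j
        simp only [Matrix.of_apply]
        rw [map_prod]
        refine out_prod _ _ fun a _ => ?_
        unfold W0
        simp only [Matrix.of_apply]
        rcases i a with _ | p <;> rcases j a with _ | p'
        · simp only [map_one]; exact out_one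
        · simp only [map_zero]; exact (OA {g 0} C).zero_mem
        · simp only [map_zero]; exact (OA {g 0} C).zero_mem
        · simp only
          split_ifs
          · exact hletW _ _ (Finset.mem_singleton_self _) _ _
          · rw [map_zero]; exact (OA {g 0} C).zero_mem)
      (by
        refine mul_ne_zero (pow_ne_zero _ ?_) ?_
        · intro h
          have h1 := coe_lin (g 0)
          rw [h, Polynomial.coe_zero] at h1
          exact lin_ne (g 0) h1.symm
        · intro h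
          have h1 := coe_hq hdf (g 0)
          rw [h, Polynomial.coe_zero] at h1
          have h2 := (mul_eq_zero.1 h1.symm).resolve_left (pow_ne_zero _ (lin_ne _))
          have h3 := ph_inj (g 0) (h2.trans (map_zero _).symm)
          have h4 : f = 0 := Polynomial.coe_eq_zero_iff.1 h3
          rw [h4] at hf
          exact hf (Polynomial.coeff_zero 0))
    have hcomp := hmain.comp (fun e : Fin (r + 1) → s => (e 0, fun l : Fin r => e l.succ)) (by
      intro e e' hee
      have h1 := congrArg Prod.fst hee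
      have h2 := congrArg Prod.snd hee
      funext l
      refine Fin.cases h1 (fun l => ?_) l
      exact congrFun h2 l)
    have he : ((fun p : s × (Fin r → s) => ph (g 0) (wd Z (p.1 : Fin δ → Option (Fin n × Fin n))) *
        ∏ l, ph (g l.succ) (wd Z (p.2 l : Fin δ → Option (Fin n × Fin n)))) ∘
        fun e : Fin (r + 1) → s => (e 0, fun l : Fin r => e l.succ)) =
        fun e : Fin (r + 1) → s => ∏ l, ph (g l) (wd Z (e l : Fin δ → Option (Fin n × Fin n))) := by
      funext e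
      rw [Fin.prod_univ_succ]
      rfl
    rw [he] at hcomp
    exact hcomp

end Pool.Agent.Y113.GG
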