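import Pool.Agent.Y113.GG.Fun
import Pool.Agent.Y113.GG.Cnt

/-!
# Project GG: the main theorems
-/

set_option autoImplicit false

open PowerSeries

namespace Pool.Agent.Y113.GG

open Pool.Agent.Y113 Pool.Agent.Y37.GF Pool.Agent.Y118.HG

variable {n : ℕ}

/-- large integers are fine for all shifts -/
lemma sub_large {c E H t g : ℕ} (hE : c + 1 ≤ E) (ht : (H + 2) ^ E ≤ t) (hg : g ≤ H) : 2 ^ c ≤ t - g := by
  have h1 : (H + 2) ^ (c + 1) ≤ t := (Nat.pow_le_pow_right (by omega) hE).trans ht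
  have h2 : 2 ^ c * (H + 2) ≤ (H + 2) ^ (c + 1) := by
    rw [pow_succ]
    exact Nat.mul_le_mul_right _ (Nat.pow_le_pow_left (by omega) _)
  have h3 : 1 ≤ 2 ^ c := Nat.one_le_two_pow
  have h4 : 2 ^ c + g ≤ 2 ^ c * (H + 2) := by nlinarith
  omega

/-- windows, in terms of the values -/
theorem win_nd {f : Polynomial ℚ} {A : Fin n → Fin n → Polynomial ℚ} {Z W : Fin n → Fin n → ℚ⟦X⟧} (h : Dat f A Z W)
    {C : ℝ} (hC : 1 ≤ C) (hZ : ∀ i j m, |((coeff m (Z i j) : ℚ) : ℝ)| ≤ C ^ (m + 1)) :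
    ∃ G0 : ℕ, 0 < G0 ∧ ∀ (δ : ℕ) (b : Bas Z δ) (k D : ℕ), ∃ M E : ℕ, ∀ V : Submodule ℚ ℂ, Module.Finite ℚ V →
      Module.finrank ℚ V ≤ D → ∀ H t : ℕ, (H + 2) ^ E ≤ t → ∃ S : Finset ℕ, S.card ≤ M ∧
        ∀ g : Fin k → ℕ, SepN G0 g → (∀ i, g i ≤ H ∧ g i ∉ S) → Nd b V (fun l => t - g l) := by
  obtain ⟨G0, hG0, hw⟩ := win h
  refine ⟨G0, hG0, fun δ b k D => ?_⟩
  obtain ⟨M, E, hME⟩ := hw δ b k D
  obtain ⟨c, hc⟩ := Pool.Agent.Y678.HG.exists_two_pow (C + 2)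
  refine ⟨M, E + (c + 1), fun V hV hVD H t ht => ?_⟩
  obtain ⟨S, hS, hS'⟩ := hME V hV hVD H t ((Nat.pow_le_pow_right (by omega) (by omega)).trans ht)
  refine ⟨S, hS, fun g hg hgS e hcV hsum => hS' g hg hgS e hcV ?_⟩
  rw [← hsum]
  refine Finset.sum_congr rfl fun x _ => ?_
  congr 1
  refine Finset.prod_congr rfl fun l _ => ?_
  have h1 := sub_large (c := c) (by omega : c + 1 ≤ E + (c + 1)) ht (hgS l).1
  have h2 : g l ≤ t := by
    have : 1 ≤ 2 ^ c := Nat.one_le_two_pow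
    omega
  have h3 : (((t - g l : ℕ)) : ℝ) = (t : ℝ) - g l := by push_cast [Nat.cast_sub h2]; ring
  have h4 : (2 : ℝ) ^ c ≤ (t : ℝ) - g l := by
    rw [← h3]
    exact_mod_cast h1
  rw [ev_phwd hC hZ _ _ (by linarith), h3]

/-- enlarging the point set: one more point -/
lemma nd_split {Z : Fin n → Fin n → ℚ⟦X⟧} {δ k : ℕ} (b : Bas Z δ) {V : Submodule ℚ ℂ} {m : Fin (k + 1) → ℕ}
    (h1 : Nd b V (fun i => m i.succ))
    (h2 : Nd b (V * sp (fun e : Fin k → b.s => ∏ l, wv (zv Z (m l.succ)) (e l : Fin δ → Option (Fin n × Fin n))))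
      (fun _ : Fin 1 => m 0)) : Nd b V m := by
  classical
  intro c hcV hsum
  set w : (Fin k → b.s) → ℂ := fun e => ∏ l, wv (zv Z (m l.succ)) (e l : Fin δ → Option (Fin n × Fin n)) with hw
  have hsum2 : ∑ e0 : b.s, (∑ e : Fin k → b.s, c (Fin.cons e0 e) * w e) *
      wv (zv Z (m 0)) (e0 : Fin δ → Option (Fin n × Fin n)) = 0 := by
    rw [← hsum, ← (Fin.consEquiv fun _ => b.s).sum_comp, Fintype.sum_prod_type]
    refine Finset.sum_congr rfl fun e0 _ => ?_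
    rw [Finset.sum_mul]
    refine Finset.sum_congr rfl fun e _ => ?_
    rw [Fin.prod_univ_succ]
    simp only [Fin.consEquiv, Equiv.coe_fn_mk, Fin.cons_zero, Fin.cons_succ]
    rw [hw]
    ring
  have hd : ∀ e0 : b.s, ∑ e : Fin k → b.s, c (Fin.cons e0 e) * w e = 0 := by
    have h3 := h2 (fun e => ∑ e' : Fin k → b.s, c (Fin.cons (e 0) e') * w e') (fun e => by
      refine Submodule.sum_mem _ fun e' _ => ?_
      exact Submodule.mul_mem_mul (hcV _) (sp_mem w e')) (by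
      rw [← hsum2, ← (Equiv.funUnique (Fin 1) b.s).sum_comp]
      refine Finset.sum_congr rfl fun e _ => ?_
      simp)
    intro e0
    have := congrFun h3 (fun _ => e0)
    exact this
  funext e
  have h4 := h1 (fun e' => c (Fin.cons (e 0) e')) (fun e' => hcV _) (hd (e 0))
  have h5 := congrFun h4 (fun i => e i.succ)
  have h6 : (Fin.cons (e 0) (fun i : Fin k => e i.succ) : Fin (k + 1) → b.s) = e := by
    funext i
    refine Fin.cases ?_ (fun i => ?_) i <;> simp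
  simp only [h6] at h5
  exact h5

/-- no points: nothing to prove -/
lemma nd_zero {Z : Fin n → Fin n → ℚ⟦X⟧} {δ : ℕ} (b : Bas Z δ) {V : Submodule ℚ ℂ} (m : Fin 0 → ℕ) : Nd b V m := by
  intro c _ hsum
  funext e
  rw [Fintype.sum_eq_single e (fun x hx => absurd (Subsingleton.elim x e) hx), Finset.univ_eq_empty, Finset.prod_empty,
    mul_one] at hsum
  exact hsum

open Classical in
/-- **Main theorem** -/
theorem main {f : Polynomial ℚ} {A : Fin n → Fin n → Polynomial ℚ} {Z W : Fin n → Fin n → ℚ⟦X⟧} (h : Dat f A Z W) :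
    ∃ x₀ G₀ : ℕ, ∀ δ k D : ℕ,
      (∃ M E : ℕ, ∀ Ω Θ : Matrix (Fin n) (Fin n) ℂ, Ω * Θ = 1 → Θ * Ω = 1 →
        ∀ V : Submodule ℚ ℂ, Module.Finite ℚ V → Module.finrank ℚ V ≤ D → ∀ H t : ℕ, (H + 2) ^ E ≤ t →
        ∃ S : Finset ℕ, S.card ≤ M ∧ ∀ g : Fin k → ℕ, SepN G₀ g → (∀ l, g l ≤ H ∧ g l ∉ S) →
          Spec Ω Z x₀ δ V (fun l => t - g l)) ∧
      ∃ c : ℝ, 0 < c ∧ ∃ C : ℝ, ∀ Ω Θ : Matrix (Fin n) (Fin n) ℂ, Ω * Θ = 1 → Θ * Ω = 1 →
        ∀ V : Submodule ℚ ℂ, Module.Finite ℚ V → Module.finrank ℚ V ≤ D → ∀ T : ℕ, 1 ≤ T →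
        (((Fintype.piFinset fun _ : Fin k => Finset.Icc 2 T).filter fun m => ¬ Spec Ω Z x₀ δ V m).card : ℝ) ≤
          C * (T : ℝ) ^ ((k : ℝ) - c) := by
  obtain ⟨C, hC, hCZ, -⟩ := h.bound
  obtain ⟨x₀, hx₀⟩ := exists_nat_ge C
  have hX : (1 : ℝ) ≤ x₀ := hC.trans hx₀
  have hXZ : ∀ i j m, |((coeff m (Z i j) : ℚ) : ℝ)| ≤ (x₀ : ℝ) ^ (m + 1) := fun i j m =>
    (hCZ i j m).trans (pow_le_pow_left₀ (by linarith) hx₀ _)
  obtain ⟨G₀, hG₀, hw⟩ := win_nd h hX hXZ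
  refine ⟨x₀, G₀, fun δ k D => ?_⟩
  obtain ⟨b⟩ := exists_bas Z δ
  -- large integers
  obtain ⟨c₁, hc₁⟩ := poly_ne b.hD
  obtain ⟨c₂, hc₂⟩ := Pool.Agent.Y678.HG.exists_two_pow ((x₀ : ℝ) + 1)
  have hlarge : ∀ m : ℕ, 2 ^ (c₁ + c₂) ≤ m → (x₀ : ℝ) < m ∧ Polynomial.aeval (1 / (m : ℝ)) b.D ≠ 0 := by
    intro m hm
    have h1 : (2 : ℝ) ^ (c₁ + c₂) ≤ m := by exact_mod_cast hm
    have h2 : (2 : ℝ) ^ c₁ ≤ m := (pow_le_pow_right₀ (by norm_num) (by omega)).trans h1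
    have h3 : (2 : ℝ) ^ c₂ ≤ m := (pow_le_pow_right₀ (by norm_num) (by omega)).trans h1
    have h4 : (0 : ℝ) < m := lt_of_lt_of_le (by positivity) h2
    exact ⟨by linarith, hc₁ _ (by positivity) (one_div_le_one_div_of_le (by positivity) h2)⟩
  set K := (Fintype.card (Fin n × Fin n) + 1) ^ δ with hK
  have hVW : ∀ (Ω : Matrix (Fin n) (Fin n) ℂ) (V : Submodule ℚ ℂ), Module.Finite ℚ V →
      Module.Finite ℚ ((V * (sp (fun q : Fin n × Fin n => Ω q.1 q.2)) ^ δ : Submodule ℚ ℂ)) ∧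
      Module.finrank ℚ ((V * (sp (fun q : Fin n × Fin n => Ω q.1 q.2)) ^ δ : Submodule ℚ ℂ)) ≤
        Module.finrank ℚ V * K := by
    intro Ω V hV
    obtain ⟨hWf, hWr⟩ := sp_fin (fun q : Fin n × Fin n => Ω q.1 q.2)
    obtain ⟨hPf, hPr⟩ := finrank_pow_le (sp (fun q : Fin n × Fin n => Ω q.1 q.2)) δ
    obtain ⟨h1, h2⟩ := finrank_mul_le V ((sp (fun q : Fin n × Fin n => Ω q.1 q.2)) ^ δ)
    exact ⟨h1, h2.trans (Nat.mul_le_mul_left _ (hPr.trans (Nat.pow_le_pow_left hWr _)))⟩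
  constructor
  · obtain ⟨M, E, hME⟩ := hw δ b k (D * K)
    refine ⟨M, E + (c₁ + c₂ + 1), fun Ω Θ hΩ1 hΩ2 V hV hVD H t ht => ?_⟩
    obtain ⟨hf1, hf2⟩ := hVW Ω V hV
    obtain ⟨S, hS, hS'⟩ := hME _ hf1 (hf2.trans (Nat.mul_le_mul_right _ hVD)) H t
      ((Nat.pow_le_pow_right (by omega) (by omega)).trans ht)
    refine ⟨S, hS, fun g hg hgS => ?_⟩
    have h5 : ∀ l, 2 ^ (c₁ + c₂) ≤ t - g l := fun l =>
      sub_large (c := c₁ + c₂) (by omega : c₁ + c₂ + 1 ≤ E + (c₁ + c₂ + 1)) ht (hgS l).1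
    exact spec_pv b hΩ1 hΩ2 hX hXZ (fun l => (hlarge _ (h5 l)).1) (fun l => (hlarge _ (h5 l)).2) (hS' g hg hgS)
  · -- counting
    set x₁ := 2 ^ (c₁ + c₂) with hx₁
    obtain ⟨Bk, hBk⟩ : ∃ Bk : (k : ℕ) → Submodule ℚ ℂ → (Fin k → ℕ) → Prop,
        ∀ k V m, Bk k V m ↔ (¬ Nd b V m ∨ ∃ l, m l < x₁) :=
      ⟨fun k V m => ¬ Nd b V m ∨ ∃ l, m l < x₁, fun _ _ _ => Iff.rfl⟩
    obtain ⟨c, hc, C', -, hcount⟩ := count_abs
      (fun V m => ¬ Nd b V (fun _ : Fin 1 => m) ∨ m < x₁)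
      Bk
      (fun k V m => V * sp (fun e : Fin k → b.s => ∏ l, wv (zv Z (m l)) (e l : Fin δ → Option (Fin n × Fin n))))
      (fun k => Fintype.card (Fin k → b.s) + 1)
      (fun V m hh => by
        rw [hBk] at hh
        rcases hh with hh | ⟨l, -⟩
        · exact hh (nd_zero b m)
        · exact l.elim0)
      (fun k V m hh => by
        rw [hBk] at hh ⊢
        rcases hh with hh | ⟨l, hl⟩
        · by_cases h1 : Nd b V (fun i => m i.succ)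
          · right
            left
            intro h2
            exact hh (nd_split b h1 h2)
          · exact Or.inl (Or.inl h1)
        · rcases Fin.eq_zero_or_eq_succ l with rfl | ⟨l', rfl⟩
          · exact Or.inr (Or.inr hl)
          · exact Or.inl (Or.inr ⟨l', hl⟩))
      (fun k V m hV => by
        obtain ⟨h1, h2⟩ := sp_fin (fun e : Fin k → b.s => ∏ l, wv (zv Z (m l)) (e l : Fin δ → Option (Fin n × Fin n)))
        obtain ⟨h3, h4⟩ := finrank_mul_le V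
          (sp (fun e : Fin k → b.s => ∏ l, wv (zv Z (m l)) (e l : Fin δ → Option (Fin n × Fin n))))
        exact ⟨h3, h4.trans (Nat.mul_le_mul_left _ h2)⟩)
      (fun D' => by
        obtain ⟨M, E, hME⟩ := hw δ b 1 D'
        refine ⟨M, E + (c₁ + c₂ + 1), fun V hV hVD H t ht S hS => ?_⟩
        obtain ⟨S', hS', hS''⟩ := hME V hV hVD H t ((Nat.pow_le_pow_right (by omega) (by omega)).trans ht)
        refine (Finset.card_le_card fun g hg => ?_).trans hS'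
        obtain ⟨h1, h2⟩ := hS g hg
        by_contra hgS
        rcases h2 with h2 | h2
        · exact h2 (hS'' (fun _ => g) (fun l l' hll => absurd (Subsingleton.elim l l') hll) (fun _ => ⟨h1, hgS⟩))
        · have h5 := sub_large (c := c₁ + c₂) (by omega : c₁ + c₂ + 1 ≤ E + (c₁ + c₂ + 1)) ht h1
          omega)
      k (D * K)
    refine ⟨c, hc, C', fun Ω Θ hΩ1 hΩ2 V hV hVD T hT => ?_⟩
    obtain ⟨hf1, hf2⟩ := hVW Ω V hV
    refine le_trans ?_ (hcount _ hf1 (hf2.trans (Nat.mul_le_mul_right _ hVD)) T hT)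
    refine Nat.cast_le.2 (Finset.card_le_card fun m hm => ?_)
    obtain ⟨hm1, hm2⟩ := Finset.mem_filter.1 hm
    refine Finset.mem_filter.2 ⟨hm1, ?_⟩
    rw [hBk]
    by_contra hcon
    push Not at hcon
    exact hm2 (spec_pv b hΩ1 hΩ2 hX hXZ (fun l => (hlarge _ (hcon.2 l)).1) (fun l => (hlarge _ (hcon.2 l)).2) hcon.1)

end Pool.Agent.Y113.GG
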