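import Pool.Agent.Y37.GF.Ode
import Pool.Agent.Y113.GG.Defs

/-!
# Project GG: the shift `z ↦ z / (1 - g z)`
-/

set_option autoImplicit false

open PowerSeries

namespace Pool.Agent.Y113.GG

open Pool.Agent.Y37.GF (ph ph_eq ph_X ph_der sh_mul sh_der)

lemma ph_C (g : ℕ) (a : ℚ) : ph g (PowerSeries.C a) = PowerSeries.C a := (ph g).commutes a

lemma const_ph (g : ℕ) (u : ℚ⟦X⟧) : constantCoeff (ph g u) = constantCoeff u := by
  have h1 : u = PowerSeries.C (constantCoeff u) + (u - PowerSeries.C (constantCoeff u)) := by ring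
  have h2 : constantCoeff (ph g (u - PowerSeries.C (constantCoeff u))) = 0 := by
    rw [ph_eq]
    refine constantCoeff_subst_eq_zero ?_ _ ?_
    · show constantCoeff (sh g) = 0
      rw [← coeff_zero_eq_constantCoeff_apply]; simp [sh]
    · simp
  calc constantCoeff (ph g u) = constantCoeff (ph g (PowerSeries.C (constantCoeff u)) +
        ph g (u - PowerSeries.C (constantCoeff u))) := by rw [← map_add, ← h1]
    _ = _ := by rw [map_add, h2, ph_C]; simp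

lemma sh_ne (g : ℕ) : sh g ≠ 0 := by
  intro h
  have := congrArg (coeff 1) h
  simp [sh] at this

lemma ph_inj (g : ℕ) : Function.Injective (ph g) := by
  refine (injective_iff_map_eq_zero (ph g)).2 fun f hf => ?_
  by_contra hne
  have h1 := X_pow_order_mul_divXPowOrder (f := f)
  have h2 : constantCoeff (ph g (divXPowOrder f)) ≠ 0 := by
    rw [const_ph]
    intro h
    exact hne (constantCoeff_divXPowOrder_eq_zero_iff.1 h)
  have h3 : ph g f = (sh g) ^ f.order.toNat * ph g (divXPowOrder f) := by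
    conv_lhs => rw [← h1]
    rw [map_mul, map_pow, ph_X]
  rw [hf] at h3
  have h4 := (mul_eq_zero.1 h3.symm).resolve_left (pow_ne_zero _ (sh_ne g))
  rw [h4, map_zero] at h2
  exact h2 rfl

/-- the transformed polynomial -/
noncomputable def hq (d : ℕ) (P : Polynomial ℚ) (g : ℕ) : Polynomial ℚ :=
  ∑ k ∈ Finset.range (d + 1), Polynomial.C (P.coeff k) * Polynomial.X ^ k *
    (1 - Polynomial.C (g : ℚ) * Polynomial.X) ^ (d - k)

lemma coe_ringHom (P : Polynomial ℚ) : (P : ℚ⟦X⟧) = Polynomial.coeToPowerSeries.ringHom P := rfl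

lemma coe_lin (g : ℕ) : ((1 - Polynomial.C (g : ℚ) * Polynomial.X : Polynomial ℚ) : ℚ⟦X⟧) = 1 - (g : ℚ⟦X⟧) * X := by
  rw [coe_ringHom, map_sub, map_one, map_mul, ← coe_ringHom, ← coe_ringHom, Polynomial.coe_X, Polynomial.coe_C,
    map_natCast]

lemma coe_sum_coeff {d : ℕ} {P : Polynomial ℚ} (hP : P.natDegree ≤ d) :
    (P : ℚ⟦X⟧) = ∑ k ∈ Finset.range (d + 1), PowerSeries.C (P.coeff k) * X ^ k := by
  have h := P.as_sum_range' (d + 1) (by omega)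
  conv_lhs => rw [h]
  rw [coe_ringHom, map_sum]
  refine Finset.sum_congr rfl fun k _ => ?_
  rw [← coe_ringHom, Polynomial.coe_monomial]
  ext m
  rw [coeff_monomial, coeff_C_mul, coeff_X_pow]
  split_ifs <;> simp

lemma coe_hq {d : ℕ} {P : Polynomial ℚ} (hP : P.natDegree ≤ d) (g : ℕ) :
    (hq d P g : ℚ⟦X⟧) = (1 - (g : ℚ⟦X⟧) * X) ^ d * ph g (P : ℚ⟦X⟧) := by
  rw [coe_sum_coeff hP, hq, coe_ringHom, map_sum, map_sum, Finset.mul_sum]
  refine Finset.sum_congr rfl fun k hk => ?_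
  have hk' : k ≤ d := Nat.lt_succ_iff.1 (Finset.mem_range.1 hk)
  rw [← coe_ringHom, Polynomial.coe_mul, Polynomial.coe_mul, Polynomial.coe_C, Polynomial.coe_pow, Polynomial.coe_X,
    Polynomial.coe_pow, coe_lin, map_mul, map_pow, ph_X, ph_C]
  have h1 : (1 - (g : ℚ⟦X⟧) * X) ^ d = (1 - (g : ℚ⟦X⟧) * X) ^ k * (1 - (g : ℚ⟦X⟧) * X) ^ (d - k) := by
    rw [← pow_add]; congr 1; omega
  have h2 : (X : ℚ⟦X⟧) ^ k = (1 - (g : ℚ⟦X⟧) * X) ^ k * sh g ^ k := by rw [← mul_pow, sh_mul]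
  rw [h1, h2]
  ring

lemma lin_ne (g : ℕ) : (1 - (g : ℚ⟦X⟧) * X : ℚ⟦X⟧) ≠ 0 := by
  intro h
  have := congrArg constantCoeff h
  simp at this

/-- a system of differential equations after the shift -/
lemma ph_sys {ι κ : Type} [Fintype κ] {T : Polynomial ℚ} {A : κ → ι → Polynomial ℚ} {Y : κ → ℚ⟦X⟧} {Y' : ι → ℚ⟦X⟧} {d : ℕ}
    (hT : T.natDegree ≤ d) (hA : ∀ k j, (A k j).natDegree ≤ d)
    (h : ∀ j, (T : ℚ⟦X⟧) * d⁄dX ℚ (Y' j) = ∑ k, Y k * (A k j : ℚ⟦X⟧)) (g : ℕ) (j : ι) :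
    (((1 - Polynomial.C (g : ℚ) * Polynomial.X) ^ 2 * hq d T g : Polynomial ℚ) : ℚ⟦X⟧) * d⁄dX ℚ (ph g (Y' j)) =
      ∑ k, ph g (Y k) * (hq d (A k j) g : ℚ⟦X⟧) := by
  rw [Polynomial.coe_mul, Polynomial.coe_pow, coe_lin, coe_hq hT, ph_der]
  have h1 := congrArg (ph g) (h j)
  rw [map_mul, map_sum] at h1
  have h2 := sh_der g
  calc (1 - (g : ℚ⟦X⟧) * X) ^ 2 * ((1 - (g : ℚ⟦X⟧) * X) ^ d * ph g (T : ℚ⟦X⟧)) *
        (ph g (d⁄dX ℚ (Y' j)) * d⁄dX ℚ (sh g)) = (1 - (g : ℚ⟦X⟧) * X) ^ d *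
          (ph g (T : ℚ⟦X⟧) * ph g (d⁄dX ℚ (Y' j))) * ((1 - (g : ℚ⟦X⟧) * X) ^ 2 * d⁄dX ℚ (sh g)) := by ring
    _ = _ := by
      rw [h1, h2, mul_one, Finset.mul_sum]
      refine Finset.sum_congr rfl fun k _ => ?_
      rw [map_mul, coe_hq (hA k j)]
      ring

/-- the inverse transformation of polynomials -/
noncomputable def hr (d : ℕ) (P : Polynomial ℚ) (g : ℕ) : Polynomial ℚ :=
  ∑ k ∈ Finset.range (d + 1), Polynomial.C (P.coeff k) * Polynomial.X ^ k *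
    (1 + Polynomial.C (g : ℚ) * Polynomial.X) ^ (d - k)

lemma coe_hr {d : ℕ} {P : Polynomial ℚ} (hP : P.natDegree ≤ d) (g : ℕ) :
    (P : ℚ⟦X⟧) = (1 - (g : ℚ⟦X⟧) * X) ^ d * ph g (hr d P g : ℚ⟦X⟧) := by
  have h0 : (1 - (g : ℚ⟦X⟧) * X) * (1 + (g : ℚ⟦X⟧) * sh g) = 1 := by
    have := sh_mul g
    linear_combination (g : ℚ⟦X⟧) * this
  rw [coe_sum_coeff hP, hr, coe_ringHom, map_sum, map_sum, Finset.mul_sum]
  refine Finset.sum_congr rfl fun k hk => ?_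
  have hk' : k ≤ d := Nat.lt_succ_iff.1 (Finset.mem_range.1 hk)
  have e1 : ((1 + Polynomial.C (g : ℚ) * Polynomial.X : Polynomial ℚ) : ℚ⟦X⟧) = 1 + (g : ℚ⟦X⟧) * X := by
    rw [coe_ringHom, map_add, map_one, map_mul, ← coe_ringHom, ← coe_ringHom, Polynomial.coe_X, Polynomial.coe_C,
      map_natCast]
  rw [← coe_ringHom, Polynomial.coe_mul, Polynomial.coe_mul, Polynomial.coe_C, Polynomial.coe_pow, Polynomial.coe_X,
    Polynomial.coe_pow, e1, map_mul, map_mul, map_pow, map_pow, map_add, map_mul, map_one, ph_X, ph_C, map_natCast]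
  have h1 : (1 - (g : ℚ⟦X⟧) * X) ^ d = (1 - (g : ℚ⟦X⟧) * X) ^ k * (1 - (g : ℚ⟦X⟧) * X) ^ (d - k) := by
    rw [← pow_add]; congr 1; omega
  have h2 : (X : ℚ⟦X⟧) ^ k = (1 - (g : ℚ⟦X⟧) * X) ^ k * sh g ^ k := by rw [← mul_pow, sh_mul]
  have h3 : (1 - (g : ℚ⟦X⟧) * X) ^ (d - k) * (1 + (g : ℚ⟦X⟧) * sh g) ^ (d - k) = 1 := by
    rw [← mul_pow, h0, one_pow]
  rw [h1, h2]
  linear_combination - PowerSeries.C (P.coeff k) * (1 - (g : ℚ⟦X⟧) * X) ^ k * sh g ^ k * h3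

/-- linear independence is preserved by the shift -/
lemma li_ph {κ : Type} [Fintype κ] {m : κ → ℚ⟦X⟧} (h : LinearIndependent (Polynomial ℚ) m) (g : ℕ) :
    LinearIndependent (Polynomial ℚ) (fun k => ph g (m k)) := by
  rw [Fintype.linearIndependent_iff] at h ⊢
  intro P hP k
  set d := Finset.univ.sup fun k => (P k).natDegree with hd
  have hPd : ∀ k, (P k).natDegree ≤ d := fun k => Finset.le_sup (f := fun k => (P k).natDegree) (Finset.mem_univ k)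
  have h1 : (1 - (g : ℚ⟦X⟧) * X) ^ d * ph g (∑ k, (hr d (P k) g : ℚ⟦X⟧) * m k) = 0 := by
    rw [map_sum, Finset.mul_sum, ← hP]
    refine Finset.sum_congr rfl fun k _ => ?_
    rw [map_mul, ← mul_assoc, ← coe_hr (hPd k)]
    rfl
  have h2 := (mul_eq_zero.1 h1).resolve_left (pow_ne_zero _ (lin_ne g))
  have h3 := ph_inj g (h2.trans (map_zero _).symm)
  have h4 := h (fun k => hr d (P k) g) h3 k
  have h5 := coe_hr (hPd k) g
  have h4' : hr d (P k) g = 0 := h4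
  rw [h4', Polynomial.coe_zero, map_zero, mul_zero] at h5
  exact Polynomial.coe_eq_zero_iff.1 h5

end Pool.Agent.Y113.GG
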