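import Pool.Agent.Y113.GG.Wk

/-!
# Project GG: values of words
-/

set_option autoImplicit false

open PowerSeries

namespace Pool.Agent.Y113.GG

open Pool.Agent.Y113 Pool.Agent.Y37.GF Pool.Agent.Y118.HG

/-- the value of a word -/
def wv {σ M : Type} [CommMonoid M] {δ : ℕ} (z : σ → M) (h : Fin δ → Option σ) : M := ∏ a, (h a).elim 1 z

lemma map_wv {σ M M' F : Type} [CommMonoid M] [CommMonoid M'] [FunLike F M M'] [MonoidHomClass F M M'] {δ : ℕ} (φ : F)
    (z : σ → M) (h : Fin δ → Option σ) : φ (wv z h) = wv (fun i => φ (z i)) h := by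
  unfold wv
  rw [map_prod]
  refine Finset.prod_congr rfl fun a _ => ?_
  rcases h a with _ | i
  · simp
  · simp

/-- monomials are words -/
lemma exists_wv {σ : Type} [Fintype σ] (δ : ℕ) : ∀ e : σ → ℕ, ∑ i, e i ≤ δ →
    ∃ h : Fin δ → Option σ, ∀ (M : Type) [CommMonoid M] (z : σ → M), wv z h = ∏ i, z i ^ e i := by
  classical
  induction δ with
  | zero =>
    intro e he
    have h1 : ∀ i, e i = 0 := fun i => by
      have := Finset.single_le_sum (f := e) (fun _ _ => Nat.zero_le _) (Finset.mem_univ i)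
      omega
    exact ⟨fun i => none, fun M _ z => by simp [wv, h1]⟩
  | succ δ ih =>
    intro e he
    by_cases h0 : ∀ i, e i = 0
    · exact ⟨fun i => none, fun M _ z => by simp [wv, h0]⟩
    · push Not at h0
      obtain ⟨i₀, hi₀⟩ := h0
      have e1 : ∀ i, e i = Function.update e i₀ (e i₀ - 1) i + (if i = i₀ then 1 else 0) := by
        intro i
        by_cases hi : i = i₀
        · subst hi; simp; omega
        · simp [hi]
      have e2 : ∑ i, e i = (∑ i, Function.update e i₀ (e i₀ - 1) i) + 1 := by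
        rw [Finset.sum_congr rfl fun i _ => e1 i, Finset.sum_add_distrib]
        simp
      obtain ⟨f, hf⟩ := ih (Function.update e i₀ (e i₀ - 1)) (by omega)
      refine ⟨Fin.cons (some i₀) f, fun M _ z => ?_⟩
      unfold wv
      rw [Fin.prod_univ_succ]
      simp only [Fin.cons_zero, Fin.cons_succ, Option.elim]
      have hf' := hf M z
      unfold wv at hf'
      simp only [Option.elim] at hf'
      rw [hf']
      have e3 : ∀ i, z i ^ e i = z i ^ (Function.update e i₀ (e i₀ - 1) i) * z i ^ (if i = i₀ then 1 else 0) := by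
        intro i
        rw [← pow_add, ← e1]
      rw [Finset.prod_congr rfl fun i _ => e3 i, Finset.prod_mul_distrib]
      have e4 : ∏ i, z i ^ (if i = i₀ then 1 else 0) = z i₀ := by
        rw [Finset.prod_eq_single i₀]
        · simp
        · intro j _ hj; simp [hj]
        · intro h; exact absurd (Finset.mem_univ _) h
      rw [e4, mul_comm]

variable {n : ℕ}

/-- the values of the functions `Z` at `1 / x` -/
noncomputable def zv (Z : Fin n → Fin n → ℚ⟦X⟧) (x : ℝ) (p : Fin n × Fin n) : ℂ := (ev x (Z p.1 p.2) : ℂ)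

lemma sr_of {C : ℝ} (hC : 1 ≤ C) {f : ℚ⟦X⟧} (hf : ∀ m, |((coeff m f : ℚ) : ℝ)| ≤ C ^ (m + 1)) {x : ℝ} (hx : C < x) :
    SR (1 / x) f := by
  have hx0 : 0 < x := by linarith
  refine SR.of_bound (A := C) (B := C) (by positivity) (by linarith) ?_ fun m => ?_
  · rw [mul_one_div, div_lt_one hx0]; exact hx
  · rw [← pow_succ']; exact hf m

/-- the value of a shifted series -/
lemma ev_ph {C : ℝ} (hC : 1 ≤ C) {f : ℚ⟦X⟧} (hf : ∀ m, |((coeff m f : ℚ) : ℝ)| ≤ C ^ (m + 1)) (g : ℕ) {t : ℝ}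
    (ht : g + C + 1 < t) : SR (1 / t) (ph g f) ∧ ev t (ph g f) = ev (t - g) f := by
  have hC0 : 0 < C := by linarith
  have hg0 : (0 : ℝ) ≤ g := Nat.cast_nonneg g
  have hgt : (g : ℝ) < t := by linarith
  have ht0 : 0 < t := by linarith
  set r : ℝ := 1 / t with hr
  have hr0 : 0 ≤ r := by positivity
  have hgt' : (g : ℝ) < ‖((t : ℝ) : ℂ)‖ := by rw [Complex.norm_real, Real.norm_eq_abs, abs_of_pos ht0]; exact hgt
  have hS := hasSum_sh g hgt'
  have hsh : SR r (sh g) := by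
    have h1 := hS.summable.norm
    refine h1.congr fun m => ?_
    rw [norm_mul, norm_pow, norm_rat, norm_div, norm_one, Complex.norm_real, Real.norm_eq_abs, abs_of_pos ht0]
  have hEsh : E (sh g) r = 1 / (t - g) := by
    have h3 : HasSum (fun m : ℕ => (((((coeff m (sh g) : ℚ) : ℝ) * r ^ m : ℝ)) : ℂ)) ((1 / (t - g) : ℝ) : ℂ) := by
      have e : ((1 / (t - g) : ℝ) : ℂ) = 1 / (((t : ℝ) : ℂ) - g) := by push_cast; rfl
      rw [e]
      have e2 : (fun m : ℕ => (((((coeff m (sh g) : ℚ) : ℝ) * r ^ m : ℝ)) : ℂ)) =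
          fun m : ℕ => ((coeff m (sh g) : ℚ) : ℂ) * (1 / ((t : ℝ) : ℂ)) ^ m := by
        ext m
        rw [hr]
        push_cast
        rfl
      rw [e2]
      exact hS
    exact (Complex.hasSum_ofReal.1 h3).tsum_eq
  have hle : 1 / (t - g) ≤ 1 / (C + 1) := one_div_le_one_div_of_le (by linarith) (by linarith)
  have hfC : SR (1 / (C + 1)) f := SR.of_bound (A := C) (by positivity) hC0.le
    (by rw [mul_one_div, div_lt_one (by linarith)]; linarith) fun m => by
      rw [← pow_succ']; exact hf m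
  have hsub := subst_main (f := f) (Pool.Agent.Y37.GF.hasSubst_sh g) (coeff_sh_nonneg g) hr0 hsh (hEsh.le.trans hle) hfC
  have h4 := hsub.2 r (by rw [abs_of_nonneg hr0])
  rw [hEsh] at h4
  rw [ev_eq, ev_eq, ph_eq]
  exact ⟨hsub.1, h4⟩

/-- the value of a word -/
lemma ev_wd {Z : Fin n → Fin n → ℚ⟦X⟧} {C : ℝ} (hC : 1 ≤ C)
    (hZ : ∀ i j m, |((coeff m (Z i j) : ℚ) : ℝ)| ≤ C ^ (m + 1)) {δ : ℕ} (h : Fin δ → Option (Fin n × Fin n)) {x : ℝ}
    (hx : C < x) : SR (1 / x) (wd Z h) ∧ (ev x (wd Z h) : ℂ) = wv (zv Z x) h := by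
  have hx0 : 0 < x := by linarith
  have h1 : ∀ a ∈ Finset.univ, SR (1 / x) (lt Z (h a)) := by
    intro a _
    unfold lt
    rcases h a with _ | ⟨i, j⟩
    · exact SR.one _
    · exact sr_of hC (hZ i j) hx
  have h2 := E_prod Finset.univ (F := fun a => lt Z (h a)) (by positivity) h1 (z := 1 / x)
    (by rw [abs_of_pos (by positivity)])
  refine ⟨SR.prod _ (by positivity) h1, ?_⟩
  rw [ev_eq]
  unfold wd wv
  rw [h2]
  push_cast
  refine Finset.prod_congr rfl fun a _ => ?_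
  unfold lt zv
  rcases h a with _ | ⟨i, j⟩
  · simp [E_one]
  · simp [ev_eq]

/-- the value of a shifted word -/
lemma ev_phwd {Z : Fin n → Fin n → ℚ⟦X⟧} {C : ℝ} (hC : 1 ≤ C)
    (hZ : ∀ i j m, |((coeff m (Z i j) : ℚ) : ℝ)| ≤ C ^ (m + 1)) {δ : ℕ} (h : Fin δ → Option (Fin n × Fin n)) (g : ℕ)
    {t : ℝ} (ht : g + C + 1 < t) : (ev t (ph g (wd Z h)) : ℂ) = wv (zv Z (t - g)) h := by
  have hg0 : (0 : ℝ) ≤ g := Nat.cast_nonneg g
  have ht0 : 0 < t := by linarith
  have h1 : ∀ a ∈ Finset.univ, SR (1 / t) (ph g (lt Z (h a))) := by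
    intro a _
    unfold lt
    rcases h a with _ | ⟨i, j⟩
    · simp only [Option.elim, map_one]; exact SR.one _
    · exact (ev_ph hC (hZ i j) g ht).1
  have h2 := E_prod Finset.univ (F := fun a => ph g (lt Z (h a))) (by positivity) h1 (z := 1 / t)
    (by rw [abs_of_pos (by positivity)])
  rw [ev_eq]
  unfold wd wv
  rw [map_prod, h2]
  push_cast
  refine Finset.prod_congr rfl fun a _ => ?_
  unfold lt zv
  rcases h a with _ | ⟨i, j⟩
  · simp [E_one]
  · simp only [Option.elim]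
    rw [← ev_eq, (ev_ph hC (hZ i j) g ht).2]

/-- the reduction of the values -/
lemma red_val {Z : Fin n → Fin n → ℚ⟦X⟧} {C : ℝ} (hC : 1 ≤ C)
    (hZ : ∀ i j m, |((coeff m (Z i j) : ℚ) : ℝ)| ≤ C ^ (m + 1)) {δ : ℕ} (b : Bas Z δ)
    (h : Fin δ → Option (Fin n × Fin n)) {x : ℝ} (hx : C < x) :
    ((Polynomial.aeval (1 / x) b.D : ℝ) : ℂ) * wv (zv Z x) h =
      ∑ k : b.s, ((Polynomial.aeval (1 / x) (b.N h k) : ℝ) : ℂ) * wv (zv Z x) (k : Fin δ → Option (Fin n × Fin n)) := by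
  have hx0 : 0 < x := by linarith
  have hz : |1 / x| ≤ 1 / x := by rw [abs_of_pos (by positivity)]
  have hps : ∀ P : Polynomial ℤ, SR (1 / x) (ps P) := fun P => SR.poly _ _
  have hE : ∀ P : Polynomial ℤ, E (ps P) (1 / x) = Polynomial.aeval (1 / x) P := by
    intro P
    unfold ps
    rw [E_poly]
    exact Polynomial.aeval_map_algebraMap ℚ (1 / x) P
  have hk : ∀ k : b.s, SR (1 / x) (ps (b.N h k) * wd Z (k : Fin δ → Option (Fin n × Fin n))) := fun k =>
    SR.mul (by positivity) (hps _) (ev_wd hC hZ k.1 hx).1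
  have e1 : E (ps b.D * wd Z h) (1 / x) = Polynomial.aeval (1 / x) b.D * E (wd Z h) (1 / x) := by
    rw [E_mul (hps _) (ev_wd hC hZ h hx).1 hz, hE]
  have e2 : E (∑ k : b.s, ps (b.N h k) * wd Z (k : Fin δ → Option (Fin n × Fin n))) (1 / x) =
      ∑ k : b.s, Polynomial.aeval (1 / x) (b.N h k) * E (wd Z (k : Fin δ → Option (Fin n × Fin n))) (1 / x) := by
    have e3 := E_sum (r := 1 / x) (z := 1 / x) Finset.univ
      (F := fun k : b.s => ps (b.N h k) * wd Z (k : Fin δ → Option (Fin n × Fin n))) (by positivity) (fun k _ => hk k) hz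
    refine e3.trans (Finset.sum_congr rfl fun k _ => ?_)
    have e4 := E_mul (hps (b.N h k)) (ev_wd hC hZ k.1 hx).1 hz
    rw [hE] at e4
    exact e4
  have h1 : Polynomial.aeval (1 / x) b.D * E (wd Z h) (1 / x) =
      ∑ k : b.s, Polynomial.aeval (1 / x) (b.N h k) * E (wd Z (k : Fin δ → Option (Fin n × Fin n))) (1 / x) := by
    rw [← e1, ← e2, b.red h]
  have h3 : ((Polynomial.aeval (1 / x) b.D * E (wd Z h) (1 / x) : ℝ) : ℂ) =
      ((∑ k : b.s, Polynomial.aeval (1 / x) (b.N h k) * E (wd Z (k : Fin δ → Option (Fin n × Fin n))) (1 / x) : ℝ) : ℂ) := by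
    rw [h1]
  rw [Complex.ofReal_mul, Complex.ofReal_sum] at h3
  rw [← (ev_wd hC hZ h hx).2]
  refine h3.trans (Finset.sum_congr rfl fun k _ => ?_)
  rw [Complex.ofReal_mul, ← (ev_wd hC hZ k.1 hx).2]
  rfl

end Pool.Agent.Y113.GG
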