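import Pool.Agent.Y341.HGWk
import Pool.Agent.Y113.GG.LI

/-!
# Project GG: windows for the basis words
-/

set_option autoImplicit false

open PowerSeries

namespace Pool.Agent.Y113.GG

open Pool.Agent.Y113 Pool.Agent.Y37.GF Pool.Agent.Y118.HG

variable {n : ℕ}

/-- the data: an invertible matrix of G-functions which is a fundamental matrix of a system regular at `0` -/
structure Dat (f : Polynomial ℚ) (A : Fin n → Fin n → Polynomial ℚ) (Z W : Fin n → Fin n → ℚ⟦X⟧) : Prop where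
  reg : f.coeff 0 ≠ 0
  sys : ∀ i j, (f : ℚ⟦X⟧) * PowerSeries.derivative ℚ (Z i j) = ∑ k, Z i k * (A k j : ℚ⟦X⟧)
  inv : ∀ i j, ∑ k, W i k * Z k j = if i = j then 1 else 0
  gZ : ∀ i j, SDc (Z i j)
  gW : ∀ i j, SDc (W i j)

/-- a common bound -/
lemma Dat.bound {f : Polynomial ℚ} {A : Fin n → Fin n → Polynomial ℚ} {Z W : Fin n → Fin n → ℚ⟦X⟧} (h : Dat f A Z W) :
    ∃ C : ℝ, 1 ≤ C ∧ (∀ i j m, |((coeff m (Z i j) : ℚ) : ℝ)| ≤ C ^ (m + 1)) ∧
      ∀ i j m, |((coeff m (W i j) : ℚ) : ℝ)| ≤ C ^ (m + 1) := by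
  choose a ha using h.gZ
  choose b hb using h.gW
  have hle : ∀ (u : Fin n → Fin n → ℕ) i j, u i j ≤ ∑ i, ∑ j, u i j := by
    intro u i j
    have h1 := Finset.single_le_sum (f := fun i => ∑ j, u i j)
      (fun _ _ => Nat.zero_le _) (Finset.mem_univ i)
    have h2 := Finset.single_le_sum (f := fun j => u i j)
      (fun _ _ => Nat.zero_le _) (Finset.mem_univ j)
    exact h2.trans h1
  set K := (∑ i, ∑ j, a i j) + ∑ i, ∑ j, b i j with hK
  refine ⟨2 ^ K, one_le_pow₀ (by norm_num), fun i j m => ?_, fun i j m => ?_⟩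
  · refine ((ha i j).mono ?_).1 m
    exact pow_le_pow_right₀ (by norm_num) (by have := hle a i j; omega)
  · refine ((hb i j).mono ?_).1 m
    exact pow_le_pow_right₀ (by norm_num) (by have := hle b i j; omega)

/-- the words of length `δ` and their reduction to a basis -/
structure Bas (Z : Fin n → Fin n → ℚ⟦X⟧) (δ : ℕ) where
  s : Finset (Fin δ → Option (Fin n × Fin n))
  h0 : (fun _ => none) ∈ s
  D : Polynomial ℤ
  N : (Fin δ → Option (Fin n × Fin n)) → s → Polynomial ℤ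
  hD : D ≠ 0
  red : ∀ h, ps D * wd Z h = ∑ k : s, ps (N h k) * wd Z (k : Fin δ → Option (Fin n × Fin n))
  li : LinearIndependent (Polynomial ℚ) (fun k : s => wd Z (k : Fin δ → Option (Fin n × Fin n)))

lemma exists_bas (Z : Fin n → Fin n → ℚ⟦X⟧) (δ : ℕ) : Nonempty (Bas Z δ) := by
  obtain ⟨s, h0, hli, D, N, hD, h⟩ := exists_words Z δ
  exact ⟨⟨s, h0, D, N, hD, h, hli⟩⟩

/-- the abstract windows statement for the basis words -/
theorem win {f : Polynomial ℚ} {A : Fin n → Fin n → Polynomial ℚ} {Z W : Fin n → Fin n → ℚ⟦X⟧} (h : Dat f A Z W) :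
    ∃ G0 : ℕ, 0 < G0 ∧ ∀ (δ : ℕ) (b : Bas Z δ) (k D : ℕ), ∃ M E : ℕ, ∀ V : Submodule ℚ ℂ, Module.Finite ℚ V →
      Module.finrank ℚ V ≤ D → ∀ H t : ℕ, (H + 2) ^ E ≤ t → ∃ S : Finset ℕ, S.card ≤ M ∧
        ∀ g : Fin k → ℕ, SepN G0 g → (∀ i, g i ≤ H ∧ g i ∉ S) → ∀ c : (Fin k → b.s) → ℂ, (∀ e, c e ∈ V) →
          ∑ e, c e * ∏ i, (ev t (ph (g i) (wd Z (e i : Fin δ → Option (Fin n × Fin n)))) : ℂ) = 0 → c = 0 := by
  obtain ⟨C, hC, hCZ, hCW⟩ := h.bound
  obtain ⟨G0, hG0⟩ := exists_nat_gt (2 * C)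
  have hG0pos : 0 < G0 := by
    have : (0 : ℝ) < G0 := by linarith
    exact_mod_cast this
  refine ⟨G0, hG0pos, fun δ b k D => ?_⟩
  obtain ⟨q, E, TT, hE, hE'⟩ := exists_sys h.reg h.sys h.inv h.gZ h.gW δ b.s b.D b.N b.hD b.red
  have hprod := Pool.Agent.Y678.HG.gsys_prod TT
    (fun g (k : b.s) => ph g (wd Z (k : Fin δ → Option (Fin n × Fin n)))) q E hE
  have hTT : ∀ g, TT g ≠ 0 := by
    intro g h0
    obtain ⟨t, ht⟩ := exists_nat_ge (((g : ℝ) + 2) ^ E)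
    have := hE' g t ht
    rw [h0, map_zero] at this
    exact this rfl
  refine Pool.Agent.Y341.HG.t_wk b.s ⟨fun _ => none, b.h0⟩ G0 TT
    (fun g (k : b.s) => ph g (wd Z (k : Fin δ → Option (Fin n × Fin n)))) hG0pos ?_ hprod ?_ ⟨E, hE'⟩ k D
  · intro g
    have h3 : wd Z (fun _ : Fin δ => (none : Option (Fin n × Fin n))) = 1 := by
      unfold wd lt
      simp
    show ph g (wd Z (fun _ : Fin δ => (none : Option (Fin n × Fin n)))) = 1
    rw [h3, map_one]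
  · intro r
    refine li_shifts h.reg h.sys h.inv hC hCZ hCW b.s b.li (fun r g => ?_) hG0 r
    obtain ⟨q', E', hq⟩ := hprod r
    refine ⟨q', ((((Finset.univ.sup g : ℕ) : ℝ)) + 2) ^ E', ∏ l, TT (g l),
      Finset.prod_ne_zero_iff.2 fun l _ => hTT _, hq (Finset.univ.sup g) g fun l => Finset.le_sup (Finset.mem_univ l)⟩

end Pool.Agent.Y113.GG
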